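import Pool.Agent.MP_807c24_nt.H42.Pair

namespace Pool.Agent.MP_807c24_nt.H42

open Finset Polynomial

/-- the part of `r !` made of primes dividing `b` -/
def beta (b r : ℕ) : ℕ := ∏ p ∈ b.primeFactors, p ^ r.factorial.factorization p

theorem count_ge {b q : ℕ} (hq : 0 < q) (hbq : Nat.Coprime b q) (v : ℤ) (r : ℕ) :
    r / q ≤ #((range r).filter fun m : ℕ => (q : ℤ) ∣ v - b * m) := by
  obtain ⟨x, y, hxy⟩ : IsCoprime (b : ℤ) q := Nat.isCoprime_iff_coprime.2 hbq
  have hq' : (0 : ℤ) < q := by exact_mod_cast hq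
  obtain ⟨m0, hm0⟩ := Int.eq_ofNat_of_zero_le (Int.emod_nonneg (x * v) hq'.ne')
  have h1 : m0 < q := by
    have := Int.emod_lt_of_pos (x * v) hq'
    omega
  have h2 := Int.emod_add_mul_ediv (x * v) q
  rw [hm0] at h2
  calc r / q = #(range (r / q)) := (card_range _).symm
    _ ≤ _ := card_le_card_of_injOn (fun s => m0 + q * s) (fun s hs => ?_) fun s _ s' _ h => ?_
  · have h3 : s + 1 ≤ r / q := mem_range.1 hs
    have h4 := Nat.mul_div_le r q
    have h5 := Nat.mul_le_mul_left q h3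
    simp only [coe_filter, mem_range, Set.mem_ofPred_eq]
    refine ⟨by nlinarith, y * v + b * (x * v / q) - b * s, ?_⟩
    push_cast
    linear_combination (-v) * hxy - b * h2
  · exact Nat.eq_of_mul_eq_mul_left hq (Nat.add_left_cancel h)

theorem fact_dvd {b r N : ℕ} (hb : 0 < b) (hr : r ≤ N) (v : ℤ) {t : Finset ℕ} (ht : t ⊆ range r) :
    (r.factorial : ℤ) ∣ beta b r * (Nat.lcmUpto N : ℤ) ^ (r - #t) * ∏ m ∈ t, (v - b * m) := by
  rcases Nat.eq_zero_or_pos r with rfl | hr0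
  · simp
  rw [Int.natCast_dvd, Nat.dvd_iff_prime_pow_dvd_dvd]
  intro p k hp hk
  rw [← Int.natCast_dvd]
  have hk' := (hp.pow_dvd_iff_le_factorization r.factorial_ne_zero).1 hk
  push_cast
  refine (pow_dvd_pow _ hk').trans ?_
  by_cases hpb : p ∣ b
  · refine Dvd.dvd.mul_right (Dvd.dvd.mul_right ?_ _) _
    exact_mod_cast dvd_prod_of_mem (fun p => p ^ r.factorial.factorization p)
      (Nat.mem_primeFactors.2 ⟨hp, hpb, hb.ne'⟩)
  · let g : ℕ → ℕ := fun m => #{i ∈ Ico 1 (p.log r + 1) | ((p ^ i : ℕ) : ℤ) ∣ v - b * m}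
    have g1 : ∀ m, (p : ℤ) ^ g m ∣ v - b * m := fun m => by
      rcases Nat.eq_zero_or_pos (g m) with h | h
      · simp [h]
      · have hne := card_pos.1 h
        have h1 := mem_filter.1 (max'_mem _ hne)
        refine (pow_dvd_pow _ ?_).trans (by exact_mod_cast h1.2)
        calc g m ≤ #(Icc 1 (max' _ hne)) := card_le_card fun i hi =>
              mem_Icc.2 ⟨(mem_Ico.1 (mem_filter.1 hi).1).1, le_max' _ _ hi⟩
          _ = _ := by simp
    have g2 : ∀ m, (p : ℤ) ^ g m ∣ (Nat.lcmUpto N : ℤ) := fun m => by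
      have h1 : g m ≤ p.log r := (card_filter_le _ _).trans (by simp)
      refine (pow_dvd_pow _ h1).trans ?_
      have h2 : p ^ p.log r ∈ Icc 1 N :=
        mem_Icc.2 ⟨Nat.one_le_pow _ _ hp.pos, (Nat.pow_log_le_self p hr0.ne').trans hr⟩
      exact_mod_cast dvd_lcm (f := id) h2
    have g3 : r.factorial.factorization p ≤ ∑ m ∈ range r, g m := by
      rw [Nat.factorization_factorial hp (Nat.lt_succ_self _)]
      simp only [g, card_filter]
      rw [sum_comm]
      refine sum_le_sum fun i _ => ?_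
      rw [← card_filter]
      exact count_ge (pow_pos hp.pos i)
        (Nat.Coprime.pow_right i ((Nat.Prime.coprime_iff_not_dvd hp).2 hpb).symm) v r
    refine (pow_dvd_pow _ g3).trans ?_
    rw [← sum_sdiff ht, pow_add, mul_assoc, ← prod_pow_eq_pow_sum, ← prod_pow_eq_pow_sum]
    refine Dvd.dvd.mul_left (mul_dvd_mul ?_ (prod_dvd_prod_of_dvd _ _ fun m _ => g1 m)) _
    have e : r - #t = #(range r \ t) := by rw [card_sdiff_of_subset ht, card_range]
    rw [e, ← prod_const]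
    exact prod_dvd_prod_of_dvd _ _ fun m _ => g2 m

/-- real numbers that are integers -/
abbrev ZZ : Subring ℝ := (Int.castRingHom ℝ).range

theorem int_mem (z : ℤ) : (z : ℝ) ∈ ZZ := ⟨z, rfl⟩

theorem mem_congr {x y : ℝ} (h : x ∈ ZZ) (e : y = x) : y ∈ ZZ := e ▸ h

/-- integrality after rescaling around `y` -/
def Good (L y : ℝ) (f : ℝ[X]) : Prop := f.comp (C L * X + C y) ∈ lifts (Int.castRingHom ℝ)

theorem Good.mul {L y : ℝ} {f g : ℝ[X]} (hf : Good L y f) (hg : Good L y g) : Good L y (f * g) := by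
  rw [Good, mul_comp]
  exact mul_mem hf hg

theorem Good.prod {σ : Type*} {L y : ℝ} {s : Finset σ} {f : σ → ℝ[X]}
    (hf : ∀ i ∈ s, Good L y (f i)) : Good L y (∏ i ∈ s, f i) := by
  rw [Good, Polynomial.prod_comp]
  exact prod_mem hf

theorem Good.pow {L y : ℝ} {f : ℝ[X]} (hf : Good L y f) (k : ℕ) : Good L y (f ^ k) := by
  rw [Good, pow_comp]
  exact pow_mem hf k

theorem Good.nat (L y : ℝ) (k : ℕ) : Good L y (C (k : ℝ)) := by
  rw [Good, C_comp]
  exact C'_mem_lifts ⟨k, by simp⟩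

theorem Good.coeff {L y : ℝ} {f : ℝ[X]} (hf : Good L y f) (k : ℕ) : L ^ k * tc f y k ∈ ZZ := by
  have e : f.comp (C L * X + C y) = (taylor y f).comp (C L * X) := by
    rw [taylor_apply, comp_assoc]
    simp
  have := (lifts_iff_coeff_lifts _).1 hf k
  rwa [e, comp_C_mul_X_coeff, mul_comm] at this

theorem good_block {b r N : ℕ} (hb : 0 < b) (hr : r ≤ N) (u y : ℤ) {T : Finset ℕ}
    (hT : T ⊆ range r) : Good (Nat.lcmUpto N) y
      (C ((b : ℝ) ^ #T * beta b r * (Nat.lcmUpto N : ℝ) ^ (r - #T) / r.factorial) *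
        ∏ m ∈ T, (X - C ((u : ℝ) / b + m))) := by
  have hb' : (b : ℝ) ≠ 0 := by positivity
  have e : (C ((b : ℝ) ^ #T * beta b r * (Nat.lcmUpto N : ℝ) ^ (r - #T) / r.factorial) *
        ∏ m ∈ T, (X - C ((u : ℝ) / b + m))).comp (C (Nat.lcmUpto N : ℝ) * X + C (y : ℝ)) =
      C (beta b r * (Nat.lcmUpto N : ℝ) ^ (r - #T) / r.factorial) *
        ∏ m ∈ T, (C (((b * y - u) - b * m : ℤ) : ℝ) + C ((b : ℝ) * Nat.lcmUpto N) * X) := by
    rw [mul_comp, C_comp, Polynomial.prod_comp, mul_assoc ((b : ℝ) ^ #T), mul_div_assoc, mul_comm (_ ^ #T),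
      C_mul, mul_assoc, C_pow, ← prod_const, ← prod_mul_distrib]
    congr 1
    refine prod_congr rfl fun m _ => ?_
    have : (((b * y - u) - b * m : ℤ) : ℝ) = b * (y - (u / b + m)) := by
      push_cast
      field_simp
      ring
    rw [this]
    simp only [sub_comp, X_comp, C_comp, map_mul, map_sub]
    ring
  rw [Good, e, prod_add, mul_sum]
  refine sum_mem fun t ht => ?_
  have ht' := mem_powerset.1 ht
  obtain ⟨z, hz⟩ := fact_dvd hb hr (b * y - u) (ht'.trans hT)
  have c1 := card_le_card ht'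
  have c2 := card_le_card hT
  rw [card_range] at c2
  rw [prod_const, card_sdiff_of_subset ht', ← map_prod, mul_pow, ← C_pow, ← mul_assoc, ← mul_assoc,
    ← C_mul, ← C_mul]
  refine mul_mem (C'_mem_lifts ⟨z * b ^ (#T - #t), ?_⟩) (pow_mem (X_mem_lifts _) _)
  have hz' := congrArg (Int.cast : ℤ → ℝ) hz
  rw [show r - #t = (r - #T) + (#T - #t) by omega] at hz'
  push_cast at hz' ⊢
  simp only [eq_intCast]
  push_cast
  rw [mul_pow]
  field_simp
  rw [pow_add] at hz'
  linear_combination -hz'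

/-- binomial polynomials -/
noncomputable def blk (r : ℕ) : ℝ[X] := C (1 / (r.factorial : ℝ)) * ∏ m ∈ range r, (X - C (m : ℝ))

/-- the basis of polynomials adapted to the block length `N` -/
noncomputable def qb (N e : ℕ) : ℝ[X] := blk N ^ (e / N) * blk (e % N)

theorem blk_natDegree (r : ℕ) : blk r ≠ 0 ∧ (blk r).natDegree = r := by
  have h1 : (∏ m ∈ range r, (X - C (m : ℝ))).Monic := monic_prod_of_monic _ _ fun _ _ =>
    monic_X_sub_C _
  have h2 : (1 / (r.factorial : ℝ)) ≠ 0 := by positivity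
  refine ⟨mul_ne_zero (C_ne_zero.2 h2) h1.ne_zero, ?_⟩
  rw [blk, natDegree_C_mul h2, natDegree_prod_of_monic _ _ fun _ _ => monic_X_sub_C _]
  simp only [natDegree_X_sub_C, sum_const, card_range, smul_eq_mul, mul_one]

theorem qb_degree (N e : ℕ) : (qb N e).degree = e := by
  have h1 := pow_ne_zero (e / N) (blk_natDegree N).1
  rw [qb, degree_eq_natDegree (mul_ne_zero h1 (blk_natDegree _).1), natDegree_mul h1
    (blk_natDegree _).1, natDegree_pow, (blk_natDegree _).2, (blk_natDegree _).2, Nat.div_add_mod']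

theorem good_blk {r N : ℕ} (hr : r ≤ N) (y : ℤ) : Good (Nat.lcmUpto N) y (blk r) := by
  simpa [beta, blk] using good_block one_pos hr 0 y (subset_refl (range r))

theorem good_qb {N : ℕ} (hN : 0 < N) (e : ℕ) (y : ℤ) : Good (Nat.lcmUpto N) y (qb N e) :=
  ((good_blk le_rfl y).pow _).mul (good_blk (Nat.mod_lt e hN).le y)

variable {ι : Type*} [Fintype ι]

/-- the normalising factor of the block of zeros at `θ + m` -/
noncomputable def gam (N : ℕ) (θ : ℚ) : ℝ := (θ.den : ℝ) ^ N * beta θ.den N / N.factorial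

/-- the polynomial multiplying the auxiliary function -/
noncomputable def WW (N : ℕ) (θ : ι → ℚ) (e : ℕ) : ℝ[X] :=
  C (∏ k, gam N (θ k)) * (∏ k, ∏ m ∈ range N, (X - C ((θ k : ℝ) + m))) * qb N e

theorem good_gam (N : ℕ) (θ : ℚ) (y : ℤ) :
    Good (Nat.lcmUpto N) y (C (gam N θ) * ∏ m ∈ range N, (X - C ((θ : ℝ) + m))) := by
  simpa [gam, Rat.cast_def] using good_block θ.pos le_rfl θ.num y (subset_refl (range N))

theorem WW_eq (N : ℕ) (θ : ι → ℚ) (e : ℕ) : WW N θ e =
    (∏ k, (C (gam N (θ k)) * ∏ m ∈ range N, (X - C ((θ k : ℝ) + m)))) * qb N e := by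
  rw [WW, prod_mul_distrib, map_prod]

theorem good_WW {N : ℕ} (hN : 0 < N) (θ : ι → ℚ) (e : ℕ) (y : ℤ) :
    Good (Nat.lcmUpto N) y (WW N θ e) := by
  rw [WW_eq]
  exact (Good.prod fun k _ => good_gam N _ y).mul (good_qb hN e y)

theorem good_Vq {N : ℕ} (θ : ι → ℚ) (e : ℕ) (y : ℤ) (k : ι) {m : ℕ} (hm : m < N) :
    Good (Nat.lcmUpto N) y (C (Nat.lcmUpto N : ℝ) * Vq (WW N θ e) (θ k + m)) := by
  classical
  have hc : #((range N).erase m) = N - 1 := by rw [card_erase_of_mem (mem_range.2 hm), card_range]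
  have h1 := good_block (θ k).pos le_rfl (θ k).num y (erase_subset m (range N))
  rw [hc, ← Rat.cast_def, show N - (N - 1) = 1 by omega, pow_one] at h1
  have h2 := ((Good.nat _ _ (θ k).den).mul h1).mul
    ((Good.prod (s := univ.erase k) fun k _ => good_gam N (θ k) y).mul (good_qb (by omega) e y))
  have e1 : WW N θ e = (X - C ((θ k : ℝ) + m)) *
      (C (gam N (θ k)) * (∏ m ∈ (range N).erase m, (X - C ((θ k : ℝ) + m))) *
      ((∏ k ∈ univ.erase k, (C (gam N (θ k)) * ∏ m ∈ range N, (X - C ((θ k : ℝ) + m)))) *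
        qb N e)) := by
    rw [WW_eq, ← mul_prod_erase _ _ (mem_univ k), ← mul_prod_erase _ _ (mem_range.2 hm)]
    ring
  rw [Vq, e1, mul_divByMonic_cancel_left _ (monic_X_sub_C _), ← mul_assoc (C _), ← mul_assoc (C _),
    ← C_mul]
  rw [← mul_assoc (C _), ← C_mul] at h2
  have e2 : (Nat.lcmUpto N : ℝ) * gam N (θ k) = (θ k).den *
      (((θ k).den : ℝ) ^ (N - 1) * beta (θ k).den N * Nat.lcmUpto N / N.factorial) := by
    obtain ⟨N, rfl⟩ := Nat.exists_eq_succ_of_ne_zero (show N ≠ 0 by omega)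
    rw [gam, Nat.succ_sub_one, pow_succ]
    ring
  rwa [e2]

theorem tc_C_mul (r : ℝ) (f : ℝ[X]) (y : ℝ) (k : ℕ) : tc (C r * f) y k = r * tc f y k := by
  rw [tc, taylor_mul, taylor_C, coeff_C_mul, tc]

theorem form_int {a h n : ℕ} (c : ℕ → ℕ → ℤ) (θ : ι → ℚ) (w : ι → ℤ) {η : ℕ → ℝ} {E : ℕ}
    (hE : ∀ l, 2 ≤ l → l ≤ a + h → E * η l ∈ ZZ) {p : ℕ} (hp : p ≤ h) (e : ℕ) :
    E * (Nat.lcmUpto (n + 1) : ℝ) ^ (a + h) * form a n (fun i j => c i j) (fun k => θ k)
      (fun k => w k) η p (WW (n + 1) θ e) ∈ ZZ := by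
  have hL : ∀ k, (Nat.lcmUpto (n + 1) : ℝ) ^ k ∈ ZZ := fun k => pow_mem (natCast_mem _ _) k
  simp only [form, mul_sum, mul_sub]
  refine sum_mem fun i hi => sum_mem fun j hj => ?_
  have hi' := mem_range.1 hi
  have hj' := mem_range.1 hj
  have hc : cp i p * c i j ∈ ZZ :=
    mul_mem (mul_mem (pow_mem (neg_mem (one_mem _)) _) (natCast_mem _ _)) (int_mem _)
  refine sub_mem (sum_mem fun k hk => ?_) (sum_mem fun k _ => sum_mem fun m hm => ?_)
  · have hk' := mem_range.1 hk
    have h1 := (good_WW n.succ_pos θ e (j + 1 : ℕ)).coeff k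
    push_cast at h1
    have := mul_mem (mul_mem (mul_mem hc h1) (hE (i + p + 1 - k) (by omega) (by omega)))
      (hL (a + h - k))
    rw [show a + h = k + (a + h - k) by omega, pow_add]
    exact mem_congr this (by ring)
  · have hm' := mem_range.1 hm
    have h1 := (good_Vq θ e (j + 1 : ℕ) k (show m < n + 1 by omega)).coeff (i + p)
    rw [tc_C_mul] at h1
    push_cast at h1
    have := mul_mem (mul_mem (mul_mem (mul_mem hc h1) (int_mem (2 * w k))) (natCast_mem _ E))
      (hL (a + h - (i + p + 1)))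
    rw [show a + h = (i + p + 1) + (a + h - (i + p + 1)) by omega, pow_add, pow_succ]
    push_cast at this
    exact mem_congr this (by ring)

theorem res_int {a n : ℕ} (c : ℕ → ℕ → ℤ) (e : ℕ) :
    (Nat.lcmUpto (n + 1) : ℝ) ^ a * res a n (fun i j => c i j) (qb (n + 1) e) ∈ ZZ := by
  simp only [res, mul_sum]
  refine sum_mem fun i hi => sum_mem fun j _ => ?_
  have hi' := mem_range.1 hi
  have h1 := (good_qb n.succ_pos e (j + 1 : ℕ)).coeff i
  push_cast at h1
  have := mul_mem (mul_mem h1 (int_mem (c i j)))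
    (pow_mem (natCast_mem ZZ (Nat.lcmUpto (n + 1))) (a - i))
  rw [show a = i + (a - i) by omega, pow_add]
  exact mem_congr this (by ring)

theorem beta_pow_le {b : ℕ} (hb : 0 < b) (P N : ℕ) : beta b N ^ P ≤ (2 ^ (P * P) * b) ^ N := by
  have hv : ∀ p, p.Prime → (p - 1) * N.factorial.factorization p ≤ N := fun p hp => by
    have := Fact.mk hp
    rw [Nat.factorization_def _ hp, sub_one_mul_padicValNat_factorial]
    exact Nat.sub_le _ _
  rw [beta, ← prod_filter_mul_prod_filter_not _ (· ≤ P), mul_pow, mul_pow]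
  refine Nat.mul_le_mul ?_ ?_
  · rw [← pow_mul, show P * P * N = N * P * P by ring, pow_mul, pow_mul]
    refine Nat.pow_le_pow_left ?_ _
    calc _ ≤ ∏ p ∈ b.primeFactors with p ≤ P, 2 ^ N := prod_le_prod' fun p hp => ?_
      _ = (2 ^ N) ^ #{p ∈ b.primeFactors | p ≤ P} := prod_const _
      _ ≤ _ := Nat.pow_le_pow_right (by positivity) ?_
    · have hp' := Nat.prime_of_mem_primeFactors (mem_filter.1 hp).1
      have h1 : p ≤ 2 ^ (p - 1) := by
        have := Nat.lt_two_pow_self (n := p - 1)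
        omega
      refine (Nat.pow_le_pow_left h1 _).trans ?_
      rw [← pow_mul]
      exact Nat.pow_le_pow_right two_pos (hv p hp')
    · refine (card_le_card (t := Icc 1 P) fun p hp => ?_).trans (by simp)
      exact mem_Icc.2 ⟨(Nat.prime_of_mem_primeFactors (mem_filter.1 hp).1).pos, (mem_filter.1 hp).2⟩
  · rw [← prod_pow]
    calc _ ≤ ∏ p ∈ b.primeFactors with ¬ p ≤ P, p ^ N := prod_le_prod' fun p hp => ?_
      _ = (∏ p ∈ b.primeFactors with ¬ p ≤ P, p) ^ N := prod_pow _ _ _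
      _ ≤ _ := Nat.pow_le_pow_left ?_ _
    · have hp' := Nat.prime_of_mem_primeFactors (mem_filter.1 hp).1
      have h1 := (mem_filter.1 hp).2
      rw [← pow_mul]
      refine Nat.pow_le_pow_right hp'.pos (le_trans ?_ (hv p hp'))
      rw [mul_comm]
      exact Nat.mul_le_mul_right _ (by omega)
    · exact Nat.le_of_dvd hb ((prod_dvd_prod_of_subset _ _ _ (filter_subset _ _)).trans
        (Nat.prod_primeFactors_dvd b))

end Pool.Agent.MP_807c24_nt.H42
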