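import Pool.Agent.MP_807c24_nt.H42.Pair

namespace Pool.Agent.MP_807c24_nt.H42

open Finset Polynomial Filter Topology

noncomputable def sg (x : ℝ) (l : ℕ) : ℝ := Real.sign x / x ^ l

/-- two-sided Hurwitz sums -/
noncomputable def Hz (l : ℕ) (θ : ℝ) : ℝ := ∑' m : ℤ, sg (θ + m) l

/-- divided derivatives of the auxiliary function -/
noncomputable def Fp (a n : ℕ) (c : ℕ → ℕ → ℝ) (p : ℕ) (t : ℝ) : ℝ :=
  ∑ i ∈ range a, ∑ j ∈ range n, cp i p * c i j / (t - (j + 1)) ^ (i + p + 1)

theorem abs_sign_le (x : ℝ) : |Real.sign x| ≤ 1 := by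
  rcases Real.sign_apply_eq x with h | h | h <;> simp [h]

theorem sg_summable (θ : ℝ) {l : ℕ} (hl : 2 ≤ l) : Summable fun m : ℤ => sg (θ + m) l := by
  refine ((Real.summable_one_div_int_add_rpow θ l).2 (by exact_mod_cast hl)).of_norm_bounded
    fun m => ?_
  rw [sg, Real.norm_eq_abs, abs_div, abs_pow, Real.rpow_natCast, add_comm]
  exact div_le_div_of_nonneg_right (abs_sign_le _) (by positivity)

theorem hasSum_shift {f : ℤ → ℝ} {s : ℝ} (h : HasSum f s) (y : ℤ) :
    HasSum (fun m => f (m - y)) s :=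
  (Equiv.subRight y).hasSum_iff.2 h

theorem hasSum_Hz (θ : ℝ) {l : ℕ} (hl : 2 ≤ l) (y : ℕ) :
    HasSum (fun m : ℤ => sg (θ + m - y) l) (Hz l θ) := by
  have := hasSum_shift (sg_summable θ hl).hasSum y
  simpa only [Int.cast_sub, Int.cast_natCast, add_sub_assoc, Hz] using this

theorem hasSum_tele {x : ℝ} (hx : 0 < x) :
    HasSum (fun n : ℕ => 1 / (x + n) - 1 / (x + (n + 1 : ℕ))) (1 / x) := by
  rw [hasSum_iff_tendsto_nat_of_nonneg fun n => sub_nonneg.2
    (one_div_le_one_div_of_le (by positivity) (by push_cast; linarith))]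
  simp only [sum_range_sub' fun n : ℕ => 1 / (x + n)]
  have : Tendsto (fun n : ℕ => 1 / (x + n)) atTop (𝓝 0) :=
    tendsto_const_nhds.div_atTop (tendsto_atTop_add_const_left _ _ tendsto_natCast_atTop_atTop)
  simpa using this.const_sub (1 / x)

theorem hasSum_one {θ : ℝ} (h0 : 0 < θ) (h1 : θ < 1) (y : ℕ) :
    HasSum (fun m : ℤ => sg (θ + m - y) 1 - sg (θ + m) 1) 0 := by
  have pos : ∀ x : ℝ, 0 < x → sg x 1 = 1 / x := fun x hx => by simp [sg, Real.sign_of_pos hx]
  have neg : ∀ x : ℝ, 0 < x → sg (-x) 1 = 1 / x := fun x hx => by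
    rw [sg, Real.sign_of_neg (by linarith), pow_one, neg_div_neg_eq]
  have base : HasSum (fun m : ℤ => sg (θ + m - 1) 1 - sg (θ + m) 1) 0 := by
    have a1 : HasSum (fun n : ℕ => sg (θ + ((n : ℤ) + 1 : ℤ) - 1) 1 - sg (θ + ((n : ℤ) + 1 : ℤ)) 1)
        (1 / θ) := by
      refine (hasSum_tele h0).congr_fun ?_
      intro n
      rw [← pos _ (by positivity), ← pos _ (by positivity)]
      push_cast
      ring_nf
    have a2 : HasSum (fun n : ℕ => sg (θ + (-((n : ℤ) + 1) : ℤ) - 1) 1 -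
        sg (θ + (-((n : ℤ) + 1) : ℤ)) 1) (- (1 / (1 - θ))) := by
      have h2 : 0 < 1 - θ := by linarith
      refine (hasSum_tele h2).neg.congr_fun ?_
      intro n
      rw [← neg _ (by positivity), ← neg _ (by positivity)]
      push_cast
      ring_nf
    have a3 := HasSum.of_add_one_of_neg_add_one
      (f := fun m : ℤ => sg (θ + m - 1) 1 - sg (θ + m) 1) a1 a2
    have e : sg (θ - 1) 1 = 1 / (1 - θ) := by rw [← neg _ (by linarith), neg_sub]
    simpa [e, pos θ h0] using a3
  induction y with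
  | zero => simp
  | succ y ih =>
    have := (hasSum_shift base y).add ih
    rw [add_zero] at this
    refine this.congr_fun ?_
    intro m
    push_cast
    ring_nf

theorem form_one {a n ω : ℕ} {c : ℕ → ℕ → ℝ} (hc : ∀ q : ℝ[X], q.natDegree < ω → res a n c q = 0)
    {W : ℝ[X]} (hW : W.natDegree < ω) {θ : ℝ} (h0 : 0 < θ) (h1 : θ < 1)
    (hz : ∀ m ∈ range (n + 1), W.eval (θ + m) = 0) (p : ℕ) {K : ℝ}
    (hK : ∀ m : ℤ, (m < 0 ∨ n < m) → |Fp a n c p (θ + m) * W.eval (θ + m)| ≤ K / m ^ 2) :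
    |∑ i ∈ range a, ∑ j ∈ range n, cp i p * c i j *
      (∑ k ∈ range (i + p), tc W (j + 1) k * Hz (i + p + 1 - k) θ -
        2 * ∑ m ∈ range (j + 1), tc (Vq W (θ + m)) (j + 1) (i + p))| ≤
      K * ∑' m : ℤ, 1 / (m : ℝ) ^ 2 := by
  have hK0 : 0 ≤ K := by
    have := (abs_nonneg _).trans (hK (-1) (Or.inl (by norm_num)))
    simpa using this
  have hne : ∀ (m : ℤ) (j : ℕ), θ + m - (j + 1) ≠ 0 := fun m j h => by
    have a1 : ((j + 1 - m : ℤ) : ℝ) = θ := by push_cast; linarith
    rw [← a1] at h0 h1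
    have b1 : 0 < (j + 1 - m : ℤ) := by exact_mod_cast h0
    have b2 : (j + 1 - m : ℤ) < 1 := by exact_mod_cast h1
    omega
  let term : ℤ → ℝ := fun m => ∑ i ∈ range a, ∑ j ∈ range n, cp i p * c i j *
    ∑ k ∈ range (i + p + 1), tc W (j + 1) k * sg (θ + m - (j + 1)) (i + p + 1 - k)
  have hterm : HasSum term (∑ i ∈ range a, ∑ j ∈ range n, cp i p * c i j *
      ∑ k ∈ range (i + p), tc W (j + 1) k * Hz (i + p + 1 - k) θ) := by
    have := hasSum_sum (s := range a) fun i _ => hasSum_sum (s := range n) fun j _ =>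
      ((hasSum_sum (s := range (i + p)) fun k hk =>
        (hasSum_Hz θ (l := i + p + 1 - k) (by have := mem_range.1 hk; omega) (j + 1)).mul_left
          (tc W (j + 1) k)).add
        ((hasSum_one h0 h1 (j + 1)).mul_left (tc W (j + 1) (i + p)))).mul_left (cp i p * c i j)
    simp only [mul_zero, add_zero] at this
    refine this.congr_fun fun m => ?_
    have e := congrArg (· * sg (θ + m) 1) (res_cp hc hW p)
    simp only [sum_mul, zero_mul] at e
    simp only [term, sum_range_succ, Nat.add_sub_cancel_left, mul_add, mul_sub, sum_add_distrib,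
      sum_sub_distrib, ← mul_assoc, e]
    push_cast
    rw [sub_zero]
  have hrew : ∀ m : ℤ, term m = ∑ i ∈ range a, ∑ j ∈ range n, cp i p * c i j *
      (Real.sign (θ + m - (j + 1)) * (W.eval (θ + m) / (θ + m - (j + 1)) ^ (i + p + 1) -
        tc (Vq W (θ + m)) (j + 1) (i + p))) := fun m => by
    refine sum_congr rfl fun i _ => sum_congr rfl fun j _ => ?_
    rw [div_pow_eq W (hne m j), add_sub_cancel_left, mul_sum (a := Real.sign _)]
    congr 1
    refine sum_congr rfl fun k _ => ?_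
    rw [sg]
    ring
  have hV := fun t => res_cp hc ((Vq_natDegree W t).trans_lt hW) p
  let ins : ℕ → ℝ := fun m => ∑ i ∈ range a, ∑ j ∈ range n, cp i p * c i j *
    (2 * if m < j + 1 then tc (Vq W (θ + m)) (j + 1) (i + p) else 0)
  let ins' : ℤ → ℝ := fun m => if 0 ≤ m ∧ m ≤ n then ins m.toNat else 0
  have hins : HasSum ins' (∑ i ∈ range a, ∑ j ∈ range n, cp i p * c i j *
      (2 * ∑ m ∈ range (j + 1), tc (Vq W (θ + m)) (j + 1) (i + p))) := by
    have e1 : HasSum ins' (∑ m ∈ (range (n + 1)).map Nat.castEmbedding, ins' m) :=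
      hasSum_sum_of_ne_finset_zero fun m hm => if_neg fun h => hm (mem_map.2
        ⟨m.toNat, mem_range.2 (by omega), by simp [h.1]⟩)
    rw [sum_map, sum_congr rfl (g := ins) fun m hm => by
      have := mem_range.1 hm
      simp only [ins', Nat.castEmbedding_apply, Int.toNat_natCast]
      exact if_pos (by omega)] at e1
    simp only [ins] at e1
    rw [sum_comm] at e1
    refine Eq.subst (motive := HasSum ins') (sum_congr rfl fun i _ => ?_) e1
    rw [sum_comm]
    refine sum_congr rfl fun j hj => ?_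
    have := mem_range.1 hj
    rw [← mul_sum, ← mul_sum, ← sum_filter]
    congr 3
    ext m
    simp only [mem_filter, mem_range]
    omega
  have hs := hterm.sub hins
  simp only [← sum_sub_distrib, ← mul_sub] at hs
  rw [← tsum_mul_left, ← hs.tsum_eq, ← Real.norm_eq_abs]
  refine tsum_of_norm_bounded
    ((Real.summable_one_div_int_pow.2 one_lt_two).mul_left K).hasSum fun m => ?_
  rw [Real.norm_eq_abs, hrew]
  by_cases hm : 0 ≤ m ∧ m ≤ n
  · obtain ⟨m, rfl⟩ := Int.eq_ofNat_of_zero_le hm.1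
    have e1 : ins' m = ins m := by simp only [ins', if_pos hm, Int.toNat_natCast]
    have e2 := hz m (mem_range.2 (by omega))
    have e3 := hV (θ + m)
    push_cast
    simp only [e1, e2, zero_div, zero_sub]
    rw [← sub_zero (ins m), ← e3]
    simp only [ins, ← sum_sub_distrib]
    rw [sum_eq_zero fun i _ => sum_eq_zero fun j _ => ?_, abs_zero]
    · positivity
    · split_ifs with h
      · have : (m : ℝ) + 1 ≤ j + 1 := by exact_mod_cast h
        rw [Real.sign_of_neg (by linarith)]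
        ring
      · have : (j : ℝ) + 1 ≤ m := by exact_mod_cast not_lt.1 h
        rw [Real.sign_of_pos (by linarith)]
        ring
  · have e1 : ins' m = 0 := if_neg hm
    have hm' : m < 0 ∨ n < m := by omega
    obtain ⟨s, hs1, hs2⟩ : ∃ s : ℝ, |s| = 1 ∧ ∀ j ∈ range n, Real.sign (θ + m - (j + 1)) = s := by
      rcases hm' with h | h
      · refine ⟨-1, by simp, fun j _ => Real.sign_of_neg ?_⟩
        have : (m : ℝ) < 0 := by exact_mod_cast h
        have : (0 : ℝ) ≤ j := Nat.cast_nonneg j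
        linarith
      · refine ⟨1, by simp, fun j hj => Real.sign_of_pos ?_⟩
        have := mem_range.1 hj
        have : (j : ℝ) + 1 ≤ m := by exact_mod_cast (by omega)
        linarith
    have e2 : ∑ i ∈ range a, ∑ j ∈ range n, cp i p * c i j *
        (Real.sign (θ + m - (j + 1)) * (W.eval (θ + m) / (θ + m - (j + 1)) ^ (i + p + 1) -
          tc (Vq W (θ + m)) (j + 1) (i + p))) = s * (Fp a n c p (θ + m) * W.eval (θ + m)) := by
      rw [← sub_zero (Fp _ _ _ _ _ * _), ← hV (θ + m), Fp]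
      simp only [sum_mul, ← sum_sub_distrib, mul_sum]
      refine sum_congr rfl fun i _ => sum_congr rfl fun j hj => ?_
      rw [hs2 j hj]
      ring
    rw [e1, sub_zero, e2, abs_mul, hs1, one_mul, mul_one_div]
    exact hK m hm'

theorem form_le {ι : Type*} [Fintype ι] {a n ω : ℕ} {c : ℕ → ℕ → ℝ}
    (hc : ∀ q : ℝ[X], q.natDegree < ω → res a n c q = 0) {W : ℝ[X]} (hW : W.natDegree < ω)
    {θ : ι → ℝ} (w : ι → ℝ) (hθ : ∀ k, 0 < θ k ∧ θ k < 1)
    (hz : ∀ k, ∀ m ∈ range (n + 1), W.eval (θ k + m) = 0) (p : ℕ) {K : ℝ}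
    (hK : ∀ k, ∀ m : ℤ, (m < 0 ∨ n < m) → |Fp a n c p (θ k + m) * W.eval (θ k + m)| ≤ K / m ^ 2) :
    |form a n c θ w (fun l => ∑ k, w k * Hz l (θ k)) p W| ≤
      (∑ k, |w k|) * (K * ∑' m : ℤ, 1 / (m : ℝ) ^ 2) := by
  have e : form a n c θ w (fun l => ∑ k, w k * Hz l (θ k)) p W =
      ∑ k, w k * ∑ i ∈ range a, ∑ j ∈ range n, cp i p * c i j *
        (∑ l ∈ range (i + p), tc W (j + 1) l * Hz (i + p + 1 - l) (θ k) -
          2 * ∑ m ∈ range (j + 1), tc (Vq W (θ k + m)) (j + 1) (i + p)) := by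
    simp only [form, mul_sum (s := range a), mul_sum (s := range n)]
    rw [sum_comm (s := univ)]
    refine sum_congr rfl fun i _ => ?_
    rw [sum_comm (s := univ)]
    refine sum_congr rfl fun j _ => ?_
    simp only [mul_sum (s := univ)]
    rw [sum_comm (t := univ), ← sum_sub_distrib, mul_sum]
    refine sum_congr rfl fun k _ => ?_
    simp only [mul_sub, mul_sum]
    congr 1 <;> refine sum_congr rfl fun l _ => ?_ <;> ring
  rw [e, sum_mul]
  refine (abs_sum_le_sum_abs _ _).trans (sum_le_sum fun k _ => ?_)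
  rw [abs_mul]
  exact mul_le_mul_of_nonneg_left (form_one hc hW (hθ k).1 (hθ k).2 (hz k) p (hK k)) (abs_nonneg _)

end Pool.Agent.MP_807c24_nt.H42
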