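import Pool.Agent.MP_807c24_nt.H42.Arith
import Pool.Agent.MP_807c24_nt.H42.Ident

namespace Pool.Agent.MP_807c24_nt.H42

open Finset Polynomial

theorem box {D κ : Type*} [Fintype D] [Fintype κ] (H : ℕ) (A : κ → D → ℝ) (R ε : κ → ℝ)
    (hε : ∀ k, 0 < ε k) (hR : ∀ k, H * ∑ d, |A k d| ≤ R k)
    (hcount : ∏ k, (2 * R k / ε k + 1) < ((H : ℝ) + 1) ^ Fintype.card D) :
    ∃ c : D → ℤ, c ≠ 0 ∧ (∀ d, |c d| ≤ H) ∧ ∀ k, |∑ d, c d * A k d| < ε k := by
  classical
  have hR0 : ∀ k, 0 ≤ R k := fun k => le_trans (by positivity) (hR k)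
  let s : Finset (D → ℤ) := Fintype.piFinset fun _ => Icc 0 (H : ℤ)
  let t : Finset (κ → ℕ) := Fintype.piFinset fun k => range (⌊2 * R k / ε k⌋₊ + 1)
  have hb : ∀ c ∈ s, ∀ k, |∑ d, c d * A k d| ≤ R k := fun c hc k => by
    refine (abs_sum_le_sum_abs _ _).trans (le_trans ?_ (hR k))
    rw [mul_sum]
    refine sum_le_sum fun d _ => ?_
    have := mem_Icc.1 (Fintype.mem_piFinset.1 hc d)
    rw [abs_mul, abs_of_nonneg (by exact_mod_cast this.1)]
    exact mul_le_mul_of_nonneg_right (by exact_mod_cast this.2) (abs_nonneg _)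
  have hlt : #t < #s := by
    have : ((#t : ℕ) : ℝ) < (#s : ℕ) := by
      simp only [s, t, Fintype.card_piFinset, card_range, Int.card_Icc, prod_const, card_univ]
      push_cast
      refine lt_of_le_of_lt (prod_le_prod (fun _ _ => by positivity) fun k _ => ?_)
        (hcount.trans_eq (by simp))
      have := hε k
      have := hR0 k
      exact add_le_add_left (Nat.floor_le (by positivity)) _
    exact_mod_cast this
  obtain ⟨x, hx, y, hy, hxy, e⟩ := exists_ne_map_eq_of_card_lt_of_maps_to hlt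
    (f := fun c k => ⌊(∑ d, c d * A k d + R k) / ε k⌋₊) fun c hc => by
      refine Fintype.mem_piFinset.2 fun k => mem_range.2 (Nat.lt_succ_of_le (Nat.floor_mono ?_))
      exact div_le_div_of_nonneg_right (by linarith [(abs_le.1 (hb c hc k)).2]) (hε k).le
  refine ⟨x - y, sub_ne_zero.2 hxy, fun d => ?_, fun k => ?_⟩
  · have a1 := mem_Icc.1 (Fintype.mem_piFinset.1 hx d)
    have a2 := mem_Icc.1 (Fintype.mem_piFinset.1 hy d)
    rw [Pi.sub_apply, abs_le]
    constructor <;> linarith [a1.1, a1.2, a2.1, a2.2]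
  · have e1 := congrFun e k
    have a1 := (abs_le.1 (hb x hx k)).1
    have a2 := (abs_le.1 (hb y hy k)).1
    have e2 : ∑ d, ((x - y) d : ℝ) * A k d = ∑ d, x d * A k d - ∑ d, y d * A k d := by
      rw [← sum_sub_distrib]
      refine sum_congr rfl fun d _ => ?_
      rw [Pi.sub_apply]
      push_cast
      ring
    rw [e2]
    generalize ∑ d, (x d : ℝ) * A k d = u at *
    generalize ∑ d, (y d : ℝ) * A k d = v at *
    have h0 := hε k
    have b1 := Nat.floor_le (show 0 ≤ (u + R k) / ε k from div_nonneg (by linarith) h0.le)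
    have b2 := Nat.floor_le (show 0 ≤ (v + R k) / ε k from div_nonneg (by linarith) h0.le)
    have b3 := Nat.lt_floor_add_one ((u + R k) / ε k)
    have b4 := Nat.lt_floor_add_one ((v + R k) / ε k)
    rw [e1] at b1 b3
    rw [le_div_iff₀ h0] at b1 b2
    rw [div_lt_iff₀ h0] at b3 b4
    rw [abs_lt]
    constructor <;> linarith

theorem box2 {κ : Type*} [Fintype κ] (a n H : ℕ) (A : κ → ℕ → ℕ → ℝ) (b ε : κ → ℝ)
    (hε : ∀ k, 0 < ε k) (hA : ∀ k, ∀ i < a, ∀ j < n, |A k i j| ≤ b k)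
    (hcount : ∏ k, (2 * (a * n * H * b k) / ε k + 1) < ((H : ℝ) + 1) ^ (a * n)) :
    ∃ c : ℕ → ℕ → ℤ, (∃ i < a, ∃ j < n, c i j ≠ 0) ∧ (∀ i j, |c i j| ≤ H) ∧
      ∀ k, |∑ i ∈ range a, ∑ j ∈ range n, c i j * A k i j| < ε k := by
  obtain ⟨c, h0, h1, h2⟩ := box (D := Fin a × Fin n) H (fun k d => A k d.1 d.2)
    (fun k => a * n * H * b k) ε hε (fun k => by
      have := sum_le_card_nsmul univ (fun d : Fin a × Fin n => |A k d.1 d.2|) (b k)
        fun d _ => hA k _ d.1.2 _ d.2.2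
      simp only [card_univ, Fintype.card_prod, Fintype.card_fin, nsmul_eq_mul] at this
      push_cast at this
      nlinarith [mul_le_mul_of_nonneg_left this (Nat.cast_nonneg (α := ℝ) H)])
    (by simpa using hcount)
  refine ⟨fun i j => if h : i < a ∧ j < n then c (⟨i, h.1⟩, ⟨j, h.2⟩) else 0, ?_, fun i j => ?_,
    fun k => ?_⟩
  · obtain ⟨⟨i, j⟩, hd⟩ := Function.ne_iff.1 h0
    exact ⟨i, i.2, j, j.2, by simpa using hd⟩
  · simp only
    split_ifs
    · exact h1 _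
    · simp
  · have := h2 k
    rw [Fintype.sum_prod_type] at this
    rw [← Fin.sum_univ_eq_sum_range (fun i => ∑ j ∈ range n,
      ((if h : i < a ∧ j < n then c (⟨i, h.1⟩, ⟨j, h.2⟩) else 0 : ℤ) : ℝ) * A k i j)]
    refine lt_of_eq_of_lt (congrArg abs (sum_congr rfl fun i _ => ?_)) this
    rw [← Fin.sum_univ_eq_sum_range (fun j =>
      ((if h : (i : ℕ) < a ∧ j < n then c (⟨i, h.1⟩, ⟨j, h.2⟩) else 0 : ℤ) : ℝ) * A k i j)]
    exact sum_congr rfl fun j _ => by simp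

/-- a bound for the Taylor coefficients at `y` that is compatible with products -/
def Bnd (y : ℝ) (f : ℝ[X]) (M : ℝ) : Prop :=
  ∃ g : ℝ[X], (∀ k, |(taylor y f).coeff k| ≤ g.coeff k) ∧ g.eval 1 ≤ M

theorem coeff_le_eval_one {g : ℝ[X]} (hg : ∀ k, 0 ≤ g.coeff k) (k : ℕ) : g.coeff k ≤ g.eval 1 := by
  rw [eval_eq_sum_range' (n := g.natDegree + k + 1) (by omega)]
  simp only [one_pow, mul_one]
  exact single_le_sum (fun i _ => hg i) (mem_range.2 (by omega))

theorem Bnd.tc_le {y M : ℝ} {f : ℝ[X]} (h : Bnd y f M) (k : ℕ) : |tc f y k| ≤ M := by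
  obtain ⟨g, h1, h2⟩ := h
  exact (h1 k).trans ((coeff_le_eval_one (fun i => (abs_nonneg _).trans (h1 i)) k).trans h2)

theorem Bnd.mul {y M M' : ℝ} {f f' : ℝ[X]} (h : Bnd y f M) (h' : Bnd y f' M') :
    Bnd y (f * f') (M * M') := by
  have a0 : 0 ≤ M := (abs_nonneg _).trans (h.tc_le 0)
  obtain ⟨g, h1, h2⟩ := h
  obtain ⟨g', h1', h2'⟩ := h'
  refine ⟨g * g', fun k => ?_, ?_⟩
  · rw [taylor_mul, coeff_mul, coeff_mul]
    refine (abs_sum_le_sum_abs _ _).trans (sum_le_sum fun x _ => ?_)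
    rw [abs_mul]
    exact mul_le_mul (h1 _) (h1' _) (abs_nonneg _) ((abs_nonneg _).trans (h1 _))
  · rw [eval_mul]
    exact mul_le_mul h2 h2' (((abs_nonneg _).trans (h1' 0)).trans
      (coeff_le_eval_one (fun i => (abs_nonneg _).trans (h1' i)) 0)) a0

theorem Bnd.C (y r : ℝ) : Bnd y (C r) |r| :=
  ⟨Polynomial.C |r|, fun k => by
    rw [taylor_C, coeff_C, coeff_C]
    split_ifs <;> simp, by simp⟩

theorem Bnd.mono {y M M' : ℝ} {f : ℝ[X]} (h : Bnd y f M) (hM : M ≤ M') : Bnd y f M' :=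
  h.imp fun _ h => ⟨h.1, h.2.trans hM⟩

theorem Bnd.lin (y x : ℝ) : Bnd y (X - Polynomial.C x) (1 + |y - x|) := by
  refine ⟨X + Polynomial.C |y - x|, fun k => ?_, by simp⟩
  rw [map_sub, taylor_X, taylor_C, add_sub_assoc, ← C_sub]
  rcases k with _ | _ | k <;> simp [coeff_X]

theorem Bnd.prod {σ : Type*} {y M : ℝ} {s : Finset σ} {f : σ → ℝ[X]} (h : ∀ i ∈ s, Bnd y (f i) M) :
    Bnd y (∏ i ∈ s, f i) (M ^ #s) := by
  classical
  induction s using Finset.induction_on with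
  | empty => simpa using Bnd.C y 1
  | insert i s hi ih =>
    rw [prod_insert hi, card_insert_of_notMem hi, pow_succ']
    exact (h i (mem_insert_self _ _)).mul (ih fun j hj => h j (mem_insert_of_mem hj))

theorem Bnd.pow {y M : ℝ} {f : ℝ[X]} (h : Bnd y f M) (k : ℕ) : Bnd y (f ^ k) (M ^ k) := by
  simpa using Bnd.prod (s := range k) (f := fun _ => f) fun _ _ => h

theorem bnd_blk {n r j : ℕ} (hr : r ≤ n + 1) (hj : j < n) :
    Bnd (j + 1) (blk r) (Real.exp (n + 1 : ℕ)) := by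
  have h1 := (Bnd.C (j + 1) (1 / (r.factorial : ℝ))).mul (Bnd.prod (s := range r)
    (M := ((n + 1 : ℕ) : ℝ)) fun m hm => (Bnd.lin (j + 1) (m : ℝ)).mono (by
      have a1 : (m : ℝ) ≤ n := by
        have := mem_range.1 hm
        exact_mod_cast (by omega)
      have a2 : (j : ℝ) + 1 ≤ n := by exact_mod_cast hj
      have a3 : (0 : ℝ) ≤ m := Nat.cast_nonneg _
      have a4 : (0 : ℝ) ≤ j := Nat.cast_nonneg _
      have : |(j : ℝ) + 1 - m| ≤ n := abs_le.2 ⟨by linarith, by linarith⟩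
      push_cast
      linarith))
  refine h1.mono ?_
  rw [abs_of_pos (by positivity), card_range, one_div_mul_eq_div]
  exact Real.pow_div_factorial_le_exp _ (by positivity) _

theorem tc_qb_le {n e j G : ℕ} (hj : j < n) (he : e < G * (n + 1)) (i : ℕ) :
    |tc (qb (n + 1) e) (j + 1) i| ≤ Real.exp (n + 1 : ℕ) ^ G := by
  refine (((bnd_blk le_rfl hj).pow _).mul (bnd_blk (Nat.mod_lt e n.succ_pos).le hj)).tc_le i
    |>.trans ?_
  rw [← pow_succ]
  exact pow_le_pow_right₀ (Real.one_le_exp (by positivity))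
    ((Nat.div_lt_iff_lt_mul n.succ_pos).2 he)

theorem tc_X_pow_le {n j : ℕ} (hj : j < n) (d i : ℕ) :
    |tc (X ^ d) (j + 1) i| ≤ ((n + 1 : ℕ) : ℝ) ^ d := by
  have h1 := ((Bnd.lin ((j : ℝ) + 1) 0).pow d).tc_le i
  rw [C_0, sub_zero, sub_zero, abs_of_pos (show (0 : ℝ) < j + 1 by positivity)] at h1
  refine h1.trans (pow_le_pow_left₀ (by positivity) ?_ _)
  have a2 : (j : ℝ) + 1 ≤ n := by exact_mod_cast hj
  push_cast
  linarith

theorem abs_cp_le (i p : ℕ) : |cp i p| ≤ 2 ^ (i + p) := by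
  rw [cp, abs_mul, abs_pow, abs_neg, abs_one, one_pow, one_mul, Nat.abs_cast]
  exact_mod_cast Nat.choose_le_two_pow _ _

theorem node_le {a h n i j p : ℕ} (hi : i < a) (hj : j < n) (hp : p ≤ h) {θ : ℝ} (h0 : 0 < θ)
    (h1 : θ < 1) {m : ℤ} (hm : m < 0 ∨ n < m) :
    |cp i p / (θ + m - (j + 1)) ^ (i + p + 1)| ≤ 2 ^ (a + h) := by
  have a1 : 1 ≤ |θ + m - (j + 1)| := by
    have a4 : (0 : ℝ) ≤ j := Nat.cast_nonneg _
    rcases hm with hm | hm
    · have : (m : ℝ) ≤ -1 := by exact_mod_cast (by omega)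
      exact le_abs.2 (Or.inr (by linarith))
    · have : (j : ℝ) + 2 ≤ m := by exact_mod_cast (by omega)
      exact le_abs.2 (Or.inl (by linarith))
  rw [abs_div, abs_pow]
  refine (div_le_self (abs_nonneg _) (one_le_pow₀ a1)).trans ((abs_cp_le i p).trans ?_)
  exact pow_le_pow_right₀ one_le_two (by omega)

theorem hasSum_Fp {a n : ℕ} (c : ℕ → ℕ → ℝ) (p : ℕ) {t : ℝ} (ht : (n : ℝ) < |t|) :
    HasSum (fun d : ℕ => res a n c (X ^ d) * (cp d p / t ^ (d + p + 1))) (Fp a n c p t) := by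
  have ht0 : t ≠ 0 := abs_pos.1 (lt_of_le_of_lt (Nat.cast_nonneg _) ht)
  simp only [res, Fp, sum_mul]
  refine hasSum_sum fun i _ => hasSum_sum fun j hj => ?_
  have hy : ‖((j : ℝ) + 1) / t‖ < 1 := by
    have a2 : (j : ℝ) + 1 ≤ n := by exact_mod_cast mem_range.1 hj
    rw [Real.norm_eq_abs, abs_div, abs_of_pos (show (0 : ℝ) < j + 1 by positivity),
      div_lt_one (abs_pos.2 ht0)]
    linarith
  have hne : t - (j + 1) ≠ 0 := fun h => by
    rw [show (j : ℝ) + 1 = t by linarith, div_self ht0] at hy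
    simp at hy
  have h1 := (hasSum_choose_mul_geometric_of_norm_lt_one (i + p) hy).mul_left
    (cp i p * c i j / t ^ (i + p + 1))
  have e1 : cp i p * c i j / t ^ (i + p + 1) * (1 / (1 - ((j : ℝ) + 1) / t) ^ (i + p + 1)) =
      cp i p * c i j / (t - (j + 1)) ^ (i + p + 1) := by
    rw [show 1 - ((j : ℝ) + 1) / t = (t - (j + 1)) / t by field_simp, div_pow]
    field_simp
  rw [e1] at h1
  rw [← hasSum_nat_add_iff' i, sum_eq_zero fun d hd => by
    rw [tc, taylor_X_pow, coeff_X_add_C_pow, Nat.choose_eq_zero_of_lt (mem_range.1 hd)]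
    simp, sub_zero]
  refine h1.congr_fun fun e => ?_
  have e2 := Nat.choose_mul (n := e + i + p) (k := i + p) (s := p) (by omega)
  rw [Nat.add_sub_cancel, Nat.add_sub_cancel] at e2
  have e3 : (((e + i + p).choose (i + p) : ℕ) : ℝ) * ((i + p).choose p : ℕ) =
      ((e + i + p).choose p : ℕ) * ((e + i).choose i : ℕ) := by exact_mod_cast e2
  rw [tc, taylor_X_pow, coeff_X_add_C_pow, Nat.add_sub_cancel, cp, cp, ← add_assoc, div_pow,
    show t ^ (e + i + p + 1) = t ^ (i + p + 1) * t ^ e by ring]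
  field_simp
  linear_combination (-c i j) * e3

theorem far_le {a n h p ω : ℕ} {c : ℕ → ℕ → ℝ} (hp : p ≤ h) {ε ρ t : ℝ} (hε : 0 ≤ ε)
    (hρ : (n : ℝ) + 1 ≤ ρ) (ht : 4 * ρ ≤ |t|) (h0 : ∀ d < ω, res a n c (X ^ d) = 0)
    (h1 : ∀ d, ω ≤ d → |res a n c (X ^ d)| ≤ ε * ρ ^ d) :
    |Fp a n c p t| ≤ 2 ^ (h + 1) * ε * (2 * ρ / |t|) ^ ω := by
  have hn : (0 : ℝ) ≤ n := Nat.cast_nonneg _
  have ht1 : 1 ≤ |t| := by linarith
  have hs := hasSum_Fp c p (a := a) (n := n) (t := t) (by linarith)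
  rw [← hasSum_nat_add_iff' ω, sum_eq_zero fun d hd => by rw [h0 d (mem_range.1 hd), zero_mul],
    sub_zero] at hs
  have hx0 : 0 ≤ 2 * ρ / |t| := div_nonneg (by linarith) (abs_nonneg _)
  have hx : 2 * ρ / |t| ≤ 1 / 2 := by
    rw [div_le_iff₀ (by linarith)]
    linarith
  have h2 := hasSum_geometric_two.mul_left (2 ^ h * ε * (2 * ρ / |t|) ^ ω)
  rw [← hs.tsum_eq, ← Real.norm_eq_abs]
  refine (tsum_of_norm_bounded h2 fun d => ?_).trans_eq (by ring)
  rw [Real.norm_eq_abs, abs_mul, abs_div, abs_pow]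
  have b1 : |cp (d + ω) p| ≤ 2 ^ (d + ω) * 2 ^ h := by
    rw [← pow_add]
    exact (abs_cp_le _ _).trans (pow_le_pow_right₀ one_le_two (by omega))
  have b2 : |t| ^ (d + ω) ≤ |t| ^ (d + ω + p + 1) := pow_le_pow_right₀ ht1 (by omega)
  have hρ0 : 0 ≤ ρ := by linarith
  calc _ ≤ ε * ρ ^ (d + ω) * (2 ^ (d + ω) * 2 ^ h / |t| ^ (d + ω)) := by
        gcongr
        exact h1 _ (by omega)
    _ = 2 ^ h * ε * (2 * ρ / |t|) ^ ω * (2 * ρ / |t|) ^ d := by
        rw [mul_assoc (2 ^ h * ε), ← pow_add (2 * ρ / |t|), add_comm ω, div_pow, mul_pow]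
        ring
    _ ≤ _ := by gcongr

theorem blk_eval_le {N r : ℕ} (hN : 0 < N) (hr : r ≤ N) {x t : ℝ} (h0 : 0 ≤ x) (h1 : x ≤ 1) :
    1 / (r.factorial : ℝ) * ∏ m ∈ range r, |t - (x + m)| ≤ Real.exp N * ((|t| + N) / N) ^ r := by
  have hN' : (0 : ℝ) < N := by exact_mod_cast hN
  have a1 : ∏ m ∈ range r, |t - (x + m)| ≤ (|t| + N) ^ r := by
    refine (prod_le_prod (fun _ _ => abs_nonneg _) (g := fun _ => |t| + N) fun m hm => ?_).trans
      (by simp)
    have : (m : ℝ) + 1 ≤ N := by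
      have := mem_range.1 hm
      exact_mod_cast (by omega)
    refine (abs_sub _ _).trans (add_le_add_right ?_ _)
    rw [abs_of_nonneg (by positivity)]
    linarith
  calc _ ≤ 1 / (r.factorial : ℝ) * (|t| + N) ^ r := by gcongr
    _ = (N : ℝ) ^ r / r.factorial * ((|t| + N) / N) ^ r := by
        rw [div_pow]
        field_simp
    _ ≤ _ := by
        gcongr
        exact Real.pow_div_factorial_le_exp _ hN'.le _

variable {ι : Type*} [Fintype ι]

theorem WW_eval_le {N e g' : ℕ} (hN : 0 < N) (he : e < g' * N) {θ : ι → ℚ}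
    (hθ : ∀ k, 0 < (θ k : ℝ) ∧ (θ k : ℝ) < 1) {G : ℝ}
    (hG : ∀ k, ((θ k).den : ℝ) ^ N * beta (θ k).den N ≤ G) (t : ℝ) :
    |(WW N θ e).eval t| ≤ G ^ Fintype.card ι *
      (Real.exp 1 * ((|t| + N) / N)) ^ ((Fintype.card ι + g') * N) := by
  have hN' : (0 : ℝ) < N := by exact_mod_cast hN
  have hz : 1 ≤ (|t| + N) / N := by
    rw [le_div_iff₀ hN']
    linarith [abs_nonneg t]
  generalize hzz : (|t| + N) / N = z at hz
  have hb : ∀ r ≤ N, |(blk r).eval t| ≤ Real.exp N * z ^ r := fun r hr => by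
    have := blk_eval_le hN hr le_rfl zero_le_one (t := t)
    rw [hzz] at this
    simpa [blk, eval_prod, abs_prod] using this
  have hE : Real.exp N = Real.exp 1 ^ N := by rw [← Real.exp_nat_mul, mul_one]
  have h1 : |(qb N e).eval t| ≤ (Real.exp 1 * z) ^ (g' * N) := by
    rw [qb, eval_mul, eval_pow, abs_mul, abs_pow]
    calc _ ≤ (Real.exp N * z ^ N) ^ (e / N) * (Real.exp N * z ^ (e % N)) := by
          gcongr
          exacts [hb N le_rfl, hb _ (Nat.mod_lt e hN).le]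
      _ = Real.exp 1 ^ ((e / N + 1) * N) * z ^ (N * (e / N) + e % N) := by
          rw [hE]
          ring
      _ ≤ _ := by
          rw [mul_pow, Nat.div_add_mod]
          have := (Nat.div_lt_iff_lt_mul hN).2 he
          gcongr
          · exact Real.one_le_exp zero_le_one
          · omega
  have h2 : ∀ k, |(C (gam N (θ k)) * ∏ m ∈ range N, (X - C ((θ k : ℝ) + m))).eval t| ≤
      G * (Real.exp 1 * z) ^ N := fun k => by
    have := blk_eval_le hN le_rfl (hθ k).1.le (hθ k).2.le (t := t)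
    rw [hzz] at this
    rw [mul_pow, ← hE, eval_mul, eval_C, abs_mul, gam, abs_of_nonneg (by positivity),
      div_eq_mul_one_div, mul_assoc]
    refine mul_le_mul (hG k) ?_ (by positivity) (le_trans (by positivity) (hG k))
    simpa [eval_prod, abs_prod] using this
  rw [WW_eq, eval_mul, abs_mul, eval_prod, abs_prod, add_mul, pow_add, ← mul_assoc,
    mul_comm (Fintype.card ι), pow_mul, ← mul_pow]
  refine mul_le_mul ?_ h1 (abs_nonneg _) ?_
  · exact (prod_le_prod (fun _ _ => abs_nonneg _) fun k _ => h2 k).trans (by simp)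
  · rcases isEmpty_or_nonempty ι with h | ⟨⟨k⟩⟩
    · simp
    · exact pow_nonneg ((abs_nonneg _).trans (h2 k)) _

theorem small {a n h p r g : ℕ} {c : ℕ → ℕ → ℝ} (hp : p ≤ h) (hn : 1 ≤ n) (hr : 2 ≤ r) {ε G θ : ℝ}
    (hε : 0 ≤ ε) (hG : 0 ≤ G) (hθ0 : 0 < θ) (hθ1 : θ < 1) {W : ℝ[X]}
    (hW : ∀ t, |W.eval t| ≤ G * (Real.exp 1 * ((|t| + (n + 1 : ℕ)) / (n + 1 : ℕ))) ^ (g * (n + 1)))
    (h0 : ∀ d < (g + 1) * (n + 1), res a n c (X ^ d) = 0)
    (h1 : ∀ d, (g + 1) * (n + 1) ≤ d → |res a n c (X ^ d)| ≤ ε * (2 * r * (n + 1 : ℕ)) ^ d)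
    {m : ℤ} (hm : m < 0 ∨ n < m) (h2 : |m| ≤ (8 * r * (n + 1) : ℕ) → |Fp a n c p (θ + m)| ≤ ε) :
    |Fp a n c p (θ + m) * W.eval (θ + m)| ≤
      2 ^ (h + 1) * ε * G * (Real.exp 1 * (9 * r)) ^ (g * (n + 1)) * (8 * r * (n + 1 : ℕ)) ^ 2 /
        m ^ 2 := by
  have hm0 : (0 : ℝ) < |(m : ℝ)| := abs_pos.2 (by exact_mod_cast (by omega))
  have hr' : (2 : ℝ) ≤ r := by exact_mod_cast hr
  have hN : (2 : ℝ) ≤ (n + 1 : ℕ) := by exact_mod_cast (by omega)
  have hρ : (n : ℝ) + 1 ≤ 2 * r * (n + 1 : ℕ) := by push_cast at hN ⊢; nlinarith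
  have hT : (|m| ≤ (8 * r * (n + 1) : ℕ) ∧ |(m : ℝ)| ≤ 8 * r * (n + 1 : ℕ)) ∨
      8 * r * (n + 1 : ℕ) + 1 ≤ |(m : ℝ)| := by
    rcases le_or_gt |m| (8 * r * (n + 1) : ℕ) with h | h
    · exact Or.inl ⟨h, by exact_mod_cast h⟩
    · exact Or.inr (by exact_mod_cast h)
  generalize ((n + 1 : ℕ) : ℝ) = N at *
  have t1 : |θ + m| ≤ |(m : ℝ)| + 1 := by
    have := abs_add_le θ m
    rw [abs_of_pos hθ0] at this
    linarith
  have t2 : |(m : ℝ)| - 1 ≤ |θ + m| := by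
    have := abs_sub (θ + m) θ
    rw [add_sub_cancel_left, abs_of_pos hθ0] at this
    linarith
  rw [abs_mul, ← sq_abs (m : ℝ), le_div_iff₀ (by positivity)]
  have hW' := hW (θ + m)
  have hN0 : 0 < N := by linarith
  have hrN : 2 * N ≤ r * N := mul_le_mul_of_nonneg_right hr' hN0.le
  rcases hT with ⟨hT, hT'⟩ | hT
  · have b1 : (|θ + m| + N) / N ≤ 9 * r := by
      rw [div_le_iff₀ hN0]
      linarith
    have b2 : (1 : ℝ) ≤ 2 ^ (h + 1) := one_le_pow₀ one_le_two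
    calc _ ≤ ε * (G * (Real.exp 1 * (9 * r)) ^ (g * (n + 1))) * (8 * r * N) ^ 2 := by
          gcongr
          · exact h2 hT
          · exact hW'.trans (by gcongr)
      _ = 1 * ε * G * (Real.exp 1 * (9 * r)) ^ (g * (n + 1)) * (8 * r * N) ^ 2 := by ring
      _ ≤ _ := by gcongr
  · have ht : 4 * (2 * r * N) ≤ |θ + m| := by linarith
    have b0 := far_le hp hε hρ ht h0 h1
    generalize |θ + (m : ℝ)| = T at *
    have hT0 : 0 < T := by linarith
    have b1 : (T + N) / N ≤ 2 * T / N := by gcongr; linarith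
    have b2 : 2 * (2 * r * N) / T ≤ 1 := by
      rw [div_le_one hT0]
      linarith
    have b3 : (2 * (2 * r * N) / T) ^ (n + 1) ≤ (2 * (2 * r * N) / T) ^ 2 :=
      pow_le_pow_of_le_one (by positivity) b2 (by omega)
    have b4 : |(m : ℝ)| ≤ 2 * T := by linarith
    calc _ ≤ 2 ^ (h + 1) * ε * (2 * (2 * r * N) / T) ^ ((g + 1) * (n + 1)) *
          (G * (Real.exp 1 * (2 * T / N)) ^ (g * (n + 1))) * (2 * T) ^ 2 := by
          gcongr
          exact hW'.trans (by gcongr)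
      _ = 2 ^ (h + 1) * ε * G * ((2 * (2 * r * N) / T) * (Real.exp 1 * (2 * T / N))) ^ (g * (n + 1)) *
          ((2 * (2 * r * N) / T) ^ (n + 1) * (2 * T) ^ 2) := by
          rw [add_mul, one_mul, pow_add, mul_pow (2 * (2 * r * N) / T)]
          ring
      _ ≤ 2 ^ (h + 1) * ε * G * (Real.exp 1 * (9 * r)) ^ (g * (n + 1)) *
          ((2 * (2 * r * N) / T) ^ 2 * (2 * T) ^ 2) := by
          rw [show 2 * (2 * r * N) / T * (Real.exp 1 * (2 * T / N)) = Real.exp 1 * (8 * r) by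
            field_simp; norm_num]
          gcongr
          norm_num
      _ = _ := by
          congr 1
          field_simp
          norm_num

end Pool.Agent.MP_807c24_nt.H42
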