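import Pool.Agent.MP_807c24_nt.H42.Box

namespace Pool.Agent.MP_807c24_nt.H42

open Finset Polynomial

theorem lcm_le (N : ℕ) : (Nat.lcmUpto N : ℝ) ≤ Real.exp (6 * N) := by
  rw [← Real.log_le_iff_le_exp (by exact_mod_cast Nat.lcmUpto_pos N),
    ← Chebyshev.psi_eq_log_lcmUpto]
  refine (Chebyshev.psi_le_const_mul_self (Nat.cast_nonneg _)).trans ?_
  have h1 : Real.log 4 ≤ 2 := by
    rw [show (4 : ℝ) = 2 ^ 2 by norm_num, Real.log_pow]
    have := Real.log_two_lt_d9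
    push_cast
    linarith
  gcongr
  linarith

theorem cube_le {C N : ℝ} (hN : 0 ≤ N) (h : 24 * C ≤ N) : C * N ^ 3 ≤ Real.exp N := by
  refine le_trans ?_ (Real.pow_div_factorial_le_exp N hN 4)
  have : C * N ^ 3 ≤ N / 24 * N ^ 3 := by gcongr; linarith
  norm_num [Nat.factorial]
  linarith

theorem sum_tri (u : ℕ) : ∑ i : Fin u, ((u : ℝ) - i + 1) = u * (u + 3) / 2 := by
  rw [Fin.sum_univ_eq_sum_range (fun i => (u : ℝ) - i + 1)]
  have : ∀ v : ℕ, ∑ i ∈ range v, ((u : ℝ) - i + 1) = v * (u + 1) - v * (v - 1) / 2 := fun v => by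
    induction v with
    | zero => simp
    | succ v ih => rw [sum_range_succ, ih]; push_cast; ring
  rw [this]
  ring

theorem count_ineq {A G F r l h N Y : ℝ} (hA : 1 ≤ A) (hG0 : 0 ≤ G) (hG : 2 * G ≤ A) (hF : 0 ≤ F)
    (hr : 1 ≤ r) (hl : 0 ≤ l) (hh : 0 ≤ h) (hY : Y = (A - G) * l / 2 + 40 * F * r * l + 17 * A)
    (h1 : 6 * (A + h + 2) ≤ N) (h2 : 2 * l + Y ≤ N) :
    (Y * N + 8 * A * N) * (G * N) + (A * N + A + h + 2) * l * (F * (16 * r * N + 1)) +
      l * ((A - G) * N * ((A - G) * N + 3) / 2) ≤ Y * N * (A * (N - 1)) := by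
  have hN : 1 ≤ N := by linarith
  have hY0 : 0 ≤ Y := by
    have : 0 ≤ (A - G) * l := mul_nonneg (by linarith) hl
    rw [hY]
    positivity
  have a1 : 16 * r * N + 1 ≤ 17 * r * N := by nlinarith
  have a2 : A * N + A + h + 2 ≤ 20 / 17 * A * N := by nlinarith
  have a3 : (A * N + A + h + 2) * l * (F * (16 * r * N + 1)) ≤
      (20 / 17 * A * N) * l * (F * (17 * r * N)) := by gcongr
  have a4 : 20 * A * (F * r * l * N ^ 2) ≤ 40 * (A - G) * (F * r * l * N ^ 2) := by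
    gcongr ?_ * _
    linarith
  have a5 : G * (A * N ^ 2) ≤ A / 2 * (A * N ^ 2) := by gcongr; linarith
  have a6 : (A - G) * (l * N) ≤ A * (l * N) := by gcongr; linarith
  have a7 : (2 * l + Y) * (A * N) ≤ N * (A * N) := by gcongr
  have a8 : 1 * (A * N ^ 2) ≤ A * (A * N ^ 2) := by gcongr
  have a9 : 0 ≤ A * (l * N) := by positivity
  have a10 : 0 ≤ A * N ^ 2 := by positivity
  have e : Y * N * (A * (N - 1)) = (Y * N) * (G * N) - Y * A * N + (A - G) * N ^ 2 *
      ((A - G) * l / 2 + 40 * F * r * l + 17 * A) := by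
    rw [← hY]
    ring
  rw [e]
  nlinarith

variable {ι : Type*} [Fintype ι]

theorem exists_c {a h n r G : ℕ} (θ : ι → ℝ) (hθ : ∀ k, 0 < θ k ∧ θ k < 1) (hr : 2 ≤ r)
    (hG0 : 1 ≤ G) (hG : 2 * G ≤ a) {Y : ℝ} (hY : Y = ((a : ℝ) - G) * Real.log r / 2 +
      40 * ((h + 1) * Fintype.card ι) * r * Real.log r + 17 * a)
    (h1 : 6 * ((a : ℝ) + h + 2) ≤ (n + 1 : ℕ)) (h2 : 2 * Real.log r + Y ≤ (n + 1 : ℕ))
    (h3 : 24 * (3 * (a : ℝ)) ≤ (n + 1 : ℕ)) :
    ∃ (c : ℕ → ℕ → ℤ) (ε : ℝ), (∃ i < a, ∃ j < n, c i j ≠ 0) ∧ 0 ≤ ε ∧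
      ε ≤ a * (n + 1 : ℕ) * Real.exp ((Y - a * Real.log r) * (n + 1 : ℕ)) ∧
      (∀ q : ℝ[X], q.natDegree < G * (n + 1) → res a n (fun i j => c i j) q = 0) ∧
      (∀ d, G * (n + 1) ≤ d →
        |res a n (fun i j => c i j) (X ^ d)| ≤ ε * (2 * r * (n + 1 : ℕ)) ^ d) ∧
      ∀ p ≤ h, ∀ k, ∀ m : ℤ, (m < 0 ∨ n < m) → |m| ≤ (8 * r * (n + 1) : ℕ) →
        |Fp a n (fun i j => c i j) p (θ k + m)| ≤ ε := by
  have hr' : (2 : ℝ) ≤ r := by exact_mod_cast hr
  have hr0 : (0 : ℝ) < r := by linarith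
  have hl : 0 ≤ Real.log r := Real.log_nonneg (by linarith)
  have hG' : 2 * (G : ℝ) ≤ a := by exact_mod_cast hG
  have hG1 : (1 : ℝ) ≤ G := by exact_mod_cast hG0
  have hh : (0 : ℝ) ≤ h := Nat.cast_nonneg _
  have hn1 : (1 : ℝ) ≤ n := by push_cast at h1; linarith
  have hY0 : 0 ≤ Y := by
    have : 0 ≤ ((a : ℝ) - G) * Real.log r := mul_nonneg (by linarith) hl
    rw [hY]
    positivity
  have rexp : ∀ k : ℕ, (r : ℝ) ^ k = Real.exp (k * Real.log r) := fun k => by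
    rw [Real.exp_nat_mul, Real.exp_log hr0]
  obtain ⟨H, hH1, hH2, hH3⟩ : ∃ H : ℕ, (1 : ℝ) ≤ H ∧ H ≤ Real.exp (Y * (n + 1 : ℕ)) ∧
      Real.exp (Y * (n + 1 : ℕ)) < H + 1 :=
    ⟨⌊Real.exp (Y * (n + 1 : ℕ))⌋₊, by
      exact_mod_cast Nat.one_le_floor_iff _ |>.2 (Real.one_le_exp (by positivity)),
      Nat.floor_le (by positivity), Nat.lt_floor_add_one _⟩
  have hL0 : (0 : ℝ) < Nat.lcmUpto (n + 1) := by exact_mod_cast Nat.lcmUpto_pos _
  obtain ⟨D, hD⟩ : ∃ D : ℝ, D = a * n * H := ⟨_, rfl⟩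
  have hD1 : 1 ≤ D := by
    rw [hD]
    exact one_le_mul_of_one_le_of_one_le (one_le_mul_of_one_le_of_one_le (by linarith) hn1) hH1
  obtain ⟨u, hu⟩ : ∃ u, a * (n + 1) = G * (n + 1) + u :=
    Nat.exists_eq_add_of_le (Nat.mul_le_mul_right _ (by omega))
  have hu' : (u : ℝ) = (a - G) * (n + 1 : ℕ) := by
    have := congrArg (Nat.cast : ℕ → ℝ) hu
    push_cast at this ⊢
    linarith
  let T : ℕ := 8 * r * (n + 1)
  obtain ⟨c, hc0, hcH, hc⟩ := box2
    (κ := Fin (G * (n + 1)) ⊕ (Fin (h + 1) × ι × Icc (-T : ℤ) T) ⊕ Fin u) a n H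
    (Sum.elim (fun e i j => tc (qb (n + 1) e) (j + 1) i) (Sum.elim
      (fun x i j => if (x.2.2 : ℤ) < 0 ∨ n < (x.2.2 : ℤ) then
        cp i x.1 / (θ x.2.1 + (x.2.2 : ℤ) - (j + 1)) ^ (i + x.1 + 1) else 0)
      (fun e i j => tc (X ^ (G * (n + 1) + e)) (j + 1) i)))
    (Sum.elim (fun _ => Real.exp (n + 1 : ℕ) ^ G) (Sum.elim (fun _ => 2 ^ (a + h))
      (fun e => ((n + 1 : ℕ) : ℝ) ^ (G * (n + 1) + e))))
    (Sum.elim (fun _ => 1 / (Nat.lcmUpto (n + 1) : ℝ) ^ a) (Sum.elim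
      (fun _ => D / r ^ (a * (n + 1)))
      (fun e => D / r ^ (a * (n + 1)) * (2 * r * (n + 1 : ℕ)) ^ (G * (n + 1) + e))))
    (by rintro (e | x | e) <;> simp only [Sum.elim_inl, Sum.elim_inr] <;> positivity)
    (by
      rintro (e | x | e) i hi j hj <;> simp only [Sum.elim_inl, Sum.elim_inr]
      · exact tc_qb_le hj e.2 i
      · split_ifs with hm
        · exact node_le hi hj (Nat.le_of_lt_succ x.1.2) (hθ _).1 (hθ _).2 hm
        · simp
      · exact tc_X_pow_le hj _ i)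
    (by
      simp only [Fintype.prod_sum_type, Sum.elim_inl, Sum.elim_inr, prod_const, card_univ,
        Fintype.card_fin, ← hD]
      have b1 : 2 * (D * Real.exp (n + 1 : ℕ) ^ G) / (1 / (Nat.lcmUpto (n + 1) : ℝ) ^ a) + 1 ≤
          Real.exp (Y * (n + 1 : ℕ) + 8 * a * (n + 1 : ℕ)) := by
        have c1 := lcm_le (n + 1)
        have c2 := cube_le (Nat.cast_nonneg _) h3
        have c0 : (1 : ℝ) ≤ Nat.lcmUpto (n + 1) := by exact_mod_cast Nat.lcmUpto_pos _
        have c3 : (n : ℝ) ≤ ((n + 1 : ℕ) : ℝ) ^ 3 :=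
          le_trans (by push_cast; linarith) (le_self_pow₀ (by push_cast; linarith) three_ne_zero)
        have c4 : 1 ≤ D * Real.exp (n + 1 : ℕ) ^ G * (Nat.lcmUpto (n + 1) : ℝ) ^ a :=
          one_le_mul_of_one_le_of_one_le (one_le_mul_of_one_le_of_one_le hD1
            (one_le_pow₀ (Real.one_le_exp (by positivity)))) (one_le_pow₀ c0)
        have c5 : 3 * (a : ℝ) * n ≤ Real.exp (n + 1 : ℕ) := le_trans (by gcongr) c2
        rw [div_div_eq_mul_div, div_one]
        generalize ((n + 1 : ℕ) : ℝ) = N at *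
        calc _ ≤ 3 * a * n * H * Real.exp N ^ G * (Nat.lcmUpto (n + 1) : ℝ) ^ a := by
              rw [hD] at c4 ⊢
              linarith
          _ ≤ Real.exp N * Real.exp (Y * N) * Real.exp N ^ G * Real.exp (6 * N) ^ a := by gcongr
          _ ≤ _ := by
              rw [← Real.exp_nat_mul, ← Real.exp_nat_mul, ← Real.exp_add, ← Real.exp_add,
                ← Real.exp_add, Real.exp_le_exp]
              nlinarith
      have b2 : 2 * (D * 2 ^ (a + h)) / (D / r ^ (a * (n + 1))) + 1 ≤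
          Real.exp ((a * (n + 1 : ℕ) + a + h + 2) * Real.log r) := by
        have c1 : 2 * (D * 2 ^ (a + h)) / (D / r ^ (a * (n + 1))) =
            2 * (2 ^ (a + h) * r ^ (a * (n + 1))) := by field_simp
        have c2 : (1 : ℝ) ≤ 2 ^ (a + h) * r ^ (a * (n + 1)) :=
          one_le_mul_of_one_le_of_one_le (one_le_pow₀ one_le_two) (one_le_pow₀ (by linarith))
        have c3 := rexp (a * (n + 1) + a + h + 2)
        push_cast at c3 ⊢
        rw [c1, ← c3]
        calc _ ≤ 2 ^ 2 * (2 ^ (a + h) * (r : ℝ) ^ (a * (n + 1))) := by linarith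
          _ ≤ r ^ 2 * (r ^ (a + h) * (r : ℝ) ^ (a * (n + 1))) := by gcongr
          _ = _ := by ring
      have b3 : ∀ e : Fin u, 2 * (D * ((n + 1 : ℕ) : ℝ) ^ (G * (n + 1) + e)) /
          (D / r ^ (a * (n + 1)) * (2 * r * (n + 1 : ℕ)) ^ (G * (n + 1) + e)) + 1 ≤
          Real.exp (Real.log r * ((u : ℝ) - e + 1)) := fun e => by
        obtain ⟨v, hv⟩ := Nat.exists_eq_add_of_le e.2.le
        have c0 : a * (n + 1) = (G * (n + 1) + e) + v := by omega
        have c1 : 1 ≤ G * (n + 1) + e := le_add_right (Nat.mul_pos hG0 n.succ_pos)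
        have c3 := rexp (v + 1)
        have c4 : (u : ℝ) - e = v := by
          have := congrArg (Nat.cast : ℕ → ℝ) hv
          push_cast at this
          linarith
        push_cast at c3
        rw [c0, c4, mul_comm (Real.log r), ← c3]
        generalize G * (n + 1) + e = d at c1
        have c2 : 2 * (D * ((n + 1 : ℕ) : ℝ) ^ d) /
            (D / r ^ (d + v) * (2 * r * (n + 1 : ℕ)) ^ d) = 2 / 2 ^ d * r ^ v := by
          rw [mul_pow, mul_pow, pow_add]
          field_simp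
        have c5 : (2 : ℝ) / 2 ^ d ≤ 1 :=
          (div_le_one (by positivity)).2 (le_self_pow₀ one_le_two (by omega))
        have c6 : (1 : ℝ) ≤ r ^ v := one_le_pow₀ (by linarith)
        rw [c2, pow_succ]
        nlinarith
      have b4 : (Fintype.card (Fin (h + 1) × ι × Icc (-T : ℤ) T) : ℝ) =
          (h + 1) * Fintype.card ι * (16 * r * (n + 1 : ℕ) + 1) := by
        simp only [Fintype.card_prod, Fintype.card_fin, Fintype.card_coe, Int.card_Icc]
        rw [show ((T : ℤ) + 1 - -T).toNat = 2 * T + 1 by omega]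
        simp only [T]
        push_cast
        ring
      have b5 := count_ineq (F := (h + 1) * Fintype.card ι) (by linarith) (by linarith) hG'
        (by positivity) (by linarith) hl hh hY h1 h2
      calc _ ≤ Real.exp (Y * (n + 1 : ℕ) + 8 * a * (n + 1 : ℕ)) ^ (G * (n + 1)) *
            (Real.exp ((a * (n + 1 : ℕ) + a + h + 2) * Real.log r) ^
              Fintype.card (Fin (h + 1) × ι × Icc (-T : ℤ) T) *
              ∏ e : Fin u, Real.exp (Real.log r * ((u : ℝ) - e + 1))) := by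
            gcongr with e
            exact b3 e
        _ ≤ Real.exp (Y * (n + 1 : ℕ)) ^ (a * n) := by
            rw [← Real.exp_sum, ← mul_sum, sum_tri, ← Real.exp_nat_mul, ← Real.exp_nat_mul,
              ← Real.exp_nat_mul, ← Real.exp_add, ← Real.exp_add, Real.exp_le_exp, b4, hu']
            push_cast at b5 ⊢
            linarith
        _ < _ := pow_lt_pow_left₀ hH3 (by positivity)
            (Nat.mul_ne_zero (by omega) (by rintro rfl; norm_num at hn1)))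
  refine ⟨c, D / r ^ (a * (n + 1)), hc0, by positivity, ?_, ?_, fun d hd => ?_,
    fun p hp k m hm hm' => ?_⟩
  · rw [hD, rexp, sub_mul, Real.exp_sub, ← mul_div_assoc]
    push_cast at hH2 ⊢
    rw [mul_right_comm (a : ℝ) (Real.log r)]
    gcongr
    linarith
  · let L : ℝ[X] →ₗ[ℝ] ℝ :=
      { toFun := res a n fun i j => c i j
        map_add' := fun x y => by simp [res, tc, mul_add, sum_add_distrib]
        map_smul' := fun x y => by simp [res, tc, mul_sum, mul_left_comm] }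
    refine vanish_of_basis L (qb (n + 1)) (qb_degree _) _ fun e he => ?_
    obtain ⟨z, hz⟩ := res_int (a := a) (n := n) c e
    have h4 : |res a n (fun i j => c i j) (qb (n + 1) e)| < 1 / (Nat.lcmUpto (n + 1) : ℝ) ^ a :=
      hc (.inl ⟨e, he⟩)
    rw [lt_div_iff₀ (by positivity), ← abs_of_pos (pow_pos hL0 a), ← abs_mul, mul_comm, ← hz,
      eq_intCast] at h4
    have h5 : z = 0 := Int.abs_lt_one_iff.1 (by exact_mod_cast h4)
    rw [h5, map_zero] at hz
    exact (mul_eq_zero.1 hz.symm).resolve_left (by positivity)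
  · by_cases hd' : d < a * (n + 1)
    · obtain ⟨e, rfl⟩ := Nat.exists_eq_add_of_le hd
      exact (hc (.inr (.inr ⟨e, by omega⟩))).le
    · have c1 : |res a n (fun i j => c i j) (X ^ d)| ≤ D * ((n + 1 : ℕ) : ℝ) ^ d := by
        refine (abs_sum_le_sum_abs _ _).trans ((sum_le_card_nsmul _ _
          (n * (H * ((n + 1 : ℕ) : ℝ) ^ d)) fun i _ => ?_).trans_eq (by simp [hD, mul_assoc]))
        refine (abs_sum_le_sum_abs _ _).trans ((sum_le_card_nsmul _ _
          (H * ((n + 1 : ℕ) : ℝ) ^ d) fun j hj => ?_).trans_eq (by simp))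
        rw [abs_mul]
        exact mul_le_mul (by simp only; exact_mod_cast hcH i j) (tc_X_pow_le (mem_range.1 hj) _ _)
          (abs_nonneg _) (by positivity)
      refine c1.trans ?_
      rw [mul_pow, ← mul_assoc, div_mul_eq_mul_div, mul_div_assoc]
      gcongr
      refine le_mul_of_one_le_right (by linarith) ((one_le_div (by positivity)).2 ?_)
      exact (pow_le_pow_right₀ (by linarith) (by omega)).trans
        (pow_le_pow_left₀ hr0.le (by linarith) _)
  · have := hc (.inr (.inl (⟨p, by omega⟩, k, ⟨m, mem_Icc.2 (abs_le.1 hm')⟩)))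
    simp only [Sum.elim_inl, Sum.elim_inr, if_pos hm] at this
    refine le_of_eq_of_le (congrArg abs (sum_congr rfl fun i _ => sum_congr rfl fun j _ => ?_))
      this.le
    ring

theorem den_le {b B P N : ℕ} (hb : 0 < b) (hB : b ≤ B) (hP : 0 < P) :
    (b : ℝ) ^ N * beta b N ≤
      Real.exp ((P * Real.log 2 + (1 + 1 / P) * Real.log B) * N) := by
  have hb' : (0 : ℝ) < b := by exact_mod_cast hb
  have hB' : (b : ℝ) ≤ B := by exact_mod_cast hB
  have hP' : (0 : ℝ) < P := by exact_mod_cast hP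
  have h1 : (beta b N : ℝ) ^ P ≤ (2 ^ (P * P) * B) ^ N := by
    refine le_trans (by exact_mod_cast beta_pow_le hb P N : _ ≤ ((2 : ℝ) ^ (P * P) * b) ^ N) ?_
    gcongr
  have h2 : (B : ℝ) = Real.exp (Real.log B) := (Real.exp_log (by linarith)).symm
  have h3 : (beta b N : ℝ) ≤ Real.exp ((P * Real.log 2 + 1 / P * Real.log B) * N) := by
    refine le_of_pow_le_pow_left₀ hP.ne' (by positivity) (h1.trans_eq ?_)
    conv_lhs => rw [h2, ← Real.exp_log two_pos, ← Real.exp_nat_mul, ← Real.exp_add,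
      ← Real.exp_nat_mul]
    rw [← Real.exp_nat_mul]
    congr 1
    push_cast
    field_simp
  calc _ ≤ Real.exp (Real.log B) ^ N *
        Real.exp ((P * Real.log 2 + 1 / P * Real.log B) * N) := by
        gcongr
        rwa [← h2]
    _ = _ := by
        rw [← Real.exp_nat_mul, ← Real.exp_add]
        congr 1
        ring

theorem core [DecidableEq ι] [Nonempty ι] {a h r P B : ℕ} (θ : ι → ℚ) (w : ι → ℤ)
    (hθ : ∀ k, 0 < θ k ∧ θ k < 1) (hinj : Function.Injective θ) (hden : ∀ k, (θ k).den ≤ B)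
    (hw : ∀ k, w k ≠ 0) (hw0 : ∑ k, w k = 0)
    (hrat : ∀ l, 2 ≤ l → l ≤ a + h → ∃ q : ℚ, ∑ k, w k * Hz l (θ k) = q) (hr : 2 ≤ r) (hP : 0 < P)
    (hG : 2 * (Fintype.card ι + (a / (h + 1) + 1) + 1) ≤ a)
    (hmain : 40 * ((h + 1) * Fintype.card ι) * r * Real.log r +
      Fintype.card ι * (P * Real.log 2 + (1 + 1 / P) * Real.log B) + 40 * (a + h) ≤
      ((a : ℝ) - (Fintype.card ι + (a / (h + 1) + 1) + 1 : ℕ)) * Real.log r / 2) : False := by
  obtain ⟨E, hE0, hE⟩ : ∃ E : ℕ, 0 < E ∧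
      ∀ l, 2 ≤ l → l ≤ a + h → E * ∑ k, w k * Hz l (θ k) ∈ ZZ := by
    choose! q hq using hrat
    refine ⟨∏ l ∈ range (a + h + 1), (q l).den, prod_pos fun l _ => (q l).pos, fun l h1 h2 => ?_⟩
    rw [hq l h1 h2, ← mul_prod_erase _ _ (mem_range.2 (Nat.lt_succ_of_le h2)), Nat.cast_mul,
      mul_right_comm]
    refine mul_mem ⟨(q l).num, ?_⟩ (natCast_mem _ _)
    rw [eq_intCast]
    exact_mod_cast (Rat.den_mul_eq_num (q l)).symm
  have hθ' : ∀ k, 0 < (θ k : ℝ) ∧ (θ k : ℝ) < 1 := fun k =>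
    ⟨by exact_mod_cast (hθ k).1, by exact_mod_cast (hθ k).2⟩
  have hr' : (2 : ℝ) ≤ r := by exact_mod_cast hr
  have hl : 0 ≤ Real.log r := Real.log_nonneg (by linarith)
  obtain ⟨κ, hκ⟩ : ∃ κ, κ = a / (h + 1) + 1 := ⟨_, rfl⟩
  rw [← hκ] at hG hmain
  have hκ1 : a + 1 ≤ (h + 1) * κ := by
    have := Nat.lt_mul_div_succ a (show 0 < h + 1 by omega)
    rw [hκ]
    omega
  obtain ⟨f, hf⟩ : ∃ f, f = Fintype.card ι := ⟨_, rfl⟩
  rw [← hf] at hG hmain
  obtain ⟨Y, hY⟩ : ∃ Y : ℝ, Y = ((a : ℝ) - (f + κ + 1 : ℕ)) * Real.log r / 2 +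
    40 * ((h + 1) * f) * r * Real.log r + 17 * a := ⟨_, rfl⟩
  obtain ⟨b0, hb0⟩ : ∃ b0 : ℝ, b0 = P * Real.log 2 + (1 + 1 / P) * Real.log B := ⟨_, rfl⟩
  rw [← hb0] at hmain
  have hG' : 2 * ((f : ℝ) + κ + 1) ≤ a := by exact_mod_cast hG
  have hY0 : 0 ≤ Y := by
    have : 0 ≤ ((a : ℝ) - (f + κ + 1 : ℕ)) * Real.log r :=
      mul_nonneg (by push_cast; linarith [show (0 : ℝ) ≤ f + κ + 1 by positivity]) hl
    rw [hY]
    positivity
  obtain ⟨C0, hC0⟩ : ∃ C0 : ℝ, C0 = ∑' m : ℤ, 1 / (m : ℝ) ^ 2 := ⟨_, rfl⟩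
  have hC : 0 ≤ C0 := hC0 ▸ tsum_nonneg fun m => by positivity
  obtain ⟨Cst, hCst⟩ : ∃ Cst : ℝ, Cst = E * (∑ k, |(w k : ℝ)|) * C0 * 2 ^ (h + 1) * a * (8 * r) ^ 2 :=
    ⟨_, rfl⟩
  have hCst0 : 0 ≤ Cst := by rw [hCst]; positivity
  obtain ⟨n, hn⟩ := exists_nat_ge (6 * ((a : ℝ) + h + 2) + (2 * Real.log r + Y) + 24 * (3 * (a : ℝ)) +
    24 * Cst + ((a + (h + 1) * f) * (a + (h + 1) * f) : ℕ))
  have p1 : 0 ≤ 6 * ((a : ℝ) + h) := by positivity
  have p2 : 0 ≤ 24 * (3 * (a : ℝ)) := by positivity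
  have p3 : (0 : ℝ) ≤ ((a + (h + 1) * f) * (a + (h + 1) * f) : ℕ) := Nat.cast_nonneg _
  have p4 : ((n + 1 : ℕ) : ℝ) = n + 1 := Nat.cast_succ n
  have hn1 : 1 ≤ n := by exact_mod_cast (show (1 : ℝ) ≤ n by linarith)
  have hn2 : (a + (h + 1) * f) * (a + (h + 1) * f) ≤ n := by
    exact_mod_cast (show (((a + (h + 1) * f) * (a + (h + 1) * f) : ℕ) : ℝ) ≤ n by linarith)
  obtain ⟨c, ε, hc0, hε0, hε, hc1, hc2, hc3⟩ := exists_c (n := n) (h := h) (fun k => (θ k : ℝ)) hθ' hr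
    (by omega) hG (Y := Y) (by rw [← hf]; exact hY) (by linarith) (by linarith) (by linarith)
  have hκ0 : 0 < κ := by rw [hκ]; exact Nat.succ_pos _
  have key := nonvanish (h := h) (κ := κ * (n + 1)) hθ' (fun x y hxy => hinj (by exact_mod_cast hxy))
    (w := fun k => (w k : ℝ)) (fun k => by exact_mod_cast hw k) (by exact_mod_cast hw0)
    (c := fun i j => (c i j : ℝ)) (by exact_mod_cast hc0) hc1 (fun l => ∑ k, w k * Hz l (θ k))
    (by positivity) (by rw [← hf]; nlinarith) (γ := ∏ k, gam (n + 1) (θ k))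
    (prod_ne_zero_iff.2 fun k _ => by
      have h1 := (θ k).pos
      have h2 : 0 < beta (θ k).den (n + 1) := prod_pos fun p hp =>
        pow_pos (Nat.prime_of_mem_primeFactors hp).pos _
      rw [gam]
      positivity) (qb (n + 1)) (qb_degree _) fun p hp e he => ?_
  · rw [← hf] at key
    nlinarith [Nat.mul_le_mul_right (n + 1) hκ1]
  obtain ⟨z, hz⟩ := form_int (n := n) c θ w hE hp e
  have hdeg : (WW (n + 1) θ e).natDegree < (f + κ + 1) * (n + 1) := by
    rw [WW, mul_assoc]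
    refine (natDegree_C_mul_le _ _).trans_lt (natDegree_mul_le.trans_lt ?_)
    rw [natDegree_eq_of_degree_eq_some (qb_degree _ e), natDegree_prod_of_monic _ _ fun k _ =>
      monic_prod_of_monic _ _ fun _ _ => monic_X_sub_C _]
    have e1 : ∀ k, (∏ m ∈ range (n + 1), (X - C ((θ k : ℝ) + m))).natDegree = n + 1 := fun k => by
      rw [natDegree_prod_of_monic _ _ fun _ _ => monic_X_sub_C _]
      simp only [natDegree_X_sub_C, sum_const, card_range, smul_eq_mul, mul_one]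
    simp only [e1, sum_const, smul_eq_mul, card_univ, ← hf]
    nlinarith
  have hb := form_le hc1 hdeg (fun k => (w k : ℝ)) hθ' (fun k m hm => by
    have e1 : eval ((θ k : ℝ) + m) (∏ k, ∏ m ∈ range (n + 1), (X - C ((θ k : ℝ) + m))) = 0 := by
      rw [eval_prod]
      refine prod_eq_zero (mem_univ k) ?_
      rw [eval_prod]
      exact prod_eq_zero hm (by simp)
    rw [WW, eval_mul, eval_mul, e1, mul_zero, zero_mul]) p fun k m hm => small (g := f + κ) hp hn1 hr hε0 (G := Real.exp (b0 * (n + 1 : ℕ)) ^ f)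
      (by positivity) (hθ' k).1 (hθ' k).2
      (fun t => hf ▸ WW_eval_le n.succ_pos he hθ' (fun k => hb0 ▸ den_le (θ k).pos (hden k) hP) t)
      (fun d hd => hc1 _ (by rwa [natDegree_X_pow])) hc2 hm (hc3 p hp k m hm)
  have hL0 : (0 : ℝ) < Nat.lcmUpto (n + 1) := by exact_mod_cast Nat.lcmUpto_pos _
  have h9 : Real.exp 1 * (9 * r) ≤ Real.exp (4 + Real.log r) := by
    rw [Real.exp_add, Real.exp_log (by linarith), ← mul_assoc,
      show (4 : ℝ) = 1 + (3 : ℕ) * 1 by norm_num, Real.exp_add, Real.exp_nat_mul]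
    gcongr
    have := Real.exp_one_gt_d9
    calc (9 : ℝ) ≤ 2.7 ^ 3 := by norm_num
      _ ≤ _ := by gcongr; linarith
  have hlt : |(z : ℝ)| < 1 := by
    rw [eq_intCast] at hz
    rw [hz, abs_mul, abs_of_nonneg (by positivity)]
    have c1 := lcm_le (n + 1)
    have c2 := cube_le (C := Cst) (N := (n + 1 : ℕ)) (by positivity) (by linarith)
    have hN : (0 : ℝ) < (n + 1 : ℕ) := by positivity
    rw [← hC0] at hb
    calc _ ≤ E * Real.exp (6 * (n + 1 : ℕ)) ^ (a + h) * ((∑ k, |(w k : ℝ)|) * (2 ^ (h + 1) *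
          (a * (n + 1 : ℕ) * Real.exp ((Y - a * Real.log r) * (n + 1 : ℕ))) *
          Real.exp (b0 * (n + 1 : ℕ)) ^ f * Real.exp (4 + Real.log r) ^ ((f + κ) * (n + 1)) *
          (8 * r * (n + 1 : ℕ)) ^ 2 * C0)) := by
          gcongr
          refine hb.trans ?_
          gcongr
      _ = Cst * ((n + 1 : ℕ) : ℝ) ^ 3 * (Real.exp (6 * (n + 1 : ℕ)) ^ (a + h) *
          Real.exp ((Y - a * Real.log r) * (n + 1 : ℕ)) * Real.exp (b0 * (n + 1 : ℕ)) ^ f *
          Real.exp (4 + Real.log r) ^ ((f + κ) * (n + 1))) := by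
          rw [hCst]
          ring
      _ ≤ Real.exp (n + 1 : ℕ) * _ := by gcongr
      _ < 1 := by
          rw [← Real.exp_nat_mul, ← Real.exp_nat_mul, ← Real.exp_nat_mul, ← Real.exp_add,
            ← Real.exp_add, ← Real.exp_add, ← Real.exp_add, Real.exp_lt_one_iff]
          push_cast at hmain hY hN ⊢
          have c3 : 1 + (a + h) * 6 + (Y - a * Real.log r) + f * b0 + (f + κ) * (4 + Real.log r) < 0 := by
            have : (0 : ℝ) ≤ f + κ := by positivity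
            have : (0 : ℝ) ≤ h := by positivity
            nlinarith
          nlinarith [mul_neg_of_neg_of_pos c3 hN]
  have h5 : z = 0 := Int.abs_lt_one_iff.1 (by exact_mod_cast hlt)
  rw [h5, map_zero] at hz
  exact (mul_eq_zero.1 hz.symm).resolve_left (by positivity)

end Pool.Agent.MP_807c24_nt.H42
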