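import Pool.Agent.MP_807c24_nt.H42.Core

namespace Pool.Agent.MP_807c24_nt.H42

open Finset Filter Topology

theorem sum_Hz {b l : ℕ} (hb : 0 < b) (hl : 2 ≤ l) :
    ∑ u ∈ range b, Hz l (((u : ℚ) / b : ℚ) : ℝ) = (b : ℝ) ^ l * Hz l 0 := by
  have : NeZero b := ⟨hb.ne'⟩
  have hb' : (0 : ℝ) < b := by exact_mod_cast hb
  have h1 := ((sg_summable 0 hl).hasSum.mul_left ((b : ℝ) ^ l))
  rw [← ((Equiv.prodComm (Fin b) ℤ).trans (Int.divModEquiv b).symm).hasSum_iff] at h1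
  have h2 := h1.prod_fiberwise (g := fun u : Fin b => Hz l ((((u : ℕ) : ℚ) / b : ℚ) : ℝ)) fun u => by
    refine (sg_summable _ hl).hasSum.congr_fun fun m => ?_
    have e1 : (((((u : ℕ) : ℚ) / b : ℚ) : ℝ) + m) = (m * b + (u : ℕ)) / b := by
      push_cast
      field_simp
      ring
    have e2 : ∀ x : ℝ, Real.sign (x / b) = Real.sign x := fun x => by
      rcases lt_trichotomy x 0 with h | h | h
      · rw [Real.sign_of_neg h, Real.sign_of_neg (div_neg_of_neg_of_pos h hb')]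
      · simp [h]
      · rw [Real.sign_of_pos h, Real.sign_of_pos (div_pos h hb')]
    simp only [Function.comp, Equiv.trans_apply, Equiv.prodComm_apply, Prod.swap_prod_mk,
      Int.divModEquiv_symm_apply, sg, e1, e2, zero_add, div_pow]
    push_cast
    rw [div_div_eq_mul_div]
    ring
  rw [← Fin.sum_univ_eq_sum_range (fun u => Hz l (((u : ℚ) / b : ℚ) : ℝ))]
  exact (hasSum_fintype _).unique h2

theorem Hz_zero {l : ℕ} (hl : 2 ≤ l) :
    ((Hz l 0 : ℝ) : ℂ) = (1 - (-1) ^ l) * riemannZeta l := by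
  have h0 : HasSum (fun n : ℕ => 1 / (n : ℝ) ^ l) (∑' n : ℕ, 1 / (n : ℝ) ^ l) :=
    (Real.summable_one_div_nat_pow.2 (by omega)).hasSum
  have p : ∀ n : ℕ, sg n l = 1 / (n : ℝ) ^ l := fun n => by
    rcases n.eq_zero_or_pos with rfl | hn
    · simp [sg, show l ≠ 0 by omega]
    · rw [sg, Real.sign_of_pos (by exact_mod_cast hn)]
  have h1 := HasSum.of_nat_of_neg (f := fun m : ℤ => sg (0 + m) l)
    (h0.congr_fun fun n => by simp [p]) ((h0.mul_left (-(-1) ^ l)).congr_fun fun n => by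
      rw [← p]
      simp only [sg, zero_add, Int.cast_neg, Int.cast_natCast, Real.sign_neg]
      rcases Nat.even_or_odd l with h | h
      · rw [h.neg_pow, h.neg_pow]
        ring
      · rw [h.neg_pow, h.neg_pow, neg_div_neg_eq]
        ring)
  rw [Hz, h1.tsum_eq, zeta_nat_eq_tsum_of_gt_one (by omega)]
  simp only [sg, Int.cast_zero, add_zero, Real.sign_zero, zero_div, sub_zero]
  push_cast
  ring

theorem exists_w (S : Finset ℕ) : ∃ w : ℕ → ℤ, (∃ b ∈ Icc 1 (#S + 3), w b ≠ 0) ∧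
    ∀ m ∈ insert 0 (insert 1 S), ∑ b ∈ Icc 1 (#S + 3), w b * b ^ m = 0 := by
  obtain ⟨t, ht, h1, -⟩ := Int.Matrix.exists_ne_zero_int_vec_norm_le
    (Matrix.of fun (m : (insert 0 (insert 1 S) : Finset ℕ)) (b : Icc 1 (#S + 3)) =>
      ((b : ℕ) : ℤ) ^ (m : ℕ))
    (by
      have := card_insert_le 0 (insert 1 S)
      have := card_insert_le 1 S
      simp only [Fintype.card_coe, Nat.card_Icc]
      omega)
    (by simp only [Fintype.card_coe]; exact card_pos.2 (insert_nonempty _ _))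
  refine ⟨fun b => if h : b ∈ Icc 1 (#S + 3) then t ⟨b, h⟩ else 0, ?_, fun m hm => ?_⟩
  · obtain ⟨b, hb⟩ := Function.ne_iff.1 ht
    exact ⟨b, b.2, by simp only [dif_pos b.2]; exact hb⟩
  · rw [← sum_coe_sort]
    have h2 : ∑ b : Icc 1 (#S + 3), ((b : ℕ) : ℤ) ^ m * t b = 0 := congrFun h1 ⟨m, hm⟩
    refine Eq.trans (sum_congr rfl fun b _ => ?_) h2
    simp only [dif_pos b.2]
    exact mul_comm _ _

/-- fractions with a given denominator -/
def AA (b : ℕ) : Finset ℚ := (range b).image fun u : ℕ => (u : ℚ) / b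

theorem sum_AA (B : ℕ) (w : ℕ → ℤ) (F : ℚ → ℝ) :
    ∑ θ ∈ ((Icc 1 B).biUnion AA).filter
      (fun θ => ∑ b ∈ Icc 1 B, (if θ ∈ AA b then w b else 0) ≠ 0),
      ((∑ b ∈ Icc 1 B, if θ ∈ AA b then w b else 0 : ℤ) : ℝ) * F θ =
      ∑ b ∈ Icc 1 B, w b * ∑ u ∈ range b, F ((u : ℚ) / b) := by
  rw [sum_filter_of_ne (p := fun θ => ∑ b ∈ Icc 1 B, (if θ ∈ AA b then w b else 0) ≠ 0)
    fun θ _ h h2 => h (by rw [h2, Int.cast_zero, zero_mul])]
  simp only [Int.cast_sum, sum_mul]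
  rw [sum_comm]
  refine sum_congr rfl fun b hb => ?_
  have hb' : (b : ℚ) ≠ 0 := by have := (mem_Icc.1 hb).1; positivity
  simp only [Int.cast_ite, Int.cast_zero, ite_mul, zero_mul]
  rw [sum_ite_mem, inter_eq_right.2 (subset_biUnion_of_mem AA hb), ← mul_sum, AA,
    sum_image fun x _ y _ h => by exact_mod_cast (div_left_inj' hb').1 h]

theorem elim {s : ℕ} (S : Finset ℕ)
    (hS : ∀ m, Odd m → 3 ≤ m → m ≤ s → (∀ q : ℚ, riemannZeta m ≠ q) → m ∈ S) :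
    ∃ f : ℕ, 2 * f ≤ (#S + 3) ^ 2 ∧ ∀ a h r P : ℕ, a + h = s → 2 ≤ r → 0 < P →
      2 * (f + (a / (h + 1) + 1) + 1) ≤ a →
      ¬ 40 * ((h + 1) * f) * r * Real.log r +
        f * (P * Real.log 2 + (1 + 1 / P) * Real.log (#S + 3 : ℕ)) + 40 * (a + h) ≤
        ((a : ℝ) - (f + (a / (h + 1) + 1) + 1 : ℕ)) * Real.log r / 2 := by
  obtain ⟨w, ⟨b1, hb1, hw1⟩, hw⟩ := exists_w S
  obtain ⟨B, hB⟩ : ∃ B, B = #S + 3 := ⟨_, rfl⟩
  rw [← hB] at hb1 hw ⊢
  obtain ⟨T, hT⟩ : ∃ T, T = ((Icc 1 B).biUnion AA).filter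
      (fun θ => ∑ b ∈ Icc 1 B, (if θ ∈ AA b then w b else 0) ≠ 0) := ⟨_, rfl⟩
  have h0 : ∑ b ∈ Icc 1 B, w b = 0 := by simpa using hw 0 (mem_insert_self _ _)
  have hmem : ∀ θ ∈ T, ∃ b ∈ Icc 1 B, ∃ u ∈ Ico 1 b, (u : ℚ) / b = θ := fun θ hθ => by
    rw [hT, mem_filter, mem_biUnion] at hθ
    obtain ⟨⟨b, hb, h1⟩, h2⟩ := hθ
    obtain ⟨u, hu, rfl⟩ := mem_image.1 h1
    refine ⟨b, hb, u, mem_Ico.2 ⟨Nat.pos_of_ne_zero ?_, mem_range.1 hu⟩, rfl⟩
    rintro rfl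
    refine h2 (Eq.trans (sum_congr rfl fun c hc => if_pos ?_) h0)
    exact mem_image.2 ⟨0, mem_range.2 (mem_Icc.1 hc).1, by simp⟩
  obtain ⟨b0, hb0, hmax⟩ := exists_max_image ((Icc 1 B).filter fun b => w b ≠ 0) id
    ⟨b1, mem_filter.2 ⟨hb1, hw1⟩⟩
  rw [mem_filter] at hb0
  have hz : ∀ b ∈ Icc 1 B, b0 < b → w b = 0 := fun b hb h => by
    by_contra h2
    exact absurd (hmax b (mem_filter.2 ⟨hb, h2⟩)) (not_le.2 h)
  have hb2 : 2 ≤ b0 := by
    by_contra h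
    have h1 := (mem_Icc.1 hb0.1).1
    rw [sum_eq_single b0 (fun b hb h2 => hz b hb (by have := (mem_Icc.1 hb).1; omega))
      fun h2 => absurd hb0.1 h2] at h0
    exact hb0.2 h0
  have hA : ((1 : ℕ) : ℚ) / b0 ∈ AA b0 := mem_image.2 ⟨1, mem_range.2 hb2, rfl⟩
  have hne : ((1 : ℕ) : ℚ) / b0 ∈ T := by
    rw [hT, mem_filter]
    refine ⟨mem_biUnion.2 ⟨b0, hb0.1, hA⟩, ?_⟩
    rw [sum_eq_single b0 (fun b hb h2 => ?_) fun h2 => absurd hb0.1 h2, if_pos hA]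
    · exact hb0.2
    · split_ifs with h3
      · obtain ⟨u, -, hu⟩ := mem_image.1 h3
        have h4 := (mem_Icc.1 hb).1
        rw [div_eq_div_iff (by positivity) (by positivity)] at hu
        have h5 : u * b0 = 1 * b := by exact_mod_cast hu
        refine hz b hb ?_
        rcases u with _ | u
        · omega
        · have : b0 ≤ b := by nlinarith
          omega
      · rfl
  refine ⟨#T, ?_, fun a h r P hs hr hP hG hmain => ?_⟩
  · have h1 : #T ≤ ∑ b ∈ Icc 1 B, (b - 1) := by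
      refine (card_le_card (t := (Icc 1 B).biUnion fun b => (Ico 1 b).image fun u : ℕ => (u : ℚ) / b)
        fun θ hθ => ?_).trans (card_biUnion_le.trans (sum_le_sum fun b _ =>
          card_image_le.trans_eq (Nat.card_Ico _ _)))
      obtain ⟨b, hb, u, hu, e⟩ := hmem θ hθ
      exact mem_biUnion.2 ⟨b, hb, mem_image.2 ⟨u, hu, e⟩⟩
    have h2 : ∀ n : ℕ, 2 * ∑ b ∈ Icc 1 n, (b - 1) + n = n ^ 2 := fun n => by
      induction n with
      | zero => simp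
      | succ n ih =>
        rw [sum_Icc_succ_top (by omega), Nat.add_sub_cancel]
        nlinarith
    have := h2 B
    omega
  have : Nonempty T := ⟨⟨_, hne⟩⟩
  have hsum : ∀ F : ℚ → ℝ, ∑ k : T, ((∑ b ∈ Icc 1 B, if (k : ℚ) ∈ AA b then w b else 0 : ℤ) : ℝ) * F k =
      ∑ b ∈ Icc 1 B, w b * ∑ u ∈ range b, F ((u : ℚ) / b) := fun F => by
    rw [← sum_AA, ← hT]
    exact sum_coe_sort T fun θ => ((∑ b ∈ Icc 1 B, if θ ∈ AA b then w b else 0 : ℤ) : ℝ) * F θ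
  refine core (ι := T) (B := B) (a := a) (h := h) (fun k => (k : ℚ))
    (fun k => ∑ b ∈ Icc 1 B, if (k : ℚ) ∈ AA b then w b else 0) (fun k => ?_) Subtype.val_injective
    (fun k => ?_) (fun k => (mem_filter.1 (hT.subset k.2)).2) ?_ (fun l h2 hl => ?_) hr hP
    (by rwa [Fintype.card_coe]) (by rwa [Fintype.card_coe])
  · obtain ⟨b, hb, u, hu, e⟩ := hmem k k.2
    rw [mem_Ico] at hu
    have h1 : (0 : ℚ) < u := by exact_mod_cast hu.1
    have h2 : (u : ℚ) < b := by exact_mod_cast hu.2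
    rw [← e]
    exact ⟨div_pos h1 (by linarith), (div_lt_one (by linarith)).2 h2⟩
  · obtain ⟨b, hb, u, hu, e⟩ := hmem k k.2
    rw [mem_Icc] at hb
    have h1 := Rat.den_dvd u b
    rw [Rat.divInt_eq_div, Int.natCast_dvd_natCast, Int.cast_natCast, Int.cast_natCast, e] at h1
    exact (Nat.le_of_dvd hb.1 h1).trans hb.2
  · have h1 := hsum fun _ => 1
    have h2 := hw 1 (mem_insert_of_mem (mem_insert_self _ _))
    simp only [mul_one, sum_const, card_range, nsmul_eq_mul, pow_one] at h1 h2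
    exact_mod_cast h1.trans (by exact_mod_cast h2 : _ = (0 : ℝ))
  · have e : ∑ b ∈ Icc 1 B, (w b : ℝ) * ∑ u ∈ range b, Hz l (((u : ℚ) / b : ℚ) : ℝ) =
        (∑ b ∈ Icc 1 B, w b * b ^ l : ℤ) * Hz l 0 := by
      push_cast [sum_mul, -Rat.cast_div]
      exact sum_congr rfl fun b hb => by rw [sum_Hz (mem_Icc.1 hb).1 h2, mul_assoc]
    rw [hsum fun θ => Hz l θ, e]
    have h3 := Hz_zero h2
    rcases Nat.even_or_odd l with h4 | h4
    · rw [h4.neg_pow, one_pow, sub_self, zero_mul] at h3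
      exact ⟨0, by rw [Complex.ofReal_eq_zero.1 h3, mul_zero, Rat.cast_zero]⟩
    by_cases h5 : ∀ q : ℚ, riemannZeta l ≠ q
    · rw [hw l (mem_insert_of_mem (mem_insert_of_mem
        (hS l h4 (by obtain ⟨k, rfl⟩ := h4; omega) (by omega) h5)))]
      exact ⟨0, by simp⟩
    · push Not at h5
      obtain ⟨q, hq⟩ := h5
      have h6 : Hz l 0 = ((1 - (-1) ^ l) * q : ℚ) := by
        rw [hq] at h3
        exact_mod_cast h3
      exact ⟨(∑ b ∈ Icc 1 B, w b * b ^ l : ℤ) * ((1 - (-1) ^ l) * q), by rw [h6]; push_cast; rfl⟩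

end Pool.Agent.MP_807c24_nt.H42
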