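import Pool.Agent.MP_807c24_nt.H42.Elim

namespace Pool.Agent.MP_807c24_nt.H42

open Finset Filter Topology

theorem ev : ∀ᶠ s : ℕ in atTop, 1000000 ≤ Real.log s ∧ 40000 ≤ Real.log (Real.log s) ∧
    40040000 * Real.log (Real.log s) ≤ Real.log s ^ (0.001 : ℝ) ∧ 1000000 * Real.log s ≤ s := by
  have t1 : Tendsto (fun s : ℕ => Real.log s) atTop atTop :=
    Real.tendsto_log_atTop.comp tendsto_natCast_atTop_atTop
  have t2 := (isLittleO_log_rpow_atTop (r := 0.001) (by norm_num)).bound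
    (c := 1 / 40040000) (by norm_num)
  have t3 := Real.isLittleO_log_id_atTop.bound (c := 1 / 1000000) (by norm_num)
  filter_upwards [t1.eventually_ge_atTop 1000000,
    (Real.tendsto_log_atTop.comp t1).eventually_ge_atTop 40000, t1.eventually t2,
    tendsto_natCast_atTop_atTop.eventually t3] with s h1 h2 h3 h4
  rw [Real.norm_eq_abs, Real.norm_of_nonneg (by positivity)] at h3
  rw [Real.norm_eq_abs, id, Real.norm_of_nonneg (by positivity)] at h4
  exact ⟨h1, h2, by linarith [le_abs_self (Real.log (Real.log s))],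
    by linarith [le_abs_self (Real.log s)]⟩

theorem numeric {s y z f B q L r : ℝ} (hy : 1000000 ≤ y) (hz : 40000 ≤ z) (hs : 1000000 * y ≤ s)
    (hf0 : 0 ≤ f) (hf : f * y ≤ 0.985 * s * z) (hB : 2 * B ≤ y) (hq : 1001 * q ≤ s)
    (hL : 0.999 * z - 1 ≤ L) (hL2 : L ≤ z) (hr : 40040000 * z * r ≤ y) (hr0 : 2 ≤ r) :
    40 * ((1000 + 1) * f) * r * L + f * (1000 * Real.log 2 + (1 + 1 / 1000) * B) + 40 * s ≤
      (s - 1000 - (f + (q + 1) + 1)) * L / 2 := by
  have hs0 : 0 < s := by linarith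
  have hsz : 40000 * s ≤ s * z := by nlinarith
  have l2 := Real.log_two_lt_d9
  have a1 : 40 * ((1000 + 1) * f) * r * L ≤ 0.001 * (s * z) := by
    have : f * r * L ≤ f * r * z := by gcongr
    have : f * (40040000 * z * r) ≤ f * y := by gcongr
    nlinarith
  have a2 : f * (1000 * Real.log 2 + (1 + 1 / 1000) * B) ≤ f * (0.5015 * y) := by
    gcongr
    linarith
  have a3 : f ≤ 0.0005 * s := by
    have h1 : 40040000 * z * 2 ≤ y := le_trans (by gcongr) hr
    have h2 : s * (40040000 * z * 2) ≤ s * y := by gcongr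
    refine le_of_mul_le_mul_right ?_ (show 0 < y by linarith)
    nlinarith
  have a4 : 0.998 * s * (0.998 * z) ≤ (s - 1000 - (f + (q + 1) + 1)) * L := by
    gcongr <;> linarith
  nlinarith

theorem final : ∃ s₀ : ℕ, ∀ s ≥ s₀,
    1.4 * √(s * Real.log (Real.log s) / Real.log s) ≤
      ({m : ℕ | Odd m ∧ 3 ≤ m ∧ m ≤ s ∧ ∀ q : ℚ, riemannZeta m ≠ q}.ncard : ℝ) := by
  obtain ⟨s₀, h0⟩ := eventually_atTop.1 ev
  refine ⟨s₀, fun s hs => ?_⟩
  obtain ⟨hy, hz, h3, h4⟩ := h0 s hs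
  have hfin : {m : ℕ | Odd m ∧ 3 ≤ m ∧ m ≤ s ∧ ∀ q : ℚ, riemannZeta m ≠ q}.Finite :=
    (Set.finite_le_nat s).subset fun m hm => hm.2.2.1
  rw [Set.ncard_eq_toFinset_card _ hfin]
  obtain ⟨f, hf, H⟩ := elim (s := s) hfin.toFinset fun m h1 h2 h3 h4 =>
    hfin.mem_toFinset.2 ⟨h1, h2, h3, h4⟩
  generalize hfin.toFinset.card = N at hf H
  obtain ⟨y, hy'⟩ : ∃ y, y = Real.log s := ⟨_, rfl⟩
  rw [← hy'] at hy hz h3 h4 ⊢
  obtain ⟨z, hz'⟩ : ∃ z, z = Real.log y := ⟨_, rfl⟩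
  rw [← hz'] at hz h3 ⊢
  by_contra hN
  push Not at hN
  have hy0 : 0 < y := by linarith
  have hs0 : (0 : ℝ) < s := by linarith
  obtain ⟨t, ht⟩ : ∃ t, t = √(s * z / y) := ⟨_, rfl⟩
  rw [← ht] at hN
  have ht2 : t ^ 2 * y = s * z := by
    rw [ht, Real.sq_sqrt (by positivity)]
    field_simp
  have ht1 : 1000 ≤ t := by
    rw [ht]
    refine Real.le_sqrt_of_sq_le ((le_div_iff₀ hy0).2 ?_)
    nlinarith
  have hB : ((N + 3 : ℕ) : ℝ) ^ 2 ≤ 1.97 * t ^ 2 := by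
    have : ((N + 3 : ℕ) : ℝ) ≤ 1.403 * t := by push_cast; linarith
    calc _ ≤ (1.403 * t) ^ 2 := by gcongr
      _ ≤ _ := by nlinarith
  have hf' : 2 * (f : ℝ) ≤ ((N + 3 : ℕ) : ℝ) ^ 2 := by exact_mod_cast hf
  have hfy : f * y ≤ 0.985 * s * z := by nlinarith
  have hρ : y ^ (0.001 : ℝ) * y ^ (0.999 : ℝ) = y := by
    rw [← Real.rpow_add hy0]
    norm_num
  have hρ1 : y ^ (0.001 : ℝ) ≤ y ^ (0.999 : ℝ) :=
    Real.rpow_le_rpow_of_exponent_le (by linarith) (by norm_num)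
  obtain ⟨r, hr⟩ : ∃ r, r = ⌊y ^ (0.999 : ℝ)⌋₊ := ⟨_, rfl⟩
  have hr1 : (r : ℝ) ≤ y ^ (0.999 : ℝ) := hr ▸ Nat.floor_le (by positivity)
  have hr2 : y ^ (0.999 : ℝ) < r + 1 := hr ▸ Nat.lt_floor_add_one _
  have hr3 : (2 : ℝ) ≤ r := by linarith
  have hlog : Real.log (y ^ (0.999 : ℝ)) = 0.999 * z := by rw [Real.log_rpow hy0, hz']
  have hL1 : 0.999 * z - 1 ≤ Real.log r := by
    have h1 := Real.log_le_log (by positivity) (show y ^ (0.999 : ℝ) ≤ 2 * r by linarith)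
    rw [Real.log_mul (by norm_num) (by linarith)] at h1
    linarith [Real.log_two_lt_d9]
  have hL2 : Real.log r ≤ z := by linarith [Real.log_le_log (by linarith) hr1]
  have hzr : 40040000 * z * r ≤ y := by
    rw [← hρ]
    gcongr
  have hzy : 40040000 * z * 2 ≤ y := le_trans (by gcongr) hzr
  have hlB : 2 * Real.log (N + 3 : ℕ) ≤ y := by
    have h1 : ((N + 3 : ℕ) : ℝ) ^ 2 ≤ s := by
      refine hB.trans (le_of_mul_le_mul_right ?_ hy0)
      have : s * (40040000 * z * 2) ≤ s * y := by gcongr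
      nlinarith
    have h2 := Real.log_le_log (by positivity) h1
    rw [Real.log_pow, ← hy'] at h2
    exact_mod_cast h2
  have hs1 : 1000 ≤ s := by exact_mod_cast (show (1000 : ℝ) ≤ s by linarith)
  have ha : ((s - 1000 : ℕ) : ℝ) = s - 1000 := by rw [Nat.cast_sub hs1]; norm_num
  have hq : 1001 * (((s - 1000) / (1000 + 1) : ℕ) : ℝ) ≤ s := by
    exact_mod_cast (show 1001 * ((s - 1000) / (1000 + 1)) ≤ s by omega)
  refine H (s - 1000) 1000 r 1000 (by omega) (by exact_mod_cast hr3) (by norm_num) ?_ ?_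
  · have h1 : (f : ℝ) ≤ 0.0005 * s := by
      have h2 : s * (40040000 * z * 2) ≤ s * y := by gcongr
      refine le_of_mul_le_mul_right ?_ hy0
      nlinarith
    have h2 : 2000 * f ≤ s := by exact_mod_cast (show 2000 * (f : ℝ) ≤ s by linarith)
    have h5 : 10000 ≤ s := by exact_mod_cast (show (10000 : ℝ) ≤ s by linarith)
    omega
  · have := numeric hy hz h4 (Nat.cast_nonneg f) hfy hlB hq hL1 hL2 hzr hr3
    rw [ha]
    generalize (s - 1000) / (1000 + 1) = q at this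
    generalize Real.log (N + 3 : ℕ) = B at this
    push_cast
    linarith

end Pool.Agent.MP_807c24_nt.H42
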