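import Pool.Agent.MP_807c24_nt.H42.ZE4

namespace Pool.Agent.MP_807c24_nt.H42

open Finset Polynomial

/-- Taylor coefficients -/
noncomputable def tc (W : ℝ[X]) (y : ℝ) (k : ℕ) : ℝ := (taylor y W).coeff k

/-- divided difference -/
noncomputable def Vq (W : ℝ[X]) (t : ℝ) : ℝ[X] := W /ₘ (X - C t)

/-- polynomial part of `W / (X - y) ^ l` -/
noncomputable def Pol (l : ℕ) (y : ℝ) (W : ℝ[X]) : ℝ[X] := taylor (-y) (divX^[l] (taylor y W))

/-- the residue pairing -/
noncomputable def res (a n : ℕ) (c : ℕ → ℕ → ℝ) (q : ℝ[X]) : ℝ :=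
  ∑ i ∈ range a, ∑ j ∈ range n, c i j * tc q (j + 1) i

theorem coeff_iter_divX (f : ℝ[X]) (l k : ℕ) : (divX^[l] f).coeff k = f.coeff (k + l) := by
  induction l generalizing k with
  | zero => rfl
  | succ l ih => rw [Function.iterate_succ_apply', coeff_divX, ih, add_assoc, add_comm 1]

theorem Vq_spec (W : ℝ[X]) (t : ℝ) : (X - C t) * Vq W t + C (W.eval t) = W := by
  rw [← modByMonic_X_sub_C_eq_C_eval, add_comm]
  exact modByMonic_add_div W _

theorem Vq_natDegree (W : ℝ[X]) (t : ℝ) : (Vq W t).natDegree ≤ W.natDegree :=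
  natDegree_le_natDegree (degree_divByMonic_le _ _)

theorem Pol_eval (l : ℕ) (y t : ℝ) (W : ℝ[X]) : (Pol (l + 1) y W).eval t = tc (Vq W t) y l := by
  have e : divX^[l + 1] (taylor y W) =
      (X + C (y - t)) * divX^[l + 1] (taylor y (Vq W t)) + C (tc (Vq W t) y l) := by
    have e1 : taylor y W = (X + C (y - t)) * taylor y (Vq W t) + C (W.eval t) := by
      conv_lhs => rw [← Vq_spec W t]
      rw [map_add, taylor_mul, map_sub, taylor_X, taylor_C, taylor_C, C_sub]
      ring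
    rw [e1, tc]
    generalize taylor y (Vq W t) = f
    ext k
    simp only [coeff_iter_divX, add_mul, coeff_add, coeff_C_mul, ← add_assoc, coeff_X_mul,
      coeff_C_succ]
    rcases k with _ | k
    · simp
      ring
    · simp only [coeff_X_mul, coeff_iter_divX, coeff_C_succ]
      rw [show k + 1 + l = k + (l + 1) by omega]
  rw [Pol, taylor_eval, e, eval_add, eval_mul, eval_add, eval_X, eval_C, eval_C]
  ring

theorem taylor_expand (f : ℝ[X]) (x : ℝ) (l : ℕ) :
    f.eval x = x ^ l * (divX^[l] f).eval x + ∑ k ∈ range l, f.coeff k * x ^ k := by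
  induction l with
  | zero => simp
  | succ l ih =>
    rw [ih, sum_range_succ, Function.iterate_succ_apply']
    conv_lhs => rw [← divX_mul_X_add (divX^[l] f)]
    simp only [eval_add, eval_mul, eval_X, eval_C, coeff_iter_divX, zero_add]
    ring

theorem div_pow_eq (W : ℝ[X]) {y t : ℝ} (h : t - y ≠ 0) (l : ℕ) :
    W.eval t / (t - y) ^ (l + 1) =
      tc (Vq W t) y l + ∑ k ∈ range (l + 1), tc W y k / (t - y) ^ (l + 1 - k) := by
  have e := taylor_expand (taylor y W) (t - y) (l + 1)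
  rw [taylor_eval, sub_add_cancel] at e
  rw [← Pol_eval, Pol, taylor_eval, ← sub_eq_add_neg, e, add_div, sum_div,
    mul_div_cancel_left₀ _ (pow_ne_zero _ h)]
  congr 1
  refine sum_congr rfl fun k hk => ?_
  have := mem_range.1 hk
  rw [tc, show (t - y) ^ (l + 1) = (t - y) ^ (l + 1 - k) * (t - y) ^ k by
    rw [← pow_add, Nat.sub_add_cancel (by omega)]]
  field_simp

theorem res_cp {a n ω : ℕ} {c : ℕ → ℕ → ℝ} (hc : ∀ q : ℝ[X], q.natDegree < ω → res a n c q = 0)
    {W : ℝ[X]} (hW : W.natDegree < ω) (p : ℕ) :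
    ∑ i ∈ range a, ∑ j ∈ range n, cp i p * c i j * tc W (j + 1) (i + p) = 0 := by
  have := hc (hasseDeriv p W) (((natDegree_hasseDeriv_le W p).trans (Nat.sub_le _ _)).trans_lt hW)
  rw [← mul_zero ((-1 : ℝ) ^ p), ← this, res, mul_sum]
  refine sum_congr rfl fun i _ => ?_
  rw [mul_sum]
  refine sum_congr rfl fun j _ => ?_
  have e := LinearMap.congr_fun (hasseDeriv_comp (R := ℝ) i p) W
  rw [LinearMap.comp_apply, LinearMap.smul_apply] at e
  simp only [tc, taylor_coeff, e, cp, nsmul_eq_mul, Nat.choose_symm_add (a := i), eval_mul,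
    eval_natCast]
  ring

/-- the pairing of polynomials with power series -/
noncomputable def pair : ℝ[X] →ₗ[ℝ] PowerSeries ℝ →ₗ[ℝ] ℝ :=
  LinearMap.compr₂ (aeval (PowerSeries.derivative ℝ).toLinearMap :
    ℝ[X] →ₐ[ℝ] Module.End ℝ (PowerSeries ℝ)).toLinearMap (PowerSeries.coeff 0)

theorem pair_apply (W : ℝ[X]) (f : PowerSeries ℝ) : pair W f = PowerSeries.constantCoeff
    ((aeval (PowerSeries.derivative ℝ).toLinearMap W : Module.End ℝ (PowerSeries ℝ)) f) := by
  simp [pair]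

theorem pair_C_mul (W : ℝ[X]) (r : ℝ) (f : PowerSeries ℝ) :
    pair W (PowerSeries.C r * f) = r * pair W f := by
  rw [← PowerSeries.smul_eq_C_mul, map_smul, smul_eq_mul]

theorem pair_C (r : ℝ) (f : PowerSeries ℝ) : pair (C r) f = r * PowerSeries.constantCoeff f := by
  simp [pair_apply, Module.algebraMap_end_apply]

theorem pair_mul_X (W : ℝ[X]) (f : PowerSeries ℝ) :
    pair (W * X) f = pair W (PowerSeries.derivative ℝ f) := by
  simp [pair_apply]

theorem pair_shift (W : ℝ[X]) (y : ℝ) (f : PowerSeries ℝ) :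
    pair W (Ex y * f) = pair (taylor y W) f := by
  induction W using Polynomial.induction_on generalizing f with
  | C r => simp [pair_C, Ex_const]
  | add p q hp hq => simp only [map_add, LinearMap.add_apply, hp, hq]
  | monomial k r ih =>
    rw [pow_succ, ← mul_assoc, pair_mul_X, taylor_mul, taylor_X, mul_add, map_add,
      LinearMap.add_apply, pair_mul_X, deriv_mul, Ex_deriv, map_add, mul_assoc, pair_C_mul, ih, ih,
      mul_comm _ (C y), ← smul_eq_C_mul y, map_smul, LinearMap.smul_apply, smul_eq_mul, add_comm]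

theorem pair_divX (W : ℝ[X]) (f : PowerSeries ℝ) : pair W f =
    W.coeff 0 * PowerSeries.constantCoeff f + pair (divX W) (PowerSeries.derivative ℝ f) := by
  conv_lhs => rw [← divX_mul_X_add W]
  rw [map_add, LinearMap.add_apply, pair_mul_X, pair_C, add_comm]

theorem pair_Ex (W : ℝ[X]) (x : ℝ) : pair W (Ex x) = W.eval x := by
  rw [← mul_one (Ex x), pair_shift, pair_divX]
  simp

theorem pair_X_pow (k : ℕ) (f : PowerSeries ℝ) :
    pair (X ^ k) f = k.factorial * PowerSeries.coeff k f := by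
  induction k generalizing f with
  | zero => simpa using pair_C 1 f
  | succ k ih =>
    rw [pow_succ, pair_mul_X, ih, PowerSeries.coeff_derivative, Nat.factorial_succ]
    push_cast
    ring

theorem pair_chain {B : ℕ → PowerSeries ℝ} (hB : ∀ l, PowerSeries.derivative ℝ (B (l + 1)) = B l)
    (l : ℕ) (W : ℝ[X]) : pair W (B l) =
      ∑ k ∈ range l, W.coeff k * PowerSeries.constantCoeff (B (l - k)) +
        pair (divX^[l] W) (B 0) := by
  induction l generalizing W with
  | zero => simp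
  | succ l ih =>
    rw [pair_divX, hB, ih, sum_range_succ', Function.iterate_succ_apply]
    simp only [coeff_divX, Nat.add_sub_add_right, Nat.sub_zero]
    ring

theorem dual {σ : Type*} [DecidableEq σ] (s : Finset σ) (v : σ → ℝ) (hv : Set.InjOn v s)
    (Φ : PowerSeries ℝ) {κ : ℕ} (hκ : 0 < κ)
    (h : ∀ q : ℝ[X], q.natDegree < κ → pair (Lagrange.nodal s v * q) Φ = 0) :
    ∃ V : σ → ℝ, PowerSeries.X ^ (s.card + κ) ∣ Φ - ∑ x ∈ s, PowerSeries.C (V x) * Ex (v x) := by
  refine ⟨fun x => pair (Lagrange.basis s v x) Φ, PowerSeries.X_pow_dvd_iff.2 fun k hk => ?_⟩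
  have hm : (Lagrange.nodal s v).Monic := Lagrange.nodal_monic
  have e1 := modByMonic_add_div (X ^ k : ℝ[X]) (Lagrange.nodal s v)
  have e2 : (X ^ k : ℝ[X]) %ₘ Lagrange.nodal s v = Lagrange.interpolate s v fun x => v x ^ k := by
    refine Lagrange.eq_interpolate_of_eval_eq _ hv ?_ fun x hx => ?_
    · rw [← Lagrange.degree_nodal (v := v)]
      exact degree_modByMonic_lt _ hm
    · have := congrArg (eval (v x)) e1
      simpa [Lagrange.eval_nodal_at_node hx] using this
  have e3 := h (X ^ k /ₘ Lagrange.nodal s v) (by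
    rw [natDegree_divByMonic _ hm, natDegree_X_pow, Lagrange.natDegree_nodal]
    omega)
  apply mul_left_cancel₀ (show (k.factorial : ℝ) ≠ 0 by positivity)
  rw [← pair_X_pow, map_sub, map_sum, mul_zero, sub_eq_zero]
  conv_lhs => rw [← e1]
  rw [map_add, LinearMap.add_apply, e3, add_zero, e2, Lagrange.interpolate_apply, map_sum,
    LinearMap.sum_apply]
  refine sum_congr rfl fun x _ => ?_
  rw [pair_C_mul, pair_Ex, ← smul_eq_C_mul, map_smul, LinearMap.smul_apply]
  simp [mul_comm]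

theorem vanish_of_basis (L : ℝ[X] →ₗ[ℝ] ℝ) (q : ℕ → ℝ[X]) (hq : ∀ e, (q e).degree = e) (κ : ℕ)
    (h : ∀ e < κ, L (q e) = 0) (W : ℝ[X]) (hW : W.natDegree < κ) : L W = 0 := by
  let S : Polynomial.Sequence ℝ := ⟨q, hq⟩
  have h1 := S.span_degreeLT (m := κ) fun i _ =>
    (leadingCoeff_ne_zero.2 (S.ne_zero i)).isUnit
  have h2 : W ∈ degreeLT ℝ κ := mem_degreeLT.2 (degree_le_natDegree.trans_lt (by exact_mod_cast hW))
  rw [← h1] at h2
  refine (Submodule.span_le (p := LinearMap.ker L)).2 ?_ h2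
  rintro _ ⟨e, he, rfl⟩
  exact h e he

variable {ι : Type*} [Fintype ι]

theorem exists_chain (θ w : ι → ℝ) (hw : ∑ k, w k = 0) (η : ℕ → ℝ) :
    ∃ B : ℕ → PowerSeries ℝ, (∀ l, PowerSeries.derivative ℝ (B (l + 1)) = B l) ∧
      (∀ l, PowerSeries.constantCoeff (B (l + 1)) = η (l + 1)) ∧
      (1 - Ex 1) * B 0 = ∑ k, PowerSeries.C (w k) * Ex (θ k) := by
  obtain ⟨u, hu1, hu⟩ := exists_unit
  obtain ⟨R1, hR⟩ : PowerSeries.X ∣ ∑ k, PowerSeries.C (w k) * Ex (θ k) := by
    rw [PowerSeries.X_dvd_iff]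
    simp [Ex_const, hw]
  refine ⟨fun l => Nat.rec (- (R1 * u⁻¹)) (fun l b => PowerSeries.mk fun k =>
    if k = 0 then η (l + 1) else PowerSeries.coeff (k - 1) b / k) l, fun l => ?_, fun l => ?_, ?_⟩
  · ext k
    simp only [PowerSeries.coeff_derivative, PowerSeries.coeff_mk, Nat.add_eq_zero_iff,
      one_ne_zero, and_false, if_false, Nat.add_sub_cancel]
    push_cast
    field_simp
  · rw [← PowerSeries.coeff_zero_eq_constantCoeff_apply]
    simp
  · have e : 1 - Ex 1 = - (PowerSeries.X * u) := by rw [← hu]; ring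
    have e2 := PowerSeries.mul_inv_cancel u (by rw [hu1]; exact one_ne_zero)
    rw [hR, e]
    show - (PowerSeries.X * u) * - (R1 * u⁻¹) = _
    linear_combination PowerSeries.X * R1 * e2

/-- the linear form attached to `c`, `p` and `W` -/
noncomputable def form (a n : ℕ) (c : ℕ → ℕ → ℝ) (θ w : ι → ℝ) (η : ℕ → ℝ) (p : ℕ) (W : ℝ[X]) :
    ℝ :=
  ∑ i ∈ range a, ∑ j ∈ range n, cp i p * c i j *
    (∑ k ∈ range (i + p), tc W (j + 1) k * η (i + p + 1 - k) -
      2 * ∑ k, w k * ∑ m ∈ range (j + 1), tc (Vq W (θ k + m)) (j + 1) (i + p))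

theorem pair_B0 {θ w : ι → ℝ} {b : PowerSeries ℝ}
    (hb : (1 - Ex 1) * b = ∑ k, PowerSeries.C (2 * w k) * Ex (θ k)) (Q : ℝ[X]) (y : ℕ) :
    pair Q (Ex y * b) = pair Q b - 2 * ∑ k, w k * ∑ m ∈ range y, Q.eval (θ k + m) := by
  induction y with
  | zero => simp [Ex_zero]
  | succ y ih =>
    have e : Ex ((y + 1 : ℕ) : ℝ) * b = Ex y * b - Ex y * ((1 - Ex 1) * b) := by
      push_cast
      rw [← Ex_mul]
      ring
    rw [e, map_sub, ih, hb, mul_sum (a := Ex y), map_sum]
    simp only [sum_range_succ, mul_add, sum_add_distrib, mul_left_comm (Ex y), Ex_mul, pair_C_mul,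
      pair_Ex, add_comm (y : ℝ), mul_assoc, ← mul_sum]
    ring

theorem pair_eq_form {a n ω : ℕ} {c : ℕ → ℕ → ℝ}
    (hc : ∀ q : ℝ[X], q.natDegree < ω → res a n c q = 0) {θ w : ι → ℝ} {η : ℕ → ℝ}
    {B : ℕ → PowerSeries ℝ} (hB : ∀ l, PowerSeries.derivative ℝ (B (l + 1)) = B l)
    (hη : ∀ l, PowerSeries.constantCoeff (B (l + 1)) = η (l + 1))
    (hb : (1 - Ex 1) * B 0 = ∑ k, PowerSeries.C (2 * w k) * Ex (θ k)) {W : ℝ[X]}
    (hW : W.natDegree < ω) (p : ℕ) :
    pair W (∑ i ∈ range a, ∑ j ∈ range n,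
      PowerSeries.C (cp i p * c i j) * (Ex (j + 1) * B (i + p + 1))) = form a n c θ w η p W := by
  have h1 := res_cp hc hW p
  have h2 : ∑ i ∈ range a, ∑ j ∈ range n, (cp i p * c i j) • Pol (i + p + 1) (j + 1) W = 0 := by
    refine Polynomial.funext fun t => ?_
    simp only [eval_finsetSum, eval_smul, Pol_eval, smul_eq_mul, eval_zero]
    exact res_cp hc ((Vq_natDegree W t).trans_lt hW) p
  have h3 := congrArg (fun Q => pair Q (B 0)) h2
  simp only [map_sum, map_smul, LinearMap.sum_apply, LinearMap.smul_apply, smul_eq_mul, map_zero,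
    LinearMap.zero_apply] at h3
  have key : ∀ i j : ℕ, pair W (Ex (j + 1) * B (i + p + 1)) =
      (∑ k ∈ range (i + p), tc W (j + 1) k * η (i + p + 1 - k) -
        2 * ∑ k, w k * ∑ m ∈ range (j + 1), tc (Vq W (θ k + m)) (j + 1) (i + p)) +
        tc W (j + 1) (i + p) * η 1 + pair (Pol (i + p + 1) (j + 1) W) (B 0) := by
    intro i j
    have e1 := pair_B0 hb (Pol (i + p + 1) (j + 1) W) (j + 1)
    rw [pair_shift, Pol, taylor_taylor] at e1
    push_cast at e1
    rw [add_neg_cancel, taylor_zero, ← Pol] at e1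
    simp only [Pol_eval] at e1
    rw [pair_shift, pair_chain hB, sum_range_succ, e1, Nat.add_sub_cancel_left, hη 0,
      sum_congr rfl (g := fun k => tc W (j + 1) k * η (i + p + 1 - k)) fun k hk => by
        have := mem_range.1 hk
        rw [show i + p + 1 - k = (i + p - k) + 1 by omega, hη, tc]]
    simp only [tc, zero_add]
    ring
  simp only [map_sum, pair_C_mul, key, form, mul_add, sum_add_distrib, h3, ← mul_assoc _ _ (η 1),
    ← sum_mul, h1]
  simp

/-- if all the forms vanish then the zero estimate applies -/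
theorem nonvanish [DecidableEq ι] [Nonempty ι] {a h n ω κ : ℕ} {θ w : ι → ℝ}
    (hθ : ∀ k, 0 < θ k ∧ θ k < 1) (hinj : Function.Injective θ) (hw : ∀ k, w k ≠ 0)
    (hw0 : ∑ k, w k = 0) {c : ℕ → ℕ → ℝ} (hc0 : ∃ i < a, ∃ j < n, c i j ≠ 0)
    (hc : ∀ q : ℝ[X], q.natDegree < ω → res a n c q = 0) (η : ℕ → ℝ) (hκ : 0 < κ)
    (hω : Fintype.card ι * (n + 1) + κ ≤ ω) {γ : ℝ} (hγ : γ ≠ 0) (q : ℕ → ℝ[X])
    (hq : ∀ e, (q e).degree = e)
    (hz : ∀ p ≤ h, ∀ e < κ, form a n c θ w η p
      (C γ * (∏ k, ∏ m ∈ range (n + 1), (X - C (θ k + m))) * q e) = 0) :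
    (h + 1) * (Fintype.card ι * (n + 1) + κ) ≤
      (a + (h + 1) * Fintype.card ι) * (n + (a + (h + 1) * Fintype.card ι)) := by
  obtain ⟨B, hB, hη, hb⟩ := exists_chain θ (fun k => 2 * w k) (by rw [← mul_sum, hw0, mul_zero]) η
  let s : Finset (ι × ℕ) := univ ×ˢ range (n + 1)
  let v : ι × ℕ → ℝ := fun x => θ x.1 + x.2
  have hv : Set.InjOn v s := by
    rintro ⟨k, m⟩ - ⟨k', m'⟩ - hx
    simp only [v] at hx
    have a1 := hθ k
    have a2 := hθ k'
    have a3 : m = m' := by
      have b1 : (m : ℝ) < m' + 1 := by linarith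
      have b2 : (m' : ℝ) < m + 1 := by linarith
      have b3 : m < m' + 1 := by exact_mod_cast b1
      have b4 : m' < m + 1 := by exact_mod_cast b2
      omega
    subst a3
    rw [hinj (add_right_cancel hx)]
  have hs : s.card = Fintype.card ι * (n + 1) := by simp [s]
  have hn : Lagrange.nodal s v = ∏ k, ∏ m ∈ range (n + 1), (X - C (θ k + m)) := by
    rw [Lagrange.nodal, prod_product]
  have key : ∀ p, p ≤ h → ∃ V : ι × ℕ → ℝ, PowerSeries.X ^ (s.card + κ) ∣
      ∑ i ∈ range a, ∑ j ∈ range n, PowerSeries.C (cp i p * c i j) * (Ex (j + 1) * B (i + p + 1)) -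
        ∑ x ∈ s, PowerSeries.C (V x) * Ex (v x) := by
    intro p hp
    refine dual s v hv _ hκ (vanish_of_basis ((pair.flip _).comp
      (LinearMap.mulLeft ℝ (Lagrange.nodal s v))) q hq κ fun e he => ?_)
    have := hz p hp e he
    rw [← pair_eq_form hc hB hη hb, mul_assoc, ← smul_eq_C_mul, map_smul, LinearMap.smul_apply,
      smul_eq_mul, ← hn] at this
    · exact (mul_eq_zero.1 this).resolve_left hγ
    · rw [← hn, mul_assoc]
      refine (natDegree_C_mul_le _ _).trans_lt (natDegree_mul_le.trans_lt ?_)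
      rw [Lagrange.natDegree_nodal, natDegree_eq_of_degree_eq_some (hq e)]
      omega
  choose! V hV using key
  rw [← hs]
  refine zero_est hθ hinj (w := fun k => 2 * w k) (fun k => mul_ne_zero two_ne_zero (hw k)) hc0 hB
    hb (fun p k m => V p (k, m)) fun p hp => ?_
  have := hV p hp
  rwa [sum_product] at this

end Pool.Agent.MP_807c24_nt.H42
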