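import Mathlib

namespace Pool.Agent.MP_807c24_nt.H42

open Matrix

section general

variable {R : Type*} [CommRing R] {σ : Type*} [Fintype σ]

/-- the Leibniz rule -/
def Leib (δ : R →+ R) : Prop := ∀ x y, δ (x * y) = δ x * y + x * δ y

/-- rows obtained by differentiating a linear form along a system -/
def Rows (δ : R →+ R) (A : Matrix σ σ R) (P : ℕ → σ → R) : Prop :=
  ∀ k, P (k + 1) = (fun i => δ (P k i)) + P k ᵥ* A

theorem Leib.one {δ : R →+ R} (h : Leib δ) : δ 1 = 0 := by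
  have := h 1 1
  simpa using this

theorem Rows.dot {δ : R →+ R} (hδ : Leib δ) {A : Matrix σ σ R} {P : ℕ → σ → R} (hP : Rows δ A P)
    (k : ℕ) (Y : σ → R) :
    δ (P k ⬝ᵥ Y) = P (k + 1) ⬝ᵥ Y + P k ⬝ᵥ ((fun i => δ (Y i)) - A *ᵥ Y) := by
  rw [hP k, add_dotProduct, dotProduct_sub, dotProduct_mulVec]
  simp only [dotProduct, map_sum, hδ _ _, Finset.sum_add_distrib]
  ring

theorem Rows.map {S : Type*} [CommRing S] {δ : R →+ R} {δ' : S →+ S} (φ : R →+* S)
    (hφ : ∀ x, δ' (φ x) = φ (δ x)) {A : Matrix σ σ R} {P : ℕ → σ → R} (hP : Rows δ A P) :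
    Rows δ' (A.map φ) (fun k i => φ (P k i)) := by
  intro k
  funext i
  simp [hP k, hφ, vecMul, dotProduct]

end general

variable {K : Type*} [Field K] {σ : Type*} [Fintype σ] [DecidableEq σ]

theorem exists_stable {δ : K →+ K} (hδ : Leib δ) {A : Matrix σ σ K} {P : ℕ → σ → K}
    (hP : Rows δ A P) (e : σ ≃ Fin (Fintype.card σ)) (hdet : (Matrix.of fun i j => P (e i) j).det = 0) :
    ∃ S : Submodule K (σ → K), (∃ Y ∈ S, Y ≠ 0) ∧ (∀ Y ∈ S, P 0 ⬝ᵥ Y = 0) ∧
      ∀ Y ∈ S, (fun i => δ (Y i)) - A *ᵥ Y ∈ S := by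
  let S : ℕ → Submodule K (σ → K) := fun r =>
    { carrier := {Y | ∀ k < r, P k ⬝ᵥ Y = 0}
      add_mem' := fun {a b} ha hb k hk => by rw [dotProduct_add, ha k hk, hb k hk, add_zero]
      zero_mem' := fun k _ => dotProduct_zero _
      smul_mem' := fun c a ha k hk => by rw [dotProduct_smul, ha k hk, smul_zero] }
  have hS : ∀ r Y, Y ∈ S r ↔ ∀ k < r, P k ⬝ᵥ Y = 0 := fun _ _ => Iff.rfl
  obtain ⟨Y0, hY0, hY⟩ := exists_mulVec_eq_zero_iff.2 hdet
  have hN : Y0 ∈ S (Fintype.card σ) := fun k hk => by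
    have := congrFun hY (e.symm ⟨k, hk⟩)
    simpa [mulVec] using this
  have hanti : ∀ r, S (r + 1) ≤ S r := fun r Y h k hk => h k (by omega)
  obtain ⟨r, hr, hrr⟩ : ∃ r < Fintype.card σ, S r ≤ S (r + 1) := by
    by_contra hcon
    push Not at hcon
    have key : ∀ r ≤ Fintype.card σ, Module.finrank K (S r) + r ≤ Fintype.card σ := by
      intro r
      induction r with
      | zero =>
        intro _
        have := Submodule.finrank_le (S 0)
        simpa using this
      | succ r ih =>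
        intro h
        have h1 := Submodule.finrank_lt_finrank_of_lt
          (lt_of_le_not_ge (hanti r) (hcon r (by omega)))
        have := ih (by omega)
        omega
    have h0 : Module.finrank K (S (Fintype.card σ)) = 0 := by
      have := key _ le_rfl
      omega
    rw [Submodule.finrank_eq_zero] at h0
    rw [h0] at hN
    exact hY0 hN
  refine ⟨S (r + 1), ⟨Y0, fun k hk => hN k (by omega), hY0⟩, fun Y h => h 0 (by omega),
    fun Y h => hrr fun k hk => ?_⟩
  have := hP.dot hδ k Y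
  rw [h k (by omega), h (k + 1) (by omega), map_zero, zero_add] at this
  exact this.symm

/-- a degenerate system of rows for a triangular system is killed by a rank one subsystem -/
theorem rank_one {δ : K →+ K} (hδ : Leib δ) {A : Matrix σ σ K} {P : ℕ → σ → K}
    (hP : Rows δ A P) (rk : σ → ℕ) (hA : ∀ i j, A i j ≠ 0 → j = i ∨ rk j < rk i)
    (e : σ ≃ Fin (Fintype.card σ)) (hdet : (Matrix.of fun i j => P (e i) j).det = 0) :
    ∃ (i0 : σ) (Y : σ → K), Y i0 = 1 ∧ (∀ j, rk j < rk i0 → Y j = 0) ∧ P 0 ⬝ᵥ Y = 0 ∧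
      ∀ i, δ (Y i) = (A *ᵥ Y) i - A i0 i0 * Y i := by
  classical
  obtain ⟨S, hne, h0, hst⟩ := exists_stable hδ hP e hdet
  let N := Fintype.card σ
  let rk' : σ → ℕ := fun i => rk i * N + e i
  have hlt : ∀ i j, rk j < rk i → rk' j < rk' i := fun i j h => by
    have h1 : (e j : ℕ) < N := (e j).2
    have h2 : (rk j + 1) * N ≤ rk i * N := Nat.mul_le_mul_right _ h
    simp only [rk']
    nlinarith
  have hinj : ∀ i j, rk' i = rk' j → i = j := fun i j h => by
    rcases lt_trichotomy (rk i) (rk j) with h1 | h1 | h1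
    · exact absurd h (hlt _ _ h1).ne
    · simp only [rk', h1] at h
      exact e.injective (Fin.ext (by omega))
    · exact absurd h (hlt _ _ h1).ne'
  let Q : ℕ → Prop := fun t => ∃ Y ∈ S, Y ≠ 0 ∧ ∀ j, rk' j < t → Y j = 0
  have hex : ∃ t, ¬ Q (t + 1) := by
    refine ⟨Finset.univ.sup rk', ?_⟩
    rintro ⟨Y, -, h1, h2⟩
    exact h1 (funext fun j => h2 j (Nat.lt_succ_of_le (Finset.le_sup (f := rk') (Finset.mem_univ j))))
  have ht := Nat.find_spec hex
  have hq : Q (Nat.find hex) := by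
    rcases Nat.eq_zero_or_pos (Nat.find hex) with h | h
    · rw [h]
      obtain ⟨Y, h1, h2⟩ := hne
      exact ⟨Y, h1, h2, fun j hj => absurd hj (by omega)⟩
    · have := Nat.find_min hex (m := Nat.find hex - 1) (by omega)
      rw [not_not, Nat.sub_add_cancel h] at this
      exact this
  generalize Nat.find hex = t at ht hq
  obtain ⟨Y, hYS, hY0, hYt⟩ := hq
  obtain ⟨i0, hi0, hYi⟩ : ∃ j, rk' j < t + 1 ∧ Y j ≠ 0 := by
    by_contra hcon
    push Not at hcon
    exact ht ⟨Y, hYS, hY0, hcon⟩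
  have hi : rk' i0 = t := by
    by_contra hcon
    exact hYi (hYt i0 (by omega))
  let Y1 := (Y i0)⁻¹ • Y
  have hY1S : Y1 ∈ S := S.smul_mem _ hYS
  have h1 : Y1 i0 = 1 := by simp [Y1, hYi]
  have h2 : ∀ j, rk' j < t → Y1 j = 0 := fun j hj => by simp [Y1, hYt j hj]
  have h3 : (fun i => δ (Y1 i)) - A *ᵥ Y1 + A i0 i0 • Y1 = 0 := by
    by_contra hcon
    refine ht ⟨_, S.add_mem (hst _ hY1S) (S.smul_mem _ hY1S), hcon, fun j hj => ?_⟩
    have hAY : (A *ᵥ Y1) j = A j j * Y1 j := by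
      simp only [mulVec, dotProduct]
      refine Finset.sum_eq_single j (fun l _ hl => ?_) (by simp)
      by_cases ha : A j l = 0
      · rw [ha, zero_mul]
      · rw [h2 l (by have := hlt _ _ ((hA j l ha).resolve_left hl); omega), mul_zero]
    simp only [Pi.add_apply, Pi.sub_apply, Pi.smul_apply, smul_eq_mul, hAY]
    by_cases hj0 : j = i0
    · rw [hj0, h1, hδ.one]
      ring
    · rw [h2 j (by have := mt (hinj j i0) hj0; omega), map_zero]
      ring
  refine ⟨i0, Y1, h1, fun j hj => h2 j (hi ▸ hlt _ _ hj), h0 _ hY1S, fun i => ?_⟩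
  have := congrFun h3 i
  simp only [Pi.add_apply, Pi.sub_apply, Pi.smul_apply, smul_eq_mul, Pi.zero_apply] at this
  linear_combination this

end Pool.Agent.MP_807c24_nt.H42
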