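import Pool.Agent.MP_807c24_nt.H42.ZE1

namespace Pool.Agent.MP_807c24_nt.H42

open Matrix Polynomial Finset

variable {ι : Type*} [Fintype ι] [DecidableEq ι]

abbrev Ix (a h : ℕ) (ι : Type*) := Fin a ⊕ (Fin (h + 1) × ι)

/-- the matrix of the differential system, for the derivation `(1 - Z) Z d/dZ` -/
noncomputable def sysA (a h : ℕ) (θ w : ι → ℝ) : Matrix (Ix a h ι) (Ix a h ι) ℝ[X]
  | .inl i, .inl i' => if (i : ℕ) = i' + 1 then 1 - X else 0
  | .inl i, .inr q => if (i : ℕ) = 0 ∧ (q.1 : ℕ) = 0 then C (w q.2) else 0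
  | .inr _, .inl _ => 0
  | .inr q, .inr q' => if q'.2 = q.2 then
      (if (q'.1 : ℕ) = q.1 then (1 - X) * C (θ q.2) else if (q'.1 : ℕ) = q.1 + 1 then 1 - X else 0)
      else 0

def vec {R : Type*} (a h : ℕ) (y : ℕ → R) (u : ℕ → ι → R) : Ix a h ι → R :=
  Sum.elim (fun i => y i) (fun q => u q.1 q.2)

noncomputable def δp : ℝ[X] →+ ℝ[X] :=
  AddMonoidHom.mk' (fun p => (1 - X) * (X * derivative p)) fun p q => by
    rw [derivative_add]; ring

theorem δp_apply (p : ℝ[X]) : δp p = (1 - X) * (X * derivative p) := rfl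

omit [Fintype ι] [DecidableEq ι] in
theorem exists_vec {R : Type*} [Zero R] {a h : ℕ} (Y : Ix a h ι → R) :
    ∃ y u, Y = vec a h y u ∧ ∀ p, h < p → ∀ k, u p k = 0 := by
  refine ⟨fun i => if hi : i < a then Y (.inl ⟨i, hi⟩) else 0,
    fun p k => if hp : p < h + 1 then Y (.inr (⟨p, hp⟩, k)) else 0, ?_, fun p hp k => ?_⟩
  · funext x
    rcases x with i | ⟨p, k⟩
    · simp [vec]
    · simp only [vec, Sum.elim_inr, p.2, dif_pos]
  · exact dif_neg (by omega)

omit [DecidableEq ι] in
theorem vec_dot {R : Type*} [CommRing R] (a h : ℕ) (y y' : ℕ → R) (u u' : ℕ → ι → R) :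
    vec a h y u ⬝ᵥ vec a h y' u' =
      ∑ i ∈ range a, y i * y' i + ∑ p ∈ range (h + 1), ∑ k, u p k * u' p k := by
  simp only [dotProduct, Fintype.sum_sum_type, vec, Sum.elim_inl, Sum.elim_inr,
    Fintype.sum_prod_type]
  rw [Fin.sum_univ_eq_sum_range (fun i => y i * y' i),
    Fin.sum_univ_eq_sum_range (fun p => ∑ k, u p k * u' p k)]

theorem sysA_mulVec {R : Type*} [CommRing R] (φ : ℝ[X] →+* R) (a h : ℕ) (θ w : ι → ℝ) (y : ℕ → R)
    (u : ℕ → ι → R) (hu : ∀ k, u (h + 1) k = 0) :
    (sysA a h θ w).map φ *ᵥ vec a h y u =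
      vec a h (fun i => if i = 0 then ∑ k, φ (C (w k)) * u 0 k else φ (1 - X) * y (i - 1))
        (fun p k => φ (1 - X) * (φ (C (θ k)) * u p k + u (p + 1) k)) := by
  funext x
  rcases x with i | ⟨p, k⟩
  · have e : ((sysA a h θ w).map φ (.inl i)) = vec a h
        (fun i' => if (i : ℕ) = i' + 1 then φ (1 - X) else 0)
        (fun p k => if (i : ℕ) = 0 ∧ p = 0 then φ (C (w k)) else 0) := by
      funext x
      rcases x with i' | ⟨p, k⟩ <;>
        simp only [map_apply, sysA, vec, Sum.elim_inl, Sum.elim_inr, apply_ite φ, map_zero]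
    show ((sysA a h θ w).map φ (.inl i)) ⬝ᵥ _ = _
    rw [e, vec_dot]
    simp only [vec, Sum.elim_inl]
    split_ifs with hi
    · rw [sum_eq_zero (fun i' _ => by rw [if_neg (by omega), zero_mul]), zero_add,
        sum_eq_single 0 (fun p _ hp => by simp [hp]) (by simp)]
      simp [hi]
    · rw [sum_eq_single ((i : ℕ) - 1) (fun i' _ h' => by rw [if_neg (by omega), zero_mul])
        (fun h' => absurd (mem_range.2 (by omega)) h'), if_pos (by omega)]
      simp [hi]
  · have e : ((sysA a h θ w).map φ (.inr (p, k))) = vec a h (fun _ => 0)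
        (fun p' k' => if k' = k then (if p' = p then φ (1 - X) * φ (C (θ k)) else
          if p' = p + 1 then φ (1 - X) else 0) else 0) := by
      funext x
      rcases x with i' | ⟨p', k'⟩ <;>
        simp only [map_apply, sysA, vec, Sum.elim_inl, Sum.elim_inr, apply_ite φ, map_zero, map_mul]
    show ((sysA a h θ w).map φ (.inr (p, k))) ⬝ᵥ _ = _
    rw [e, vec_dot]
    simp only [vec, Sum.elim_inr, zero_mul, sum_const_zero, zero_add, ite_mul, sum_ite_eq',
      mem_univ, if_true]
    have e2 : ∀ p' : ℕ, (if p' = p then φ (1 - X) * φ (C (θ k)) * u p' k else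
        if p' = p + 1 then φ (1 - X) * u p' k else 0) =
        (if p' = p then φ (1 - X) * φ (C (θ k)) * u p' k else 0) +
          if p' = p + 1 then φ (1 - X) * u p' k else 0 := by
      intro p'
      split_ifs <;> first | omega | simp
    simp only [e2, sum_add_distrib, sum_ite_eq', mem_range, p.2, if_true]
    split_ifs with hp
    · ring
    · rw [show (p : ℕ) + 1 = h + 1 by omega, hu]
      ring

abbrev KK := HahnSeries ℤ ℝ

noncomputable def DK (x : KK) : KK :=
  ⟨fun m => m * x.coeff m, x.isPWO_support.mono fun m hm h0 => hm (by simp [h0])⟩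

theorem DK_coeff (x : KK) (m : ℤ) : (DK x).coeff m = m * x.coeff m := rfl

theorem DK_mul (x y : KK) : DK (x * y) = DK x * y + x * DK y := by
  ext m
  rw [HahnSeries.coeff_add, DK_coeff, HahnSeries.coeff_mul,
    HahnSeries.coeff_mul_left' (x := DK x) x.isPWO_support fun m hm h0 => hm (by simp [DK_coeff, h0]),
    HahnSeries.coeff_mul_right' (y := DK y) y.isPWO_support
      fun m hm h0 => hm (by simp [DK_coeff, h0]), mul_sum, ← sum_add_distrib]
  refine sum_congr rfl fun ij hij => ?_
  rw [← (Finset.mem_antidiagonal.1 hij).2.2, DK_coeff, DK_coeff]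
  push_cast
  ring

noncomputable def φK : ℝ[X] →+* KK := eval₂RingHom HahnSeries.C (HahnSeries.single 1 1)

theorem φK_mono (r : ℝ) (j : ℕ) : φK (C r * X ^ j) = HahnSeries.single (j : ℤ) r := by
  simp [φK, HahnSeries.single_pow, HahnSeries.C_apply, HahnSeries.single_mul_single]

theorem φK_C_mul (r : ℝ) (x : KK) (m : ℤ) : (φK (C r) * x).coeff m = r * x.coeff m := by
  have := φK_mono r 0
  rw [pow_zero, mul_one] at this
  rw [this, HahnSeries.coeff_single_mul]
  simp

theorem φK_one_sub_mul (x : KK) (m : ℤ) :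
    (φK (1 - X) * x).coeff m = x.coeff m - x.coeff (m - 1) := by
  have := φK_mono 1 1
  rw [pow_one, C_1, one_mul] at this
  rw [map_sub, map_one, sub_mul, one_mul, HahnSeries.coeff_sub, this, HahnSeries.coeff_single_mul]
  simp

theorem φK_ne : φK (1 - X) ≠ 0 := by
  intro h
  have := φK_one_sub_mul 1 0
  rw [h] at this
  simp [HahnSeries.coeff_one] at this

noncomputable def δK : KK →+ KK :=
  AddMonoidHom.mk' (fun x => φK (1 - X) * DK x) fun x y => by
    rw [← mul_add]
    congr 1
    ext m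
    simp [DK_coeff, mul_add]

theorem δK_apply (x : KK) : δK x = φK (1 - X) * DK x := rfl

theorem δK_leib : Leib δK := fun x y => by
  simp only [δK_apply, DK_mul]
  ring

theorem δK_φK (p : ℝ[X]) : δK (φK p) = φK (δp p) := by
  induction p using Polynomial.induction_on' with
  | add p q hp hq => simp only [map_add, hp, hq]
  | monomial j r =>
    rw [δK_apply, δp_apply, map_mul]
    congr 1
    have e : X * derivative (monomial j r) = C (j * r) * X ^ j := by
      rw [← C_mul_X_pow_eq_monomial]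
      rcases j with _ | j
      · simp
      · simp only [derivative_C_mul_X_pow, map_mul, Nat.add_sub_cancel]
        ring
    rw [e, ← C_mul_X_pow_eq_monomial, φK_mono, φK_mono]
    ext m
    rw [DK_coeff, HahnSeries.coeff_single, HahnSeries.coeff_single]
    split_ifs with h
    · simp [h]
    · simp

theorem top_zero {a n : ℕ} (ha : 0 < a) (c : ℕ → ℕ → ℝ) {θ : ℝ} (hθ : 0 < θ)
    (h : ∀ m : ℕ, n < m → ∑ i ∈ range a, ∑ j ∈ range n, c i j / (m + θ - (j + 1)) ^ (i + 1) = 0)
    {j0 : ℕ} (hj : j0 < n) : c (a - 1) j0 = 0 := by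
  let G : ℝ[X] := ∑ i ∈ range a, ∑ j ∈ range n, C (c i j) * (X - C ((j : ℝ) + 1)) ^ (a - 1 - i) *
    ∏ j' ∈ (range n).erase j, (X - C ((j' : ℝ) + 1)) ^ a
  have hG : G = 0 := by
    refine eq_zero_of_infinite_isRoot G (Set.infinite_of_injective_forall_mem
      (f := fun m : ℕ => ((n + 1 + m : ℕ) : ℝ) + θ) (fun x y hxy => by simpa using hxy) fun m => ?_)
    have h1 := h (n + 1 + m) (by omega)
    generalize ht : ((n + 1 + m : ℕ) : ℝ) + θ = t at h1 ⊢
    have hne : ∀ j ∈ range n, t - ((j : ℝ) + 1) ≠ 0 := fun j hj => by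
      have : (j : ℝ) + 1 ≤ ((n + 1 + m : ℕ) : ℝ) := by
        have := mem_range.1 hj
        exact_mod_cast (by omega)
      linarith
    have h2 := congrArg (· * ∏ j' ∈ range n, (t - ((j' : ℝ) + 1)) ^ a) h1
    simp only [zero_mul, sum_mul] at h2
    simp only [Set.mem_ofPred_eq, IsRoot.def, G, eval_finsetSum, eval_mul, eval_C, eval_pow,
      eval_sub, eval_X, eval_prod]
    rw [← h2]
    refine sum_congr rfl fun i hi => sum_congr rfl fun j hj => ?_
    rw [← mul_prod_erase _ _ hj]
    have e : a = (a - 1 - i) + (i + 1) := by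
      have := mem_range.1 hi
      omega
    have := hne j hj
    generalize ∏ j' ∈ (range n).erase j, (t - ((j' : ℝ) + 1)) ^ a = Q
    rw [show (t - ((j : ℝ) + 1)) ^ a = (t - ((j : ℝ) + 1)) ^ (a - 1 - i) *
      (t - ((j : ℝ) + 1)) ^ (i + 1) by rw [← pow_add, ← e]]
    field_simp
  have h3 := congrArg (eval ((j0 : ℝ) + 1)) hG
  simp only [G, eval_finsetSum, eval_mul, eval_C, eval_pow, eval_sub, eval_X, eval_prod,
    eval_zero] at h3
  rw [sum_eq_single (a - 1), sum_eq_single j0] at h3
  · simp only [Nat.sub_self, pow_zero, mul_one, mul_eq_zero, prod_eq_zero_iff] at h3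
    refine h3.resolve_right ?_
    rintro ⟨j, hj1, hj2⟩
    have := pow_eq_zero_iff ha.ne' |>.1 hj2
    exact (mem_erase.1 hj1).1 (by exact_mod_cast (by linarith : (j : ℝ) = j0))
  · intro j _ hj'
    rw [prod_eq_zero (i := j0) (mem_erase.2 ⟨hj'.symm, mem_range.2 hj⟩) (by simp [ha.ne']),
      mul_zero]
  · intro h'
    exact absurd (mem_range.2 hj) h'
  · intro i hi hi'
    refine sum_eq_zero fun j _ => ?_
    by_cases hj' : j = j0
    · have := mem_range.1 hi
      rw [hj', sub_self, zero_pow (by omega), mul_zero, zero_mul]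
    · rw [prod_eq_zero (i := j0) (mem_erase.2 ⟨Ne.symm hj', mem_range.2 hj⟩) (by simp [ha.ne']),
        mul_zero]
  · intro h'
    exact absurd (mem_range.2 (by omega)) h'

end Pool.Agent.MP_807c24_nt.H42
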