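import Pool.Agent.MP_807c24_nt.H42.ZE2

namespace Pool.Agent.MP_807c24_nt.H42

open Matrix Polynomial Finset

variable {ι : Type*} [Fintype ι] [DecidableEq ι]

/-- the initial row -/
noncomputable def row0 (a h n : ℕ) (c : ℕ → ℕ → ℝ) (V : ℕ → ι → ℕ → ℝ) : Ix a h ι → ℝ[X] :=
  vec a h (fun i => ∑ j ∈ range n, C (c i j) * X ^ (j + 1))
    (fun p k => - ∑ m ∈ range (n + 1), C (V p k m) * X ^ m)

theorem DK_ne_one (x : KK) : DK x ≠ 1 := fun h => by
  have := congrArg (fun z : KK => z.coeff 0) h
  simp [DK_coeff] at this

theorem DK_eigen {x : KK} {α : ℝ} (hα : ∀ m : ℤ, (m : ℝ) ≠ α) (h : DK x = φK (C α) * x) :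
    x = 0 := by
  ext m
  have := congrArg (fun z : KK => z.coeff m) h
  simp only [DK_coeff, φK_C_mul] at this
  have h2 : ((m : ℝ) - α) * x.coeff m = 0 := by linarith
  simpa using (mul_eq_zero.1 h2).resolve_left (sub_ne_zero.2 (hα m))

theorem det_ne {a h n : ℕ} (ha : 0 < a) {θ w : ι → ℝ} (hθ : ∀ k, 0 < θ k ∧ θ k < 1)
    (hinj : Function.Injective θ) (hw : ∀ k, w k ≠ 0) {c : ℕ → ℕ → ℝ} {j0 : ℕ} (hj0 : j0 < n)
    (hc : c (a - 1) j0 ≠ 0) (V : ℕ → ι → ℕ → ℝ) {P : ℕ → Ix a h ι → ℝ[X]}
    (hP : Rows δp (sysA a h θ w) P) (hP0 : P 0 = row0 a h n c V)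
    (e : Ix a h ι ≃ Fin (Fintype.card (Ix a h ι))) :
    (Matrix.of fun i j => P (e i) j).det ≠ 0 := by
  intro hdet
  have hdet' : (Matrix.of fun i j => φK (P (e i) j)).det = 0 := by
    have := congrArg φK hdet
    rwa [RingHom.map_det, map_zero] at this
  obtain ⟨i0, Y, h1, h2, h3, h4⟩ := rank_one δK_leib (hP.map φK δK_φK)
    (Sum.elim (fun i => h + 1 + i) (fun q => h - q.1)) (by
      rintro (i | ⟨p, k⟩) (i' | ⟨p', k'⟩) hne <;>
        simp only [map_apply, sysA, Sum.elim_inl, Sum.elim_inr] at hne ⊢
      · right
        by_contra hcon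
        rw [if_neg (by omega), map_zero] at hne
        exact hne rfl
      · right
        omega
      · exact absurd (map_zero _) hne
      · by_cases hk : k' = k
        · by_cases hp : (p' : ℕ) = p
          · left
            rw [hk, Fin.ext hp]
          · right
            by_contra hcon
            have := p'.2
            rw [if_pos hk, if_neg hp, if_neg (by omega), map_zero] at hne
            exact hne rfl
        · rw [if_neg hk, map_zero] at hne
          exact absurd rfl hne) e hdet'
  obtain ⟨y, u, rfl, hu⟩ := exists_vec Y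
  rw [sysA_mulVec φK a h θ w y u (hu _ (by omega))] at h4
  have e0 : (fun i => φK (P 0 i)) = vec a h
      (fun i => ∑ j ∈ range n, HahnSeries.single ((j + 1 : ℕ) : ℤ) (c i j))
      (fun p k => - ∑ m ∈ range (n + 1), HahnSeries.single (m : ℤ) (V p k m)) := by
    funext x
    rcases x with i | ⟨p, k⟩ <;>
      simp only [hP0, row0, vec, Sum.elim_inl, Sum.elim_inr, map_sum, map_neg, φK_mono]
  rw [e0, vec_dot] at h3
  have hZ := φK_ne
  rcases i0 with i0 | ⟨p0, k0⟩
  · have hd : (sysA a h θ w).map φK (.inl i0) (.inl i0) = 0 := by simp [sysA]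
    rw [hd] at h4
    have hu0 : ∀ p ∈ range (h + 1), ∀ k, u p k = 0 := fun p hp k =>
      h2 (.inr (⟨p, mem_range.1 hp⟩, k)) (by simp only [Sum.elim_inl, Sum.elim_inr]; omega)
    have hy1 : y i0 = 1 := h1
    by_cases hi : (i0 : ℕ) + 1 < a
    · have := h4 (.inl ⟨i0 + 1, hi⟩)
      simp only [vec, Sum.elim_inl, Nat.add_eq_zero_iff, one_ne_zero, and_false, if_false,
        Nat.add_sub_cancel, hy1, zero_mul, sub_zero, δK_apply] at this
      exact DK_ne_one _ (mul_left_cancel₀ hZ this)
    · have hi0 := i0.2
      rw [sum_eq_single (i0 : ℕ) (fun i hi1 hi2 => by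
          have hia := mem_range.1 hi1
          rw [show y i = 0 from h2 (.inl ⟨i, hia⟩) (by simp only [Sum.elim_inl]; omega), mul_zero])
        (fun h' => absurd (mem_range.2 hi0) h'),
        sum_eq_zero (s := range (h + 1)) (fun p hp => by simp [hu0 p hp]), hy1] at h3
      have := congrArg (fun z : KK => z.coeff ((j0 + 1 : ℕ) : ℤ)) h3
      simp only [mul_one, add_zero, HahnSeries.coeff_sum, HahnSeries.coeff_single,
        HahnSeries.coeff_zero] at this
      rw [sum_eq_single j0 (fun j _ hj => by rw [if_neg (by omega)])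
        (fun h' => absurd (mem_range.2 hj0) h'), if_pos rfl] at this
      exact hc (by rwa [show a - 1 = i0 by omega])
  · have hd : (sysA a h θ w).map φK (.inr (p0, k0)) (.inr (p0, k0)) =
        φK (1 - X) * φK (C (θ k0)) := by simp [sysA]
    rw [hd] at h4
    have hu1 : u p0 k0 = 1 := h1
    have eu : ∀ p, p < h + 1 → ∀ k, DK (u p k) = φK (C (θ k - θ k0)) * u p k + u (p + 1) k := by
      intro p hp k
      have := h4 (.inr (⟨p, hp⟩, k))
      simp only [vec, Sum.elim_inr, δK_apply] at this
      apply mul_left_cancel₀ hZ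
      rw [this, C_sub, map_sub φK (C _)]
      ring
    have hp0 : (p0 : ℕ) = 0 := by
      by_contra hcon
      have := eu (p0 - 1) (by omega) k0
      rw [sub_self, C_0, map_zero, zero_mul, zero_add, Nat.sub_add_cancel (by omega), hu1] at this
      exact DK_ne_one _ this
    rw [hp0] at hu1
    have hk : ∀ k, k ≠ k0 → ∀ d p, h + 1 ≤ p + d → u p k = 0 := by
      intro k hk d
      induction d with
      | zero => exact fun p hp => hu p (by omega) k
      | succ d ih =>
        intro p hp
        by_cases hp' : h < p
        · exact hu p hp' k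
        · have := eu p (by omega) k
          rw [ih (p + 1) (by omega), add_zero] at this
          refine DK_eigen (fun m hm => ?_) this
          have a1 := hθ k
          have a2 := hθ k0
          have a3 : (m : ℝ) < 1 := by linarith
          have a4 : (-1 : ℝ) < m := by linarith
          have a5 : m = 0 := by
            have b1 : m < 1 := by exact_mod_cast a3
            have b2 : -1 < m := by exact_mod_cast a4
            omega
          rw [a5, Int.cast_zero] at hm
          exact hk (hinj (by linarith))
    have hp : ∀ p ∈ range (h + 1), p ≠ 0 → ∀ k, u p k = 0 := fun p hp hp' k =>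
      h2 (.inr (⟨p, mem_range.1 hp⟩, k)) (by
        have := mem_range.1 hp
        simp only [Sum.elim_inr]; omega)
    have hy : ∀ i, i < a → ∀ m : ℤ, 0 ≤ m → (y i).coeff m = w k0 / (m + θ k0) ^ (i + 1) := by
      intro i
      induction i with
      | zero =>
        intro _ m hm
        have := h4 (.inl ⟨0, ha⟩)
        simp only [vec, Sum.elim_inl, if_true, δK_apply] at this
        rw [sum_eq_single k0 (fun k _ hk' => by rw [hk k hk' (h + 1) 0 (by omega), mul_zero])
          (by simp), hu1] at this
        let G : KK := ⟨fun m => if 0 ≤ m then w k0 else 0,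
          (Set.IsWF.isPWO (BddBelow.isWF (s := Set.Ici (0 : ℤ)) bddBelow_Ici)).mono
            fun m hm => by
              by_contra h0
              exact hm (if_neg h0)⟩
        have hG : φK (1 - X) * G = φK (C (w k0)) * 1 := by
          ext m
          rw [φK_one_sub_mul, φK_C_mul, HahnSeries.coeff_one]
          simp only [G]
          split_ifs <;> first | omega | simp
        have e1 : DK (y 0) + φK (C (θ k0)) * y 0 = G := by
          apply mul_left_cancel₀ hZ
          rw [hG, mul_add, this]
          ring
        have e2 := congrArg (fun z : KK => z.coeff m) e1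
        simp only [HahnSeries.coeff_add, DK_coeff, φK_C_mul, G, hm, if_true] at e2
        have : (0 : ℝ) < m + θ k0 := by
          have : (0 : ℝ) ≤ m := by exact_mod_cast hm
          linarith [(hθ k0).1]
        rw [zero_add, pow_one, eq_div_iff this.ne']
        linarith
      | succ i ih =>
        intro hi m hm
        have := h4 (.inl ⟨i + 1, hi⟩)
        simp only [vec, Sum.elim_inl, Nat.add_eq_zero_iff, one_ne_zero, and_false, if_false,
          Nat.add_sub_cancel, δK_apply] at this
        have e1 : DK (y (i + 1)) + φK (C (θ k0)) * y (i + 1) = y i := by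
          apply mul_left_cancel₀ hZ
          rw [mul_add, this]
          ring
        have e2 := congrArg (fun z : KK => z.coeff m) e1
        simp only [HahnSeries.coeff_add, DK_coeff, φK_C_mul, ih (by omega) m hm] at e2
        have : (0 : ℝ) < m + θ k0 := by
          have : (0 : ℝ) ≤ m := by exact_mod_cast hm
          linarith [(hθ k0).1]
        rw [pow_succ _ (i + 1), ← div_div, ← e2, eq_div_iff this.ne']
        ring
    refine hc (top_zero ha c (hθ k0).1 (fun m hm => ?_) hj0)
    rw [sum_eq_single (s := range (h + 1)) 0 (fun p hp1 hp2 => by simp [hp p hp1 hp2]) (by simp),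
      sum_eq_single k0 (fun k _ hk' => by rw [hk k hk' (h + 1) 0 (by omega), mul_zero])
        (by simp), hu1] at h3
    have := congrArg (fun z : KK => z.coeff (m : ℤ)) h3
    simp only [mul_one, sum_mul, HahnSeries.coeff_add, HahnSeries.coeff_neg, HahnSeries.coeff_sum,
      HahnSeries.coeff_single_mul, HahnSeries.coeff_single, HahnSeries.coeff_zero] at this
    rw [sum_eq_zero (s := range (n + 1)) (fun m' hm' => by
      have := mem_range.1 hm'
      rw [if_neg (by omega)]), neg_zero, add_zero] at this
    apply mul_left_cancel₀ (hw k0)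
    rw [mul_zero, ← this, mul_sum]
    refine sum_congr rfl fun i hi => ?_
    rw [mul_sum]
    refine sum_congr rfl fun j hj => ?_
    have := mem_range.1 hj
    rw [hy i (mem_range.1 hi) _ (by omega)]
    push_cast
    ring

end Pool.Agent.MP_807c24_nt.H42
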