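import Pool.Agent.MP_807c24_nt.H42.ZE3

namespace Pool.Agent.MP_807c24_nt.H42

open Matrix Finset PowerSeries

/-- the exponential series `exp (x v)` -/
noncomputable def Ex (x : ℝ) : ℝ⟦X⟧ := rescale x (exp ℝ)

theorem Ex_mul (x y : ℝ) : Ex x * Ex y = Ex (x + y) := exp_mul_exp_eq_exp_add x y

theorem Ex_coeff (x : ℝ) (k : ℕ) : coeff k (Ex x) = x ^ k / k.factorial := by
  simp [Ex, coeff_rescale, coeff_exp, div_eq_mul_inv]

theorem Ex_const (x : ℝ) : constantCoeff (Ex x) = 1 := by
  rw [← coeff_zero_eq_constantCoeff_apply, Ex_coeff]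
  simp

theorem Ex_zero : Ex 0 = 1 := by
  ext k
  rw [Ex_coeff, coeff_one]
  split_ifs with h <;> simp [h]

theorem Ex_deriv (x : ℝ) : d⁄dX ℝ (Ex x) = C x * Ex x := by
  ext k
  rw [coeff_derivative, coeff_C_mul, Ex_coeff, Ex_coeff, Nat.factorial_succ]
  push_cast
  field_simp
  ring

theorem Ex_pow (j : ℕ) : Ex 1 ^ j = Ex j := by
  induction j with
  | zero => simp [Ex_zero]
  | succ j ih => rw [pow_succ, ih, Ex_mul]; push_cast; rfl

theorem exists_unit : ∃ u : ℝ⟦X⟧, constantCoeff u = 1 ∧ Ex 1 - 1 = X * u := by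
  refine ⟨mk fun p => coeff (p + 1) (Ex 1 - 1), ?_, ?_⟩
  · rw [← coeff_zero_eq_constantCoeff_apply, coeff_mk, map_sub, Ex_coeff, coeff_one]
    simp
  · have := (Ex 1 - 1).eq_X_mul_shift_add_const
    rwa [map_sub constantCoeff, Ex_const, map_one, sub_self, map_zero, add_zero] at this

theorem deriv_mul (f g : ℝ⟦X⟧) : d⁄dX ℝ (f * g) = d⁄dX ℝ f * g + f * d⁄dX ℝ g := by
  rw [Derivation.leibniz, smul_eq_mul, smul_eq_mul]
  ring

noncomputable def ψ : Polynomial ℝ →+* ℝ⟦X⟧ := Polynomial.eval₂RingHom C (Ex 1)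

theorem ψ_C (r : ℝ) : ψ (Polynomial.C r) = C r := by simp [ψ]
theorem ψ_X : ψ Polynomial.X = Ex 1 := by simp [ψ]

noncomputable def δv : ℝ⟦X⟧ →+ ℝ⟦X⟧ :=
  AddMonoidHom.mk' (fun f => (1 - Ex 1) * d⁄dX ℝ f) fun f g => by rw [map_add, mul_add]

theorem δv_apply (f : ℝ⟦X⟧) : δv f = (1 - Ex 1) * d⁄dX ℝ f := rfl

theorem δv_leib : Leib δv := fun x y => by
  simp only [δv_apply, deriv_mul]
  ring

theorem δv_ψ (p : Polynomial ℝ) : δv (ψ p) = ψ (δp p) := by
  induction p using Polynomial.induction_on' with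
  | add p q hp hq => simp only [map_add, hp, hq]
  | monomial j r =>
    rw [δv_apply, δp_apply, ← Polynomial.C_mul_X_pow_eq_monomial, Polynomial.derivative_C_mul_X_pow]
    simp only [map_mul, map_sub, map_one, map_pow, ψ_C, ψ_X, deriv_mul, derivative_C, Ex_pow,
      Ex_deriv]
    rcases j with _ | j
    · simp
    · rw [Nat.add_sub_cancel, show Ex ((j + 1 : ℕ) : ℝ) = Ex 1 * Ex j by
        rw [Ex_mul]; push_cast; rw [add_comm]]
      ring

theorem δv_dvd {M : ℕ} {f : ℝ⟦X⟧} (h : X ^ M ∣ f) : X ^ M ∣ δv f := by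
  obtain ⟨g, rfl⟩ := h
  obtain ⟨u, -, hu⟩ := exists_unit
  have e : 1 - Ex 1 = - (X * u) := by rw [← hu]; ring
  rw [δv_apply, deriv_mul, derivative_pow, derivative_X, e]
  rcases M with _ | M
  · simp
  · refine ⟨- (u * (((M + 1 : ℕ) : ℝ⟦X⟧) * g + X * d⁄dX ℝ g)), ?_⟩
    rw [Nat.add_sub_cancel]
    ring

theorem le_natDegree_of_dvd {K : ℕ} {d : Polynomial ℝ} (hd : d ≠ 0) (h : X ^ K ∣ ψ d) :
    K ≤ d.natDegree := by
  obtain ⟨q, hq, hq1⟩ := Polynomial.exists_eq_pow_rootMultiplicity_mul_and_not_dvd d hd 1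
  generalize d.rootMultiplicity 1 = r at hq
  have h1 : r ≤ d.natDegree := by
    have := Polynomial.natDegree_le_of_dvd ⟨q, hq⟩ hd
    rwa [Polynomial.natDegree_pow, Polynomial.natDegree_X_sub_C, mul_one] at this
  refine le_trans ?_ h1
  by_contra hcon
  obtain ⟨u, hu1, hu⟩ := exists_unit
  have h2 : X ^ r * X ∣ X ^ r * (u ^ r * ψ q) := by
    have e : ψ d = X ^ r * (u ^ r * ψ q) := by
      rw [hq, map_mul, map_pow, map_sub, ψ_X, ψ_C, map_one, hu]
      ring
    rw [← e, ← pow_succ]
    exact (pow_dvd_pow _ (by omega)).trans h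
  have h3 := X_dvd_iff.1 ((mul_dvd_mul_iff_left (pow_ne_zero r X_ne_zero)).1 h2)
  have h4 : ∀ p : Polynomial ℝ, constantCoeff (ψ p) = p.eval 1 := fun p => by
    induction p using Polynomial.induction_on' with
    | add p q hp hq => simp only [map_add, hp, hq, Polynomial.eval_add]
    | monomial j r =>
      rw [← Polynomial.C_mul_X_pow_eq_monomial]
      simp [ψ_C, ψ_X, Ex_const]
  rw [map_mul, map_pow, hu1, one_pow, one_mul, h4] at h3
  exact hq1 (Polynomial.dvd_iff_isRoot.2 h3)

/-- divided powers -/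
noncomputable def mon (k : ℕ) : ℝ⟦X⟧ := C (1 / (k.factorial : ℝ)) * X ^ k

theorem mon_zero : mon 0 = 1 := by simp [mon]

theorem mon_deriv (k : ℕ) : d⁄dX ℝ (mon (k + 1)) = mon k := by
  simp only [mon, deriv_mul, derivative_C, derivative_pow, derivative_X, Nat.add_sub_cancel]
  rw [zero_mul, zero_add, mul_one, ← mul_assoc, ← map_natCast (C (R := ℝ)), ← map_mul,
    Nat.factorial_succ]
  congr 2
  push_cast
  field_simp

theorem mon_const (k : ℕ) : constantCoeff (mon k) = if k = 0 then 1 else 0 := by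
  rcases k with _ | k <;> simp [mon]

/-- the coefficients of the divided derivatives of `t ^ (-i-1)` -/
def cp (i p : ℕ) : ℝ := (-1) ^ p * ((i + p).choose p : ℝ)

noncomputable def solY (B : ℕ → ℝ⟦X⟧) (q i : ℕ) : ℝ⟦X⟧ :=
  ∑ p ∈ range (q + 1), mon (q - p) * (C ((-1) ^ p * ((i + p - 1).choose p : ℝ)) * B (i + p))

theorem solY_zero (B : ℕ → ℝ⟦X⟧) (q : ℕ) : solY B q 0 = mon q * B 0 := by
  rw [solY, sum_range_succ', sum_eq_zero fun p _ => by
    rw [Nat.choose_eq_zero_of_lt (by omega)]
    simp]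
  simp

theorem solY_deriv {B : ℕ → ℝ⟦X⟧} (hB : ∀ l, d⁄dX ℝ (B (l + 1)) = B l) (q i : ℕ) :
    d⁄dX ℝ (solY B q (i + 1)) = solY B q i := by
  simp only [solY, map_sum, deriv_mul, derivative_C, zero_mul, zero_add, sum_add_distrib]
  rw [sum_range_succ, sum_range_succ', sum_range_succ' _ q, Nat.sub_self, mon_zero,
    derivative_one, zero_mul, add_zero, ← add_assoc, ← sum_add_distrib]
  congr 1
  · refine sum_congr rfl fun p hp => ?_
    have := mem_range.1 hp
    rw [show q - p = q - (p + 1) + 1 by omega, mon_deriv,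
      show i + 1 + (p + 1) = (i + p + 1) + 1 by omega, hB, show i + 1 + p = i + p + 1 by omega,
      show i + (p + 1) = i + p + 1 by omega, Nat.add_sub_cancel, Nat.add_sub_cancel,
      Nat.choose_succ_succ]
    push_cast
    simp only [map_mul, map_add, map_pow, map_neg, map_one, pow_succ]
    ring
  · simp [hB]

variable {ι : Type*} [Fintype ι] [DecidableEq ι]

noncomputable def solU (θ : ι → ℝ) (q p : ℕ) (k : ι) : ℝ⟦X⟧ :=
  if p ≤ q then mon (q - p) * Ex (θ k) else 0

omit [Fintype ι] [DecidableEq ι] in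
theorem solU_deriv (θ : ι → ℝ) (q p : ℕ) (k : ι) :
    d⁄dX ℝ (solU θ q p k) = C (θ k) * solU θ q p k + solU θ q (p + 1) k := by
  simp only [solU]
  split_ifs with h1 h2 h2
  · rw [deriv_mul, Ex_deriv, show q - p = q - (p + 1) + 1 by omega, mon_deriv]
    ring
  · rw [show q - p = 0 by omega, mon_zero, one_mul, Ex_deriv, add_zero]
  · omega
  · simp

theorem sol_eq (a h : ℕ) (θ w : ι → ℝ) {B : ℕ → ℝ⟦X⟧} (hB : ∀ l, d⁄dX ℝ (B (l + 1)) = B l)
    (hB0 : (1 - Ex 1) * B 0 = ∑ k, C (w k) * Ex (θ k)) {q : ℕ} (hq : q ≤ h) :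
    (fun x => δv (vec a h (fun i => solY B q (i + 1)) (solU θ q) x)) =
      (sysA a h θ w).map ψ *ᵥ vec a h (fun i => solY B q (i + 1)) (solU θ q) := by
  rw [sysA_mulVec ψ a h θ w _ _ fun k => if_neg (by omega)]
  funext x
  rcases x with i | ⟨p, k⟩ <;>
    simp only [vec, Sum.elim_inl, Sum.elim_inr, δv_apply, map_sub, map_one, ψ_X, ψ_C]
  · rw [solY_deriv hB]
    split_ifs with hi
    · rw [hi, solY_zero, mul_left_comm, hB0, mul_sum]
      refine sum_congr rfl fun k _ => ?_
      simp only [solU, zero_le, if_true, Nat.sub_zero]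
      ring
    · rw [Nat.sub_add_cancel (by omega)]
  · rw [solU_deriv]

theorem rows_natDegree {a h n : ℕ} {θ w : ι → ℝ} {P : ℕ → Ix a h ι → Polynomial ℝ}
    (hP : Rows δp (sysA a h θ w) P) (h0 : ∀ x, (P 0 x).natDegree ≤ n) (k : ℕ) :
    ∀ x, (P k x).natDegree ≤ n + k := by
  have h1 : (1 - Polynomial.X : Polynomial ℝ).natDegree ≤ 1 := by compute_degree
  have hA : ∀ x y, (sysA a h θ w x y).natDegree ≤ 1 := by
    rintro (i | q) (i' | q') <;> simp only [sysA] <;> (try split_ifs) <;>
      first | exact h1 | compute_degree!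
  induction k with
  | zero => exact h0
  | succ k ih =>
    intro x
    rw [hP k]
    refine Polynomial.natDegree_add_le_of_degree_le ?_ ?_
    · show ((1 - Polynomial.X) * (Polynomial.X * Polynomial.derivative (P k x))).natDegree ≤ _
      refine Polynomial.natDegree_mul_le.trans ?_
      have h2 : (Polynomial.X * Polynomial.derivative (P k x)).natDegree ≤ (P k x).natDegree := by
        refine Polynomial.natDegree_le_iff_coeff_eq_zero.2 fun m hm => ?_
        obtain ⟨m, rfl⟩ := Nat.exists_eq_succ_of_ne_zero (show m ≠ 0 by omega)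
        rw [Polynomial.coeff_X_mul, Polynomial.coeff_derivative,
          Polynomial.coeff_eq_zero_of_natDegree_lt hm, zero_mul]
      have := ih x
      omega
    · refine Polynomial.natDegree_sum_le_of_forall_le _ _ fun y _ =>
        Polynomial.natDegree_mul_le.trans ?_
      exact (add_le_add (ih y) (hA y x)).trans (by omega)

theorem zero_est_top [Nonempty ι] {a h n M : ℕ} (ha : 0 < a) {θ w : ι → ℝ}
    (hθ : ∀ k, 0 < θ k ∧ θ k < 1)
    (hinj : Function.Injective θ) (hw : ∀ k, w k ≠ 0) {c : ℕ → ℕ → ℝ} {j0 : ℕ} (hj0 : j0 < n)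
    (hc : c (a - 1) j0 ≠ 0) {B : ℕ → ℝ⟦X⟧} (hB : ∀ l, d⁄dX ℝ (B (l + 1)) = B l)
    (hB0 : (1 - Ex 1) * B 0 = ∑ k, C (w k) * Ex (θ k)) (V : ℕ → ι → ℕ → ℝ)
    (hV : ∀ p ≤ h, X ^ M ∣ ∑ i ∈ range a, ∑ j ∈ range n,
      C (cp i p * c i j) * (Ex (j + 1) * B (i + p + 1)) -
        ∑ k, ∑ m ∈ range (n + 1), C (V p k m) * Ex (θ k + m)) :
    (h + 1) * M ≤ (a + (h + 1) * Fintype.card ι) * (n + (a + (h + 1) * Fintype.card ι)) := by
  let P : ℕ → Ix a h ι → Polynomial ℝ := fun k => Nat.rec (row0 a h n c V)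
    (fun _ p => (fun i => δp (p i)) + p ᵥ* sysA a h θ w) k
  have hP : Rows δp (sysA a h θ w) P := fun _ => rfl
  let e := Fintype.equivFin (Ix a h ι)
  have hdet := det_ne ha hθ hinj hw hj0 hc V hP rfl e
  have hcard : Fintype.card (Ix a h ι) = a + (h + 1) * Fintype.card ι := by simp
  have hdeg := rows_natDegree hP (n := n) (by
    rintro (i | ⟨p, k⟩)
    · refine Polynomial.natDegree_sum_le_of_forall_le _ _ fun j hj =>
        (Polynomial.natDegree_C_mul_X_pow_le _ _).trans (mem_range.1 hj)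
    · show (- ∑ m ∈ range (n + 1), Polynomial.C (V p k m) * Polynomial.X ^ m).natDegree ≤ n
      rw [Polynomial.natDegree_neg]
      refine Polynomial.natDegree_sum_le_of_forall_le _ _ fun j hj =>
        (Polynomial.natDegree_C_mul_X_pow_le _ _).trans (Nat.le_of_lt_succ (mem_range.1 hj)))
  refine (le_natDegree_of_dvd hdet ?_).trans ?_
  · obtain ⟨k0⟩ := ‹Nonempty ι›
    let sol : ℕ → Ix a h ι → ℝ⟦X⟧ := fun q => vec a h (fun i => solY B q (i + 1)) (solU θ q)
    have hdiv : ∀ q ≤ h, ∀ k, X ^ M ∣ (fun x => ψ (P k x)) ⬝ᵥ sol q := by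
      intro q hq k
      induction k with
      | zero =>
        have e0 : (fun x => ψ (P 0 x)) = vec a h (fun i => ∑ j ∈ range n, C (c i j) * Ex (j + 1))
            (fun p k => - ∑ m ∈ range (n + 1), C (V p k m) * Ex m) := by
          funext x
          rcases x with i | ⟨p, k⟩ <;>
            simp only [P, Nat.rec_zero, row0, vec, Sum.elim_inl, Sum.elim_inr, map_sum, map_neg,
              map_mul, map_pow, ψ_C, ψ_X, Ex_pow, Nat.cast_add, Nat.cast_one]
        rw [e0, vec_dot]
        have e1 : ∑ p ∈ range (h + 1), ∑ k, (- ∑ m ∈ range (n + 1), C (V p k m) * Ex m) *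
            solU θ q p k = ∑ p ∈ range (q + 1), mon (q - p) *
              (- ∑ k, ∑ m ∈ range (n + 1), C (V p k m) * Ex (θ k + m)) := by
          symm
          refine sum_subset_zero_on_sdiff (range_subset_range.2 (by omega)) (fun p hp => ?_)
            fun p hp => ?_
          · have := mem_sdiff.1 hp
            simp only [mem_range] at this
            simp [solU, show ¬ p ≤ q by omega]
          · have := mem_range.1 hp
            simp only [solU, show p ≤ q by omega, if_true, ← Ex_mul, mul_neg, neg_mul, mul_sum,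
              sum_mul, sum_neg_distrib]
            congr 1
            refine sum_congr rfl fun k _ => sum_congr rfl fun m _ => ?_
            ring
        have e2 : ∑ i ∈ range a, (∑ j ∈ range n, C (c i j) * Ex (j + 1)) * solY B q (i + 1) =
            ∑ p ∈ range (q + 1), mon (q - p) * ∑ i ∈ range a, ∑ j ∈ range n,
              C (cp i p * c i j) * (Ex (j + 1) * B (i + p + 1)) := by
          simp only [solY, mul_sum, sum_mul]
          rw [sum_comm]
          refine sum_congr rfl fun p _ => sum_congr rfl fun i _ => sum_congr rfl fun j _ => ?_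
          rw [show i + 1 + p = i + p + 1 by omega, Nat.add_sub_cancel, cp]
          simp only [map_mul]
          ring
        rw [e1, e2, ← sum_add_distrib]
        refine dvd_sum fun p hp => ?_
        have := mem_range.1 hp
        rw [← mul_add, ← sub_eq_add_neg]
        exact (hV p (by omega)).mul_left _
      | succ k ih =>
        have := (hP.map ψ δv_ψ).dot δv_leib k (sol q)
        rw [sol_eq a h θ w hB hB0 hq, sub_self, dotProduct_zero, add_zero] at this
        rw [← this]
        exact δv_dvd ih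
    let sp : Ix a h ι → Prop := Sum.elim (fun _ => False) fun q => q.2 = k0
    let lev : Ix a h ι → ℕ := Sum.elim (fun _ => 0) fun q => q.1
    have hlev : ∀ y, lev y ≤ h := by
      rintro (i | ⟨p, k⟩)
      · exact Nat.zero_le _
      · exact Nat.le_of_lt_succ p.2
    classical
    let Y : Matrix (Ix a h ι) (Ix a h ι) ℝ⟦X⟧ :=
      fun x y => if sp y then sol (lev y) x else if x = y then 1 else 0
    have hY : IsUnit Y.det := by
      rw [isUnit_iff_constantCoeff, RingHom.map_det]
      set Y0 := constantCoeff.mapMatrix Y with hY0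
      have hn : (Y0 - 1) * (Y0 - 1) = 0 := by
        ext x z
        rw [Matrix.mul_apply]
        refine sum_eq_zero fun y _ => ?_
        by_cases hy : sp y
        · refine mul_eq_zero_of_right _ ?_
          rcases y with i | ⟨p, k⟩
          · exact absurd hy id
          · have hk : k = k0 := hy
            simp only [hY0, Matrix.sub_apply, RingHom.mapMatrix_apply, map_apply, Y, one_apply]
            by_cases hz : sp z
            · rcases z with i | ⟨p', k'⟩
              · exact absurd hz id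
              · have hk' : k' = k0 := hz
                rw [if_pos hz]
                simp only [sol, lev, vec, Sum.elim_inr, solU, hk, hk', Sum.inr.injEq, Prod.mk.injEq,
                  and_true, Fin.ext_iff]
                split_ifs with h1 h2 h2
                · simp [h2, mon_zero, Ex_const]
                · rw [map_mul, mon_const, if_neg (by omega)]
                  simp
                · omega
                · simp
            · rw [if_neg hz]
              split_ifs <;> simp
        · refine mul_eq_zero_of_left ?_ _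
          simp only [hY0, Matrix.sub_apply, RingHom.mapMatrix_apply, map_apply, Y, one_apply,
            if_neg hy]
          split_ifs <;> simp
      refine isUnit_det_of_right_inverse (B := 1 - (Y0 - 1)) ?_
      have : Y0 * (1 - (Y0 - 1)) = 1 - (Y0 - 1) * (Y0 - 1) := by noncomm_ring
      rw [this, hn, sub_zero]
    have hcol : ∀ x y, ∃ g, (ψ.mapMatrix (Matrix.of fun i j => P (e i) j) * Y) x y =
        (if sp y then X ^ M else 1) * g := by
      intro x y
      split_ifs with hy
      · obtain ⟨g, hg⟩ := hdiv (lev y) (hlev y) (e x)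
        refine ⟨g, ?_⟩
        rw [← hg, Matrix.mul_apply]
        simp only [Y, if_pos hy, dotProduct, RingHom.mapMatrix_apply, map_apply, of_apply]
      · exact ⟨_, (one_mul _).symm⟩
    choose Q hQ using hcol
    have h1 : (ψ.mapMatrix (Matrix.of fun i j => P (e i) j) * Y) =
        Matrix.of fun x y => (if sp y then X ^ M else 1) * Matrix.of Q x y := by
      ext1 x y
      exact hQ x y
    have h2 := congrArg Matrix.det h1
    rw [det_mul, ← RingHom.map_det, det_mul_row (fun y => if sp y then X ^ M else 1)] at h2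
    have h3 : (∏ y, if sp y then (X : ℝ⟦X⟧) ^ M else 1) = X ^ ((h + 1) * M) := by
      rw [Fintype.prod_sum_type, Fintype.prod_prod_type, mul_comm (h + 1), pow_mul]
      have e3 : ∀ p : Fin (h + 1), (∏ k, if sp (.inr (p, k)) then (X : ℝ⟦X⟧) ^ M else 1) = X ^ M :=
        fun p => by
          rw [prod_eq_single k0 (fun k _ hk => by exact if_neg hk) (by simp)]
          exact if_pos rfl
      rw [prod_congr rfl fun p _ => e3 p, prod_eq_one fun i _ => by exact if_neg id]
      simp
    rw [h3] at h2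
    exact (hY.dvd_mul_right).1 ⟨_, h2⟩
  · rw [det_apply, ← hcard]
    refine Polynomial.natDegree_sum_le_of_forall_le _ _ fun s _ =>
      (Polynomial.natDegree_smul_le _ _).trans ((Polynomial.natDegree_prod_le _ _).trans ?_)
    refine (sum_le_card_nsmul _ _ (n + Fintype.card (Ix a h ι)) fun x _ => ?_).trans (by simp)
    have := hdeg (e (s x)) x
    have := (e (s x)).2
    simp only [of_apply]
    omega

theorem zero_est [Nonempty ι] {a h n M : ℕ} {θ w : ι → ℝ} (hθ : ∀ k, 0 < θ k ∧ θ k < 1)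
    (hinj : Function.Injective θ) (hw : ∀ k, w k ≠ 0) {c : ℕ → ℕ → ℝ}
    (hc : ∃ i < a, ∃ j < n, c i j ≠ 0) {B : ℕ → ℝ⟦X⟧} (hB : ∀ l, d⁄dX ℝ (B (l + 1)) = B l)
    (hB0 : (1 - Ex 1) * B 0 = ∑ k, C (w k) * Ex (θ k)) (V : ℕ → ι → ℕ → ℝ)
    (hV : ∀ p ≤ h, X ^ M ∣ ∑ i ∈ range a, ∑ j ∈ range n,
      C (cp i p * c i j) * (Ex (j + 1) * B (i + p + 1)) -
        ∑ k, ∑ m ∈ range (n + 1), C (V p k m) * Ex (θ k + m)) :
    (h + 1) * M ≤ (a + (h + 1) * Fintype.card ι) * (n + (a + (h + 1) * Fintype.card ι)) := by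
  induction a with
  | zero =>
    obtain ⟨i, hi, -⟩ := hc
    omega
  | succ a ih =>
    by_cases htop : ∃ j < n, c a j ≠ 0
    · obtain ⟨j, hj, hj'⟩ := htop
      exact zero_est_top (Nat.succ_pos a) hθ hinj hw hj hj' hB hB0 V hV
    · push Not at htop
      refine (ih ?_ fun p hp => ?_).trans (by gcongr <;> omega)
      · obtain ⟨i, hi, j, hj, hij⟩ := hc
        refine ⟨i, ?_, j, hj, hij⟩
        by_contra hcon
        exact hij (by rw [show i = a by omega]; exact htop j hj)
      · have := hV p hp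
        rwa [sum_range_succ, sum_eq_zero (s := range n) (fun j hj => by
          rw [htop j (mem_range.1 hj), mul_zero, map_zero, zero_mul]), add_zero] at this

end Pool.Agent.MP_807c24_nt.H42
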